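import Pool.Agent.H73LP.Lift2
import Pool.Agent.H73LP.Chain

/-!
# The chain, with the induced isomorphism
-/

set_option autoImplicit false
set_option linter.unusedSectionVars false

namespace Pool.Agent.H73LP

open Matrix Pool.Agent.H73AM

theorem chain2 {κ : Type} [Fintype κ] [DecidableEq κ] (B : Matrix κ κ ℤ) (hB : ∀ i j, 0 ≤ B i j)
    (hBc : ∀ j, 1 ≤ ∑ i, B i j) (hBr : ∀ i, 1 ≤ ∑ j, B i j) (l : ℕ) :
    ∀ (ι : Type) [Fintype ι] [DecidableEq ι] (Z : Matrix κ ι ℤ) (C : Matrix ι ι ℤ)
      (E : Matrix ι κ ℤ), (∀ a j, 0 ≤ Z a j) → (∀ j, 1 ≤ ∑ a, Z a j) → (∀ i a, 0 ≤ E i a) →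
      Z * C = B * Z → (∃ t : ℕ, ∀ x : ι → ℤ, Z.mulVec x = 0 → (C ^ t).mulVec x = 0) →
      Z * E = B ^ (l + 1) →
      ∃ K : ℤ, 0 ≤ K ∧ ∀ U : Matrix ι κ ℤ, (∀ i a, K ≤ U i a) →
        LZ (B + Z * U) Z (1 : Matrix κ κ ℤ) (C + U * Z) (B + Z * U) := by
  induction l with
  | zero =>
    intro ι _ _ Z C E hZ hs hE hC hn hZE
    rw [zero_add, pow_one] at hZE
    have h1 : Z * (E * Z) = B * Z := by rw [← Matrix.mul_assoc, hZE]
    obtain ⟨K, hK0, hK⟩ := lifts2 hZ hs B C (E * Z) hC h1 hn
      ⟨1, fun x hx => by rw [pow_one, ← Matrix.mulVec_mulVec, hx, Matrix.mulVec_zero]⟩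
    refine ⟨K, hK0, fun U hU => ?_⟩
    have s1 := hK U U hU hU rfl
    have s2 := ZC.elem (E + U) Z (fun i a => by
      rw [Matrix.add_apply]
      have := hU i a
      have := hE i a
      linarith) hZ
    rw [Matrix.add_mul, Matrix.mul_add, hZE] at s2
    have s3 : LZ (B + Z * U) Z (1 : Matrix κ κ ℤ) (E * Z + U * Z) (B + Z * U) :=
      ⟨E + U, s2, 1, 0, by rw [pow_zero, pow_one, Matrix.one_mul, Matrix.mul_one, Matrix.mul_add,
        hZE]⟩
    exact s1.trans s3
  | succ l ih =>
    intro ι _ _ Z C E hZ hs hE hC hn hZE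
    set P : Matrix κ κ ℤ := B ^ (l + 1) with hP
    have hPP : Z * E = B * P := by rw [hZE, hP, ← pow_succ']
    have hPB : P * B = Z * E := by rw [hZE, hP, ← pow_succ]
    -- the three lifts
    have hCE : Z * (C * E) = B * (Z * E) := by rw [← Matrix.mul_assoc, hC, Matrix.mul_assoc]
    have hEB : Z * (E * B) = B * (Z * E) := by
      rw [← Matrix.mul_assoc, hPP, Matrix.mul_assoc, hPB, hPP]
    have hZE0 : ∀ a b, 0 ≤ (Z * E) a b := by
      intro a b
      rw [Matrix.mul_apply]
      exact Finset.sum_nonneg fun i _ => mul_nonneg (hZ a i) (hE i b)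
    have hZEc : ∀ b, 1 ≤ ∑ a, (Z * E) a b := by rw [hZE]; exact pow_col hB hBc _
    have hZ2 : ∀ a j, 0 ≤ (fromCols Z (Z * E)) a j := by
      intro a j
      cases j
      · exact hZ a _
      · exact hZE0 a _
    have hs2 : ∀ j, 1 ≤ ∑ a, (fromCols Z (Z * E)) a j := by
      intro j
      cases j
      · exact hs _
      · exact hZEc _
    obtain ⟨K1, hK10, hK1⟩ := lifts2 hZ2 hs2 B (blk C (C * E)) (blk C (E * B))
      (lift_block hC hCE) (lift_block hC hEB) (nil_block hC hCE hn) (nil_block hC hEB hn)
    have hP0 : ∀ a b, 0 ≤ P a b := pow_nonneg' hB _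
    have hZ1 : ∀ a j, 0 ≤ (fromCols Z P) a j := by
      intro a j
      cases j
      · exact hZ a _
      · exact hP0 a _
    have hs1 : ∀ j, 1 ≤ ∑ a, (fromCols Z P) a j := by
      intro j
      cases j
      · exact hs _
      · exact pow_col hB hBc _ _
    obtain ⟨K2, hK20, hK2⟩ := ih (ι ⊕ κ) (fromCols Z P) (blk C E) (fromRows 0 1)
      hZ1 hs1 (by
        intro i a
        cases i
        · simp
        · rw [fromRows_apply_inr, Matrix.one_apply]
          split_ifs <;> simp)
      (lift_block hC hPP) (nil_block hC hPP hn) (by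
        rw [fromCols_mul_fromRows]
        simp [hP])
    obtain ⟨c, hc0, hc⟩ := exists_bound C
    obtain ⟨e, he0, he⟩ := exists_bound_vec (fun i => ∑ b, E i b)
    set K0 : ℤ := K1 + K2 + c with hK0
    have hK00 : 0 ≤ K0 := by positivity
    refine ⟨K0 + K0 * e, by positivity, fun U hU => ?_⟩
    set V : Matrix κ κ ℤ := Matrix.of fun _ _ => K0 with hV
    set U0 : Matrix ι κ ℤ := U - E * V with hU0
    have hU0c : ∀ i a, K0 ≤ U0 i a := by
      intro i a
      have h1 : (E * V) i a = K0 * ∑ b, E i b := by
        rw [Matrix.mul_apply, Finset.mul_sum]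
        apply Finset.sum_congr rfl
        intro b _
        rw [hV, Matrix.of_apply, mul_comm]
      rw [hU0, Matrix.sub_apply, h1]
      have h2 := hU i a
      have h3 : ∑ b, E i b ≤ e := (le_abs_self _).trans (he i)
      have h4 : K0 * ∑ b, E i b ≤ K0 * e := mul_le_mul_of_nonneg_left h3 hK00
      linarith
    have hUe : U0 + E * V = U := by rw [hU0]; abel
    set Y : Matrix (ι ⊕ κ) κ ℤ := fromRows U0 V with hY
    have hYc : ∀ i a, K0 ≤ Y i a := by
      intro i a
      cases i
      · exact hU0c _ a
      · exact le_rfl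
    have hVZ : ∀ a j, 0 ≤ (V * Z) a j := by
      intro a j
      rw [Matrix.mul_apply]
      exact Finset.sum_nonneg fun b _ => mul_nonneg hK00 (hZ b j)
    have s1 : LZ (B + Z * U) Z (fromCols Z (Z * E)) (C + U * Z)
        (blk C (C * E) + Y * fromCols Z (Z * E)) := by
      have h := ZC.elem (fromCols (1 : Matrix ι ι ℤ) E) (fromRows (C + U0 * Z) (V * Z))
        (by
          intro i j
          cases j
          · rw [fromCols_apply_inl, Matrix.one_apply]
            split_ifs <;> simp
          · exact hE i _)
        (by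
          intro i j
          cases i
          · exact add_nonneg' hZ hs hc0 hc (fun i a => by have := hU0c i a; linarith) _ j
          · exact hVZ _ j)
      have e1 : fromCols (1 : Matrix ι ι ℤ) E * fromRows (C + U0 * Z) (V * Z) = C + U * Z := by
        rw [fromCols_mul_fromRows, Matrix.one_mul, ← Matrix.mul_assoc, add_assoc,
          ← Matrix.add_mul, hUe]
      have e2 : fromRows (C + U0 * Z) (V * Z) * fromCols (1 : Matrix ι ι ℤ) E
          = blk C (C * E) + Y * fromCols Z (Z * E) := by
        rw [hY, blk, fromRows_mul_fromCols, fromRows_mul_fromCols, fromBlocks_add, Matrix.mul_one,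
          Matrix.mul_one, Matrix.add_mul, Matrix.mul_assoc, Matrix.mul_assoc, zero_add, zero_add]
      rw [e1, e2] at h
      exact ⟨_, h, 0, 0, by rw [pow_zero, Matrix.one_mul, Matrix.one_mul, mul_fromCols,
        Matrix.mul_one]⟩
    have hZ2Y : fromCols Z (Z * E) * Y = Z * U := by
      rw [hY, fromCols_mul_fromRows, Matrix.mul_assoc, ← Matrix.mul_add, hUe]
    have s2 := hK1 Y Y (fun i a => by have := hYc i a; linarith)
      (fun i a => by have := hYc i a; linarith) rfl
    rw [hZ2Y] at s2
    have e5 : fromCols Z P * fromRows U0 (B * V) = Z * U := by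
      rw [fromCols_mul_fromRows, ← Matrix.mul_assoc, hPB, Matrix.mul_assoc, ← Matrix.mul_add, hUe]
    set T : Matrix (ι ⊕ κ) (ι ⊕ κ) ℤ := fromBlocks 1 0 0 B with hT
    have s3 : LZ (B + Z * U) (fromCols Z (Z * E)) (fromCols Z P)
        (blk C (E * B) + Y * fromCols Z (Z * E))
        (blk C E + (fromRows U0 (B * V)) * fromCols Z P) := by
      have h := ZC.elem (blk C E + Y * fromCols Z P) T
        (by
          intro i j
          have hpos : ∀ i j, c ≤ (Y * fromCols Z P) i j :=
            fun i j => mul_ge hZ1 hs1 hc0 (fun i a => by have := hYc i a; linarith) i j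
          rw [Matrix.add_apply, blk]
          have h1 := hpos i j
          rcases i with i | i <;> rcases j with j | j
          · rw [fromBlocks_apply₁₁]
            have h2 := neg_abs_le (C i j)
            have h3 := hc i j
            linarith
          · rw [fromBlocks_apply₁₂]
            have h2 := hE i j
            linarith
          · rw [fromBlocks_apply₂₁, Matrix.zero_apply]
            linarith
          · rw [fromBlocks_apply₂₂, Matrix.zero_apply]
            linarith)
        (by
          intro i j
          rw [hT]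
          rcases i with i | i <;> rcases j with j | j
          · rw [fromBlocks_apply₁₁, Matrix.one_apply]
            split_ifs <;> simp
          · rw [fromBlocks_apply₁₂, Matrix.zero_apply]
          · rw [fromBlocks_apply₂₁, Matrix.zero_apply]
          · rw [fromBlocks_apply₂₂]
            exact hB i j)
      have q3 : fromCols Z P * T = fromCols Z (Z * E) := by
        rw [hT, fromCols_mul_fromBlocks, hPB]
        simp
      have e1 : (blk C E + Y * fromCols Z P) * T
          = blk C (E * B) + Y * fromCols Z (Z * E) := by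
        have q1 : blk C E * T = blk C (E * B) := by
          rw [blk, blk, hT, fromBlocks_multiply]
          simp
        have q2 : fromCols Z P * T = fromCols Z (Z * E) := by
          rw [hT, fromCols_mul_fromBlocks, hPB]
          simp
        rw [Matrix.add_mul, q1, Matrix.mul_assoc, q2]
      have e2 : T * (blk C E + Y * fromCols Z P)
          = blk C E + (fromRows U0 (B * V)) * fromCols Z P := by
        have q1 : T * blk C E = blk C E := by
          rw [blk, hT, fromBlocks_multiply]
          simp
        have q2 : T * Y = fromRows U0 (B * V) := by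
          rw [hT, hY, fromBlocks_mul_fromRows]
          simp
        rw [Matrix.mul_add, q1, ← Matrix.mul_assoc, q2]
      refine ⟨_, e1 ▸ e2 ▸ h, 1, 0, ?_⟩
      rw [pow_zero, pow_one, Matrix.one_mul, ← q3, Matrix.mul_assoc, e2, Matrix.mul_add,
        lift_block hC hPP, ← Matrix.mul_assoc, e5, Matrix.add_mul]
    have s4 := hK2 (fromRows U0 (B * V)) (by
      intro i a
      cases i with
      | inl i => rw [fromRows_apply_inl]; have := hU0c i a; linarith
      | inr b =>
        rw [fromRows_apply_inr, Matrix.mul_apply]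
        have : ∑ x, B b x * V x a = K0 * ∑ x, B b x := by
          rw [Finset.mul_sum]
          apply Finset.sum_congr rfl
          intro x _
          rw [hV, Matrix.of_apply, mul_comm]
        rw [this]
        nlinarith [hBr b])
    rw [e5] at s4
    exact ((s1.trans s2).trans s3).trans s4

end Pool.Agent.H73LP
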