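import Pool.Agent.H73AM.Defs

/-!
# Chains of elementary equivalences and the isomorphisms they induce
-/

set_option autoImplicit false

namespace Pool.Agent.H73LP

open Matrix

/-- `Chain A B P`: there are matrices over `ℕ` with `A = R₁ S₁`, `S₁ R₁ = R₂ S₂`, …, `S_k R_k = B`
(`k ≥ 1`) and `P = R₁ R₂ ⋯ R_k`. -/
inductive Chain : {n m : ℕ} → Matrix (Fin n) (Fin n) ℕ → Matrix (Fin m) (Fin m) ℕ →
    Matrix (Fin n) (Fin m) ℕ → Prop
  | one {n m : ℕ} (R : Matrix (Fin n) (Fin m) ℕ) (S : Matrix (Fin m) (Fin n) ℕ) :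
      Chain (R * S) (S * R) R
  | cons {n m p : ℕ} (R : Matrix (Fin n) (Fin m) ℕ) (S : Matrix (Fin m) (Fin n) ℕ)
      (C : Matrix (Fin p) (Fin p) ℕ) (P : Matrix (Fin m) (Fin p) ℕ) :
      Chain (S * R) C P → Chain (R * S) C (R * P)

/-- `S` is realised by a chain from `A` to `B` (with product `P` of the left factors): `S P` is a
power of `B` up to a power of `B`. -/
def Realised {n m : ℕ} (A : Matrix (Fin n) (Fin n) ℕ) (B : Matrix (Fin m) (Fin m) ℕ)
    (S : Matrix (Fin m) (Fin n) ℕ) : Prop :=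
  ∃ P : Matrix (Fin n) (Fin m) ℕ, Chain A B P ∧ ∃ a c : ℕ, B ^ c * (S * P) = B ^ a

/-- The matrix over `ℤ`. -/
def toZ {ι κ : Type} (A : Matrix ι κ ℕ) : Matrix ι κ ℤ := A.map (Nat.castRingHom ℤ)

end Pool.Agent.H73LP
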