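import Pool.Agent.H73AM.Red

/-!
# Elimination of a kernel vector
-/

set_option autoImplicit false

namespace Pool.Agent.H73LP

open Matrix Pool.Agent.H73AM

variable {n : ℕ}

/-- If `S R = S R'`, then `R S` and `R' S` are strong shift equivalent. -/
theorem elim {n m : ℕ} (R R' : Matrix (Fin n) (Fin m) ℕ) (S : Matrix (Fin m) (Fin n) ℕ)
    (h : S * R = S * R') : SSE (R * S) (R' * S) :=
  Relation.TransGen.tail (Relation.TransGen.single (show Elem ⟨n, R * S⟩ ⟨m, S * R⟩ from
    ⟨R, S, rfl, rfl⟩)) (show Elem ⟨m, S * R⟩ ⟨n, R' * S⟩ from ⟨S, R', h, rfl⟩)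

/-- The left factor `[c, I]`. -/
def lf (c : Fin n → ℕ) : Matrix (Fin n) (Fin (n + 1)) ℕ :=
  Matrix.of fun i j => Fin.cases (c i) (fun l => if i = l then 1 else 0) j

/-- The right factor with first row `y` and then `A1`. -/
def rf (y : Fin n → ℕ) (A1 : Matrix (Fin n) (Fin n) ℕ) : Matrix (Fin (n + 1)) (Fin n) ℕ :=
  Matrix.of fun i j => Fin.cases (y j) (fun l => A1 l j) i

theorem lf_mul_rf (c y : Fin n → ℕ) (A1 : Matrix (Fin n) (Fin n) ℕ) (i j : Fin n) :
    (lf c * rf y A1) i j = c i * y j + A1 i j := by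
  rw [Matrix.mul_apply, Fin.sum_univ_succ]
  simp [lf, rf]

/-- Elimination: if `A x = 0`, `y x = 0`, `y ≥ 0` and `x_i y_j ≤ A_ij`, then `A` and `A - x y`
are strong shift equivalent. -/
theorem elim_vec (A B : Matrix (Fin n) (Fin n) ℕ) (x : Fin n → ℤ) (y : Fin n → ℕ)
    (hA : ∀ i, ∑ j, (A i j : ℤ) * x j = 0) (hy : ∑ j, (y j : ℤ) * x j = 0)
    (hB : ∀ i j, (B i j : ℤ) = A i j - x i * y j) : SSE A B := by
  classical
  have hle : ∀ i j, (x i).toNat * y j ≤ A i j := by
    intro i j
    rcases le_total (x i) 0 with h | h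
    · rw [Int.toNat_of_nonpos h]; simp
    · have h1 := hB i j
      have h2 : ((x i).toNat : ℤ) = x i := Int.toNat_of_nonneg h
      have h3 : (((x i).toNat * y j : ℕ) : ℤ) ≤ A i j := by
        push_cast
        rw [h2]
        have : (0 : ℤ) ≤ B i j := Int.natCast_nonneg _
        linarith
      exact_mod_cast h3
  set A1 : Matrix (Fin n) (Fin n) ℕ := Matrix.of fun i j => A i j - (x i).toNat * y j with hA1
  have hA1' : ∀ i j, (A1 i j : ℤ) = A i j - ((x i).toNat : ℤ) * y j := by
    intro i j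
    rw [hA1, Matrix.of_apply, Nat.cast_sub (hle i j)]
    push_cast
    ring
  have hx : ∀ i, x i = ((x i).toNat : ℤ) - ((-x i).toNat : ℤ) := by
    intro i; omega
  have e1 : A = lf (fun i => (x i).toNat) * rf y A1 := by
    ext i j
    rw [lf_mul_rf]
    have : (A i j : ℤ) = ((x i).toNat : ℤ) * y j + A1 i j := by rw [hA1' i j]; ring
    exact_mod_cast this
  have e2 : B = lf (fun i => (-x i).toNat) * rf y A1 := by
    ext i j
    rw [lf_mul_rf]
    have : (B i j : ℤ) = ((-x i).toNat : ℤ) * y j + A1 i j := by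
      rw [hA1' i j, hB i j]
      have := hx i
      generalize ((x i).toNat : ℤ) = a at *
      generalize ((-x i).toNat : ℤ) = b at *
      rw [this]
      ring
    exact_mod_cast this
  rw [e1, e2]
  apply elim
  have key : ∀ (r : Fin n → ℕ), ∑ j, (r j : ℤ) * x j = 0 →
      ∑ j, r j * (x j).toNat = ∑ j, r j * (-x j).toNat := by
    intro r hr
    have h1 : ∑ j, (r j : ℤ) * ((x j).toNat : ℤ) - ∑ j, (r j : ℤ) * ((-x j).toNat : ℤ) = 0 := by
      rw [← Finset.sum_sub_distrib, ← hr]
      apply Finset.sum_congr rfl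
      intro j _
      have := hx j
      generalize ((x j).toNat : ℤ) = a at *
      generalize ((-x j).toNat : ℤ) = b at *
      rw [this]
      ring
    have h2 : ∑ j, (r j : ℤ) * ((x j).toNat : ℤ) = ∑ j, (r j : ℤ) * ((-x j).toNat : ℤ) := by
      linarith
    exact_mod_cast h2
  ext a b
  rw [Matrix.mul_apply, Matrix.mul_apply]
  refine Fin.cases ?_ (fun l => ?_) b
  · refine Fin.cases ?_ (fun t => ?_) a
    · simpa [lf, rf] using key y hy
    · have h3 : ∑ j, (A1 t j : ℤ) * x j = 0 := by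
        have : ∑ j, (A1 t j : ℤ) * x j
            = ∑ j, (A t j : ℤ) * x j - ((x t).toNat : ℤ) * ∑ j, (y j : ℤ) * x j := by
          rw [Finset.mul_sum, ← Finset.sum_sub_distrib]
          apply Finset.sum_congr rfl
          intro j _
          rw [hA1' t j]
          ring
        rw [this, hA t, hy]
        simp
      simpa [lf, rf] using key (fun j => A1 t j) h3
  · simp [lf]

/-- Rank one matrices. -/
theorem rank_one (A : Matrix (Fin n) (Fin n) ℕ) (p q : Fin n → ℕ) (h : ∀ i j, A i j = p i * q j) :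
    SSE A (full (∑ i, q i * p i)) := by
  refine SSE.of_elem (Matrix.of fun i _ => p i) (Matrix.of fun _ j => q j) ?_ ?_
  · ext i j
    rw [Matrix.mul_apply]
    simp [h i j]
  · ext i j
    rw [Matrix.mul_apply]
    have hi : i = 0 := Subsingleton.elim _ _
    have hj : j = 0 := Subsingleton.elim _ _
    subst hi hj
    simp [full]

end Pool.Agent.H73LP
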