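import Pool.Agent.H73LP.IntMain

/-!
# Uniform integer version; polynomials
-/

set_option autoImplicit false
set_option linter.unusedSectionVars false

namespace Pool.Agent.H73LP

open Matrix Pool.Agent.H73AM

/-- The property of the main theorem. -/
def Good {n m : ℕ} (A : Matrix (Fin n) (Fin n) ℤ) (B : Matrix (Fin m) (Fin m) ℤ)
    (S : Matrix (Fin m) (Fin n) ℕ) (W : Matrix (Fin n) (Fin m) ℕ) : Prop :=
  ∃ (A' : Matrix (Fin n) (Fin n) ℕ) (B' : Matrix (Fin m) (Fin m) ℕ),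
    toZ A' = A + toZ (W * S) ∧ toZ B' = B + toZ (S * W) ∧ Realised A' B' S

theorem mainZ_uniform (n m l M : ℕ) (hl : 1 ≤ l) : ∃ K : ℕ,
    ∀ (A : Matrix (Fin n) (Fin n) ℤ) (B : Matrix (Fin m) (Fin m) ℤ)
      (R : Matrix (Fin n) (Fin m) ℤ) (S : Matrix (Fin m) (Fin n) ℕ)
      (W : Matrix (Fin n) (Fin m) ℕ),
      (∀ i j, |A i j| ≤ M) → (∀ i j, |B i j| ≤ M) → (∀ i j, |R i j| ≤ M) →
      (∀ i j, S i j ≤ M) → A ^ l = R * toZ S → B ^ l = toZ S * R → toZ S * A = B * toZ S →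
      (∀ j, ∃ i, S i j ≠ 0) → (∀ i, ∃ j, S i j ≠ 0) → (∀ i j, K ≤ W i j) → Good A B S W := by
  classical
  have hK : ∀ q : (Fin n → Fin n → ℤ) × (Fin m → Fin m → ℤ) × (Fin n → Fin m → ℤ) ×
      (Fin m → Fin n → ℕ), ∃ K : ℕ,
      (Matrix.of q.1 : Matrix (Fin n) (Fin n) ℤ) ^ l
        = (Matrix.of q.2.2.1 : Matrix (Fin n) (Fin m) ℤ) * toZ (Matrix.of q.2.2.2) →
      (Matrix.of q.2.1 : Matrix (Fin m) (Fin m) ℤ) ^ l
        = toZ (Matrix.of q.2.2.2) * (Matrix.of q.2.2.1 : Matrix (Fin n) (Fin m) ℤ) →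
      toZ (Matrix.of q.2.2.2) * Matrix.of q.1
        = (Matrix.of q.2.1 : Matrix (Fin m) (Fin m) ℤ) * toZ (Matrix.of q.2.2.2) →
      ColOK (Matrix.of q.2.2.2) → RowOK (Matrix.of q.2.2.2) →
      ∀ W : Matrix (Fin n) (Fin m) ℕ, (∀ i j, K ≤ W i j) →
      Good (Matrix.of q.1) (Matrix.of q.2.1) (Matrix.of q.2.2.2) W := by
    rintro ⟨a, b, r, s⟩
    by_cases h : ((Matrix.of a : Matrix (Fin n) (Fin n) ℤ) ^ l
        = (Matrix.of r : Matrix (Fin n) (Fin m) ℤ) * toZ (Matrix.of s)) ∧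
      ((Matrix.of b : Matrix (Fin m) (Fin m) ℤ) ^ l
        = toZ (Matrix.of s) * (Matrix.of r : Matrix (Fin n) (Fin m) ℤ)) ∧
      (toZ (Matrix.of s) * Matrix.of a
        = (Matrix.of b : Matrix (Fin m) (Fin m) ℤ) * toZ (Matrix.of s)) ∧
      ColOK (Matrix.of s) ∧ RowOK (Matrix.of s)
    · obtain ⟨h1, h2, h3, h4, h5⟩ := h
      obtain ⟨K, hK⟩ := mainZ_fin hl (Matrix.of a) (Matrix.of b) (Matrix.of r) (Matrix.of s)
        h1 h2 h3 h4 h5
      exact ⟨K, fun _ _ _ _ _ => hK⟩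
    · exact ⟨0, fun h1 h2 h3 h4 h5 => absurd ⟨h1, h2, h3, h4, h5⟩ h⟩
  choose K hK using hK
  have hfin : ((Set.Icc (fun _ _ => -(M : ℤ) : Fin n → Fin n → ℤ) (fun _ _ => (M : ℤ))) ×ˢ
      ((Set.Icc (fun _ _ => -(M : ℤ) : Fin m → Fin m → ℤ) (fun _ _ => (M : ℤ))) ×ˢ
      ((Set.Icc (fun _ _ => -(M : ℤ) : Fin n → Fin m → ℤ) (fun _ _ => (M : ℤ))) ×ˢ
      (Set.Icc (fun _ _ => 0 : Fin m → Fin n → ℕ) (fun _ _ => M))))).Finite :=
    (Set.finite_Icc _ _).prod ((Set.finite_Icc _ _).prod ((Set.finite_Icc _ _).prod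
      (Set.finite_Icc _ _)))
  obtain ⟨K1, hK1⟩ := (hfin.image K).bddAbove
  refine ⟨K1, fun A B R S W hA hB hR hS h1 h2 h3 h4 h5 hW => ?_⟩
  have hq : K (A, B, R, S) ≤ K1 := by
    apply hK1
    refine ⟨(A, B, R, S), ⟨⟨fun i j => (abs_le.1 (hA i j)).1, fun i j => (abs_le.1 (hA i j)).2⟩,
      ⟨fun i j => (abs_le.1 (hB i j)).1, fun i j => (abs_le.1 (hB i j)).2⟩,
      ⟨fun i j => (abs_le.1 (hR i j)).1, fun i j => (abs_le.1 (hR i j)).2⟩,
      ⟨fun i j => Nat.zero_le _, fun i j => hS i j⟩⟩, rfl⟩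
  exact hK (A, B, R, S) h1 h2 h3 h4 h5 W (fun i j => hq.trans (hW i j))

section poly

open Polynomial

variable {n m : ℕ}

/-- **Polynomials in shift equivalent matrices.** -/
theorem poly3 {A : Matrix (Fin n) (Fin n) ℕ} {B : Matrix (Fin m) (Fin m) ℕ} {l : ℕ}
    (hl : 1 ≤ l) (R : Matrix (Fin n) (Fin m) ℕ) (S : Matrix (Fin m) (Fin n) ℕ)
    (h1 : A ^ l = R * S) (h2 : B ^ l = S * R) (h4 : S * A = B * S)
    (hA : ColOK A) (hBc : ColOK B) (hBr : RowOK B) (f : ℕ[X]) (hf : X ∣ f) :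
    ∃ K : ℕ, ∀ q : ℕ[X], (∀ i j, K ≤ (R * aeval B q) i j) →
      Realised (aeval A (f + X ^ l * q)) (aeval B (f + X ^ l * q)) S := by
  have e4 : ∀ q : ℕ[X], R * aeval B q * S = aeval A (X ^ l * q) := by
    intro q
    rw [Matrix.mul_assoc, ← inter_poly h4, ← Matrix.mul_assoc, ← h1, map_mul, map_pow, aeval_X]
  have e5 : ∀ q : ℕ[X], S * (R * aeval B q) = aeval B (X ^ l * q) := by
    intro q
    rw [← Matrix.mul_assoc, ← h2, map_mul, map_pow, aeval_X]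
  by_cases hf0 : f = 0
  · refine ⟨0, fun q _ => ?_⟩
    rw [hf0, zero_add]
    refine ⟨R * aeval B q, ?_, 1, 0, ?_⟩
    · rw [← e4, ← e5]
      exact Chain.one _ _
    · rw [pow_zero, pow_one, Matrix.one_mul, e5]
  · obtain ⟨f1, rfl⟩ := hf
    have e1 : (aeval A (X * f1)) ^ l = (R * (aeval B f1) ^ l) * S := by
      rw [← map_pow, mul_pow, map_mul, map_pow, aeval_X, h1, Matrix.mul_assoc,
        inter_poly h4, map_pow, Matrix.mul_assoc]
    have e2 : (aeval B (X * f1)) ^ l = S * (R * (aeval B f1) ^ l) := by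
      rw [← map_pow, mul_pow, map_mul, map_pow, aeval_X, h2, Matrix.mul_assoc, map_pow]
    have e3 : S * aeval A (X * f1) = aeval B (X * f1) * S := inter_poly h4 _
    obtain ⟨K, hK⟩ := main2 hl (aeval A (X * f1)) (aeval B (X * f1)) (R * (aeval B f1) ^ l) S
      e1 e2 e3 (ge_of_poly_col hA hf0) (ge_of_poly_col hBc hf0) (ge_of_poly_row hBr hf0)
    refine ⟨K, fun q hq => ?_⟩
    have h5 := hK (R * aeval B q) hq
    rw [e4, e5, ← map_add, ← map_add] at h5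
    exact h5

end poly

end Pool.Agent.H73LP
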