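import Mathlib

/-!
# Reduction of the rank of a nilpotent integer matrix
-/

set_option autoImplicit false

namespace Pool.Agent.H73LP

open Matrix

variable {n : ℕ}

/-- The rank over `ℚ` of an integer matrix. -/
noncomputable def rk (N : Matrix (Fin n) (Fin n) ℤ) : ℕ :=
  (N.map (Int.castRingHom ℚ)).rank

/-- A nonzero integer vector is a positive multiple of a vector with a Bezout functional. -/
theorem prim_vec (z : Fin n → ℤ) (hz : z ≠ 0) :
    ∃ (g : ℤ) (x φ : Fin n → ℤ), g ≠ 0 ∧ (∀ i, z i = g * x i) ∧ ∑ i, φ i * x i = 1 := by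
  classical
  have hne : (Finset.univ : Finset (Fin n)).Nonempty := by
    obtain ⟨i, _⟩ := Function.ne_iff.1 hz
    exact ⟨i, Finset.mem_univ i⟩
  obtain ⟨x, h1, h2⟩ := Finset.extract_gcd (s := Finset.univ) z hne
  obtain ⟨φ, h3⟩ := Finset.gcd_eq_sum_mul Finset.univ x
  refine ⟨Finset.univ.gcd z, x, φ, ?_, fun i => h1 i (Finset.mem_univ i), ?_⟩
  · intro h0
    apply hz
    ext i
    exact (Finset.gcd_eq_zero_iff.1 h0) i (Finset.mem_univ i)
  · rw [← h2, h3]
    exact Finset.sum_congr rfl fun i _ => mul_comm _ _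

/-- The rank of `P N` is smaller than that of `N` if `P` kills a nonzero vector of the image. -/
theorem rank_lt (P N : Matrix (Fin n) (Fin n) ℚ) (w : Fin n → ℚ) (h1 : N.mulVec w ≠ 0)
    (h2 : P.mulVec (N.mulVec w) = 0) : (P * N).rank < N.rank := by
  have e1 : (P * N).rank = Module.finrank ℚ (LinearMap.range ((P.mulVecLin).domRestrict
      (LinearMap.range N.mulVecLin))) := by
    rw [Matrix.rank, Matrix.mulVecLin_mul, LinearMap.range_domRestrict, LinearMap.range_comp]
  have e2 := LinearMap.finrank_range_add_finrank_ker ((P.mulVecLin).domRestrict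
      (LinearMap.range N.mulVecLin))
  have e3 : 0 < Module.finrank ℚ (LinearMap.ker ((P.mulVecLin).domRestrict
      (LinearMap.range N.mulVecLin))) := by
    rw [Nat.pos_iff_ne_zero]
    intro h0
    rw [Submodule.finrank_eq_zero] at h0
    have h3 : (⟨N.mulVec w, ⟨w, rfl⟩⟩ : LinearMap.range N.mulVecLin) ∈
        LinearMap.ker ((P.mulVecLin).domRestrict (LinearMap.range N.mulVecLin)) := by
      rw [LinearMap.mem_ker]
      exact h2
    rw [h0, Submodule.mem_bot] at h3
    apply h1
    exact congrArg Subtype.val h3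
  rw [e1]
  have e4 : N.rank = Module.finrank ℚ (LinearMap.range N.mulVecLin) := rfl
  omega

/-- One step of the reduction. -/
theorem step (N : Matrix (Fin n) (Fin n) ℤ) (h0 : N ≠ 0) (hN : IsNilpotent N) :
    ∃ (x y : Fin n → ℤ) (N' : Matrix (Fin n) (Fin n) ℤ),
      (∀ i j, N' i j = N i j - x i * y j) ∧ IsNilpotent N' ∧ rk N' < rk N ∧
      (∀ i, ∑ j, N i j * x j = 0) ∧ (∑ j, y j * x j = 0) ∧
      (∀ q : Fin n → ℤ, (∀ j, ∑ i, q i * N i j = 0) →
        ∑ i, q i * x i = 0 ∧ ∀ j, ∑ i, q i * N' i j = 0) := by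
  classical
  -- the last nonzero power
  obtain ⟨m, hm1, hm2⟩ : ∃ m, N ^ (m + 1) ≠ 0 ∧ N ^ (m + 2) = 0 := by
    have hex : ∃ l, N ^ l = 0 := hN
    have hl := Nat.find_spec hex
    have hmin : ∀ l, l < Nat.find hex → N ^ l ≠ 0 := fun l h => Nat.find_min hex h
    have h2 : 2 ≤ Nat.find hex := by
      by_contra hcon
      push Not at hcon
      rcases Nat.lt_succ_iff.1 hcon |>.lt_or_eq with h | h
      · have h3 : Nat.find hex = 0 := by omega
        rw [h3, pow_zero] at hl
        apply h0
        rw [← mul_one N, hl, mul_zero]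
      · rw [h, pow_one] at hl
        exact h0 hl
    obtain ⟨m, hm⟩ := Nat.exists_eq_add_of_le h2
    refine ⟨m, hmin _ (by omega), ?_⟩
    rw [show m + 2 = Nat.find hex by omega]
    exact hl
  obtain ⟨i0, j0, hij⟩ : ∃ i j, (N ^ (m + 1)) i j ≠ 0 := by
    by_contra hcon
    push Not at hcon
    exact hm1 (Matrix.ext hcon)
  set w : Fin n → ℤ := fun i => (N ^ m) i j0 with hw
  set z : Fin n → ℤ := N.mulVec w with hz
  have hz1 : ∀ i, z i = (N ^ (m + 1)) i j0 := by
    intro i
    rw [hz, pow_succ', Matrix.mul_apply]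
    rfl
  have hz0 : z ≠ 0 := by
    intro h
    apply hij
    rw [← hz1, h]
    rfl
  have hNz : N.mulVec z = 0 := by
    ext i
    have : (N.mulVec z) i = (N ^ (m + 2)) i j0 := by
      rw [pow_succ' N (m + 1), Matrix.mul_apply]
      simp only [Matrix.mulVec, dotProduct]
      apply Finset.sum_congr rfl
      intro j _
      have h5 : (N.mulVec w) j = (N ^ (m + 1)) j j0 := hz1 j
      exact congrArg (fun t => N i j * t) h5
    rw [this, hm2]
    rfl
  obtain ⟨g, x, φ, hg, hzx, hφ⟩ := prim_vec z hz0
  have hNx : N.mulVec x = 0 := by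
    have h1 : g • N.mulVec x = 0 := by
      rw [← Matrix.mulVec_smul, ← hNz]
      congr 1
      ext i
      rw [hzx i]
      rfl
    exact (smul_eq_zero.1 h1).resolve_left hg
  -- the projection
  set P : Matrix (Fin n) (Fin n) ℤ := 1 - Matrix.vecMulVec x φ with hP
  have hNP : N * P = N := by
    rw [hP, Matrix.mul_sub, Matrix.mul_one, Matrix.mul_vecMulVec, hNx]
    ext i j
    simp
  have hPx : P.mulVec x = 0 := by
    rw [hP, Matrix.sub_mulVec, Matrix.one_mulVec, Matrix.vecMulVec_mulVec]
    ext i
    have : φ ⬝ᵥ x = 1 := hφ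
    simp [this]
  set y : Fin n → ℤ := fun j => ∑ i, φ i * N i j with hy
  have hN' : ∀ i j, (P * N) i j = N i j - x i * y j := by
    intro i j
    rw [hP, Matrix.sub_mul, Matrix.one_mul, Matrix.sub_apply, Matrix.mul_apply]
    congr 1
    rw [hy, Finset.mul_sum]
    apply Finset.sum_congr rfl
    intro t _
    rw [Matrix.vecMulVec_apply]
    ring
  refine ⟨x, y, P * N, hN', ?_, ?_, ?_, ?_, ?_⟩
  · refine ⟨m + 2, ?_⟩
    have : ∀ t, (P * N) ^ (t + 1) = P * N ^ (t + 1) := by
      intro t
      induction t with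
      | zero => simp
      | succ t ih =>
        rw [pow_succ, ih, pow_succ N (t + 1)]
        calc P * N ^ (t + 1) * (P * N) = P * (N ^ t * (N * P) * N) := by
              rw [pow_succ]; noncomm_ring
          _ = P * (N ^ (t + 1) * N) := by rw [hNP, pow_succ]
    rw [this (m + 1), hm2, mul_zero]
  · have hc : rk (P * N) = ((P.map (Int.castRingHom ℚ)) * (N.map (Int.castRingHom ℚ))).rank := by
      rw [rk, Matrix.map_mul]
    rw [hc]
    apply rank_lt _ _ (fun i => ((w i : ℤ) : ℚ))
    · have h1 : (N.map (Int.castRingHom ℚ)).mulVec (fun i => ((w i : ℤ) : ℚ))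
          = fun i => ((z i : ℤ) : ℚ) := by
        ext i
        simp [hz, Matrix.mulVec, dotProduct]
      rw [h1]
      intro h
      apply hz0
      ext i
      have := congrFun h i
      simpa using this
    · have h1 : (N.map (Int.castRingHom ℚ)).mulVec (fun i => ((w i : ℤ) : ℚ))
          = fun i => ((z i : ℤ) : ℚ) := by
        ext i
        simp [hz, Matrix.mulVec, dotProduct]
      rw [h1]
      ext i
      have h2 : (P.mulVec z) i = 0 := by
        have : z = g • x := by
          ext i
          rw [hzx i]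
          rfl
        rw [this, Matrix.mulVec_smul, hPx]
        simp
      have h3 : ((P.mulVec z i : ℤ) : ℚ) = 0 := by rw [h2]; simp
      simpa [Matrix.mulVec, dotProduct] using h3
  · intro i
    exact congrFun hNx i
  · have h1 : ∑ j, y j * x j = ∑ i, φ i * (N.mulVec x) i := by
      simp only [hy, Matrix.mulVec, dotProduct, Finset.sum_mul, Finset.mul_sum]
      rw [Finset.sum_comm]
      apply Finset.sum_congr rfl
      intro i _
      apply Finset.sum_congr rfl
      intro j _
      ring
    rw [h1, hNx]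
    simp
  · intro q hq
    have h1 : g * ∑ i, q i * x i = 0 := by
      have : g * ∑ i, q i * x i = ∑ j, (∑ i, q i * N i j) * w j := by
        rw [Finset.mul_sum]
        have h2 : ∀ i, g * (q i * x i) = ∑ j, q i * N i j * w j := by
          intro i
          have h3 : z i = ∑ j, N i j * w j := rfl
          have : g * (q i * x i) = q i * z i := by rw [hzx i]; ring
          rw [this, h3, Finset.mul_sum]
          apply Finset.sum_congr rfl
          intro j _
          ring
        rw [Finset.sum_congr rfl (fun i _ => h2 i), Finset.sum_comm]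
        apply Finset.sum_congr rfl
        intro j _
        rw [Finset.sum_mul]
      rw [this]
      apply Finset.sum_eq_zero
      intro j _
      rw [hq j, zero_mul]
    have h2 : ∑ i, q i * x i = 0 := (mul_eq_zero.1 h1).resolve_left hg
    refine ⟨h2, fun j => ?_⟩
    have : ∑ i, q i * (P * N) i j = ∑ i, q i * N i j - (∑ i, q i * x i) * y j := by
      rw [Finset.sum_mul, ← Finset.sum_sub_distrib]
      apply Finset.sum_congr rfl
      intro i _
      rw [hN' i j]
      ring
    rw [this, hq j, h2]
    simp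

end Pool.Agent.H73LP
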