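import Pool.Agent.H73LP.Elim
import Pool.Agent.H73LP.Nil

/-!
# Strong shift equivalence of nonnegative integer matrices with arbitrary index types
-/

set_option autoImplicit false

namespace Pool.Agent.H73LP

open Matrix Pool.Agent.H73AM

/-- Strong shift equivalence over `ℕ` of matrices over `ℤ` with nonnegative entries, indexed by
arbitrary finite types. -/
def ZS {ι κ : Type} [Fintype ι] [Fintype κ] (D : Matrix ι ι ℤ) (D' : Matrix κ κ ℤ) : Prop :=
  ∃ (n m : ℕ) (e : ι ≃ Fin n) (f : κ ≃ Fin m) (A : Matrix (Fin n) (Fin n) ℕ)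
    (B : Matrix (Fin m) (Fin m) ℕ), (∀ i j, D i j = A (e i) (e j)) ∧
    (∀ i j, D' i j = B (f i) (f j)) ∧ SSE A B

section basic

variable {ι κ μ : Type} [Fintype ι] [Fintype κ] [Fintype μ] [DecidableEq ι] [DecidableEq κ]
  [DecidableEq μ]

theorem ZS.trans {A : Matrix ι ι ℤ} {B : Matrix κ κ ℤ} {C : Matrix μ μ ℤ} (h1 : ZS A B)
    (h2 : ZS B C) : ZS A C := by
  obtain ⟨n, m, e, f, A1, B1, hA, hB, hS⟩ := h1
  obtain ⟨m', p, f', g, B2, C2, hB', hC, hS'⟩ := h2
  have hm : m = m' := by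
    have h3 := Fintype.card_congr f
    have h4 := Fintype.card_congr f'
    simp only [Fintype.card_fin] at h3 h4
    omega
  subst hm
  refine ⟨n, p, e, g, A1, C2, hA, hC, hS.trans (SSE.trans ?_ hS')⟩
  refine SSE.of_perm (f'.symm.trans f) fun i j => ?_
  have h3 := hB (f'.symm i) (f'.symm j)
  have h4 := hB' (f'.symm i) (f'.symm j)
  rw [h3] at h4
  simp only [Equiv.apply_symm_apply] at h4
  exact_mod_cast h4

theorem ZS.symm {A : Matrix ι ι ℤ} {B : Matrix κ κ ℤ} (h1 : ZS A B) : ZS B A := by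
  obtain ⟨n, m, e, f, A1, B1, hA, hB, hS⟩ := h1
  exact ⟨m, n, f, e, B1, A1, hB, hA, hS.symm⟩

theorem ZS.refl {A : Matrix ι ι ℤ} (h : ∀ i j, 0 ≤ A i j) : ZS A A := by
  let e := Fintype.equivFin ι
  refine ⟨_, _, e, e, Matrix.of fun i j => (A (e.symm i) (e.symm j)).toNat,
    Matrix.of fun i j => (A (e.symm i) (e.symm j)).toNat, ?_, ?_, SSE.refl _⟩
  · intro i j
    simp only [Matrix.of_apply, Equiv.symm_apply_apply]
    rw [Int.toNat_of_nonneg (h i j)]
  · intro i j
    simp only [Matrix.of_apply, Equiv.symm_apply_apply]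
    rw [Int.toNat_of_nonneg (h i j)]

/-- An elementary equivalence. -/
theorem ZS.elem (R : Matrix ι κ ℤ) (S : Matrix κ ι ℤ) (hR : ∀ i a, 0 ≤ R i a)
    (hS : ∀ a i, 0 ≤ S a i) : ZS (R * S) (S * R) := by
  let e := Fintype.equivFin ι
  let f := Fintype.equivFin κ
  refine ⟨_, _, e, f, (Matrix.of fun i a => (R (e.symm i) (f.symm a)).toNat) *
      (Matrix.of fun a i => (S (f.symm a) (e.symm i)).toNat),
    (Matrix.of fun a i => (S (f.symm a) (e.symm i)).toNat) *
      (Matrix.of fun i a => (R (e.symm i) (f.symm a)).toNat), ?_, ?_, SSE.of_elem _ _ rfl rfl⟩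
  · intro i j
    rw [Matrix.mul_apply, Matrix.mul_apply]
    push_cast
    rw [← Equiv.sum_comp f]
    apply Finset.sum_congr rfl
    intro a _
    simp only [Matrix.of_apply, Equiv.symm_apply_apply]
    rw [Int.toNat_of_nonneg (hR i a), Int.toNat_of_nonneg (hS a j)]
  · intro a b
    rw [Matrix.mul_apply, Matrix.mul_apply]
    push_cast
    rw [← Equiv.sum_comp e]
    apply Finset.sum_congr rfl
    intro i _
    simp only [Matrix.of_apply, Equiv.symm_apply_apply]
    rw [Int.toNat_of_nonneg (hR i b), Int.toNat_of_nonneg (hS a i)]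

/-- Elimination. -/
theorem ZS.elim (D : Matrix ι ι ℤ) (x y : ι → ℤ) (hD : ∀ i j, 0 ≤ D i j) (hy : ∀ j, 0 ≤ y j)
    (hDx : D.mulVec x = 0) (hyx : y ⬝ᵥ x = 0) (hD' : ∀ i j, 0 ≤ D i j - x i * y j) :
    ZS D (D - Matrix.vecMulVec x y) := by
  let e := Fintype.equivFin ι
  refine ⟨_, _, e, e, Matrix.of fun i j => (D (e.symm i) (e.symm j)).toNat,
    Matrix.of fun i j => (D (e.symm i) (e.symm j) - x (e.symm i) * y (e.symm j)).toNat,
    ?_, ?_, ?_⟩
  · intro i j
    simp only [Matrix.of_apply, Equiv.symm_apply_apply]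
    rw [Int.toNat_of_nonneg (hD i j)]
  · intro i j
    simp only [Matrix.of_apply, Equiv.symm_apply_apply]
    rw [Int.toNat_of_nonneg (hD' i j), Matrix.sub_apply, Matrix.vecMulVec_apply]
  · apply elim_vec _ _ (fun i => x (e.symm i)) (fun i => (y (e.symm i)).toNat)
    · intro i
      have h1 := congrFun hDx (e.symm i)
      simp only [Matrix.mulVec, dotProduct, Pi.zero_apply] at h1
      rw [← h1, ← Equiv.sum_comp e]
      apply Finset.sum_congr rfl
      intro j _
      simp only [Matrix.of_apply, Equiv.symm_apply_apply]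
      rw [Int.toNat_of_nonneg (hD _ _)]
    · simp only [dotProduct] at hyx
      rw [← hyx, ← Equiv.sum_comp e]
      apply Finset.sum_congr rfl
      intro j _
      simp only [Equiv.symm_apply_apply]
      rw [Int.toNat_of_nonneg (hy _)]
    · intro i j
      simp only [Matrix.of_apply]
      rw [Int.toNat_of_nonneg (hD' _ _), Int.toNat_of_nonneg (hD _ _),
        Int.toNat_of_nonneg (hy _)]

end basic

end Pool.Agent.H73LP
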