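import Pool.Agent.H73LP.Lift
import Pool.Agent.H73LP.ChainDef

/-!
# Chains of elementary equivalences and the isomorphism they induce
-/

set_option autoImplicit false
set_option linter.unusedSectionVars false

namespace Pool.Agent.H73LP

open Matrix Pool.Agent.H73AM

theorem Chain.trans {n m p : ℕ} {A : Matrix (Fin n) (Fin n) ℕ} {B : Matrix (Fin m) (Fin m) ℕ}
    {C : Matrix (Fin p) (Fin p) ℕ} {P : Matrix (Fin n) (Fin m) ℕ} {Q : Matrix (Fin m) (Fin p) ℕ}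
    (h1 : Chain A B P) (h2 : Chain B C Q) : Chain A C (P * Q) := by
  induction h1 with
  | one R S => exact Chain.cons R S C Q h2
  | cons R S C' P' _ ih =>
    rw [Matrix.mul_assoc]
    exact Chain.cons R S C _ (ih h2)

theorem Chain.inter {n m : ℕ} {A : Matrix (Fin n) (Fin n) ℕ} {B : Matrix (Fin m) (Fin m) ℕ}
    {P : Matrix (Fin n) (Fin m) ℕ} (h : Chain A B P) : A * P = P * B := by
  induction h with
  | one R S => rw [Matrix.mul_assoc]
  | cons R S C P _ ih => rw [Matrix.mul_assoc, ← Matrix.mul_assoc S, ih, Matrix.mul_assoc]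

theorem Chain.symm {n m : ℕ} {A : Matrix (Fin n) (Fin n) ℕ} {B : Matrix (Fin m) (Fin m) ℕ}
    {P : Matrix (Fin n) (Fin m) ℕ} (h : Chain A B P) :
    ∃ (Q : Matrix (Fin m) (Fin n) ℕ) (k : ℕ), Chain B A Q ∧ P * Q = A ^ k ∧ Q * P = B ^ k := by
  induction h with
  | one R S => exact ⟨S, 1, Chain.one S R, by rw [pow_one], by rw [pow_one]⟩
  | cons R S C P hc ih =>
    obtain ⟨Q, k, h1, h2, h3⟩ := ih
    refine ⟨Q * S, k + 1, h1.trans (Chain.one S R), ?_, ?_⟩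
    · rw [Matrix.mul_assoc, ← Matrix.mul_assoc P, h2]
      have : ∀ k : ℕ, R * ((S * R) ^ k * S) = (R * S) ^ (k + 1) := by
        intro k
        induction k with
        | zero => simp
        | succ k ih =>
          rw [pow_succ', pow_succ' (R * S) (k + 1), ← ih]
          simp only [Matrix.mul_assoc]
      exact this k
    · rw [Matrix.mul_assoc, ← Matrix.mul_assoc S, hc.inter, ← Matrix.mul_assoc, h3, ← pow_succ]

theorem Chain.sse {n m : ℕ} {A : Matrix (Fin n) (Fin n) ℕ} {B : Matrix (Fin m) (Fin m) ℕ}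
    {P : Matrix (Fin n) (Fin m) ℕ} (h : Chain A B P) : SSE A B := by
  induction h with
  | one R S => exact SSE.of_elem R S rfl rfl
  | cons R S C P _ ih => exact (SSE.of_elem R S rfl rfl).trans ih

section rI

variable {ι κ μ : Type} [Fintype ι] [Fintype κ] [Fintype μ] [DecidableEq ι] [DecidableEq κ]
  [DecidableEq μ]

/-- The matrix over `ℕ`, indexed by `Fin`, of a nonnegative integer matrix. -/
noncomputable def rI (D : Matrix ι κ ℤ) :
    Matrix (Fin (Fintype.card ι)) (Fin (Fintype.card κ)) ℕ :=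
  Matrix.of fun i j => (D ((Fintype.equivFin ι).symm i) ((Fintype.equivFin κ).symm j)).toNat

theorem rI_mul {R : Matrix ι κ ℤ} {S : Matrix κ μ ℤ} (hR : ∀ i j, 0 ≤ R i j)
    (hS : ∀ i j, 0 ≤ S i j) : rI (R * S) = rI R * rI S := by
  ext i j
  rw [Matrix.mul_apply]
  simp only [rI, Matrix.of_apply]
  zify
  rw [Int.toNat_of_nonneg (by
    rw [Matrix.mul_apply]
    exact Finset.sum_nonneg fun k _ => mul_nonneg (hR _ k) (hS k _)), Matrix.mul_apply,
    ← Equiv.sum_comp (Fintype.equivFin κ).symm]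
  apply Finset.sum_congr rfl
  intro k _
  rw [Int.toNat_of_nonneg (hR _ _), Int.toNat_of_nonneg (hS _ _)]

theorem rI_inj {R S : Matrix ι κ ℤ} (hR : ∀ i j, 0 ≤ R i j) (hS : ∀ i j, 0 ≤ S i j)
    (h : rI R = rI S) : R = S := by
  ext i j
  have h1 := congrFun (congrFun h (Fintype.equivFin ι i)) (Fintype.equivFin κ j)
  simp only [rI, Matrix.of_apply, Equiv.symm_apply_apply] at h1
  have h2 : ((R i j).toNat : ℤ) = ((S i j).toNat : ℤ) := by rw [h1]
  rwa [Int.toNat_of_nonneg (hR i j), Int.toNat_of_nonneg (hS i j)] at h2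

theorem rI_one : rI (1 : Matrix ι ι ℤ) = 1 := by
  ext i j
  simp only [rI, Matrix.of_apply, Matrix.one_apply, EmbeddingLike.apply_eq_iff_eq]
  split_ifs <;> simp

/-- Chains of nonnegative integer matrices with arbitrary index types. -/
def ZC (D : Matrix ι ι ℤ) (D' : Matrix κ κ ℤ) (P : Matrix ι κ ℤ) : Prop :=
  (∀ i j, 0 ≤ D i j) ∧ (∀ i j, 0 ≤ D' i j) ∧ (∀ i j, 0 ≤ P i j) ∧ Chain (rI D) (rI D') (rI P)

theorem mul_nonneg'' {R : Matrix ι κ ℤ} {S : Matrix κ μ ℤ} (hR : ∀ i j, 0 ≤ R i j)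
    (hS : ∀ i j, 0 ≤ S i j) (i : ι) (j : μ) : 0 ≤ (R * S) i j := by
  rw [Matrix.mul_apply]
  exact Finset.sum_nonneg fun k _ => mul_nonneg (hR _ k) (hS k _)

theorem pow_nonneg'' {B : Matrix κ κ ℤ} (hB : ∀ i j, 0 ≤ B i j) (t : ℕ) :
    ∀ i j, 0 ≤ (B ^ t) i j := by
  induction t with
  | zero =>
    intro i j
    rw [pow_zero, Matrix.one_apply]
    split_ifs <;> simp
  | succ t ih =>
    intro i j
    rw [pow_succ]
    exact mul_nonneg'' ih hB i j

theorem rI_pow {B : Matrix κ κ ℤ} (hB : ∀ i j, 0 ≤ B i j) (t : ℕ) : rI (B ^ t) = rI B ^ t := by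
  induction t with
  | zero => rw [pow_zero, pow_zero, rI_one]
  | succ t ih => rw [pow_succ, pow_succ, rI_mul (pow_nonneg'' hB t) hB, ih]

theorem ZC.elem (R : Matrix ι κ ℤ) (S : Matrix κ ι ℤ) (hR : ∀ i a, 0 ≤ R i a)
    (hS : ∀ a i, 0 ≤ S a i) : ZC (R * S) (S * R) R := by
  refine ⟨mul_nonneg'' hR hS, mul_nonneg'' hS hR, hR, ?_⟩
  rw [rI_mul hR hS, rI_mul hS hR]
  exact Chain.one _ _

theorem ZC.trans {A : Matrix ι ι ℤ} {B : Matrix κ κ ℤ} {C : Matrix μ μ ℤ} {P : Matrix ι κ ℤ}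
    {Q : Matrix κ μ ℤ} (h1 : ZC A B P) (h2 : ZC B C Q) : ZC A C (P * Q) := by
  refine ⟨h1.1, h2.2.1, mul_nonneg'' h1.2.2.1 h2.2.2.1, ?_⟩
  rw [rI_mul h1.2.2.1 h2.2.2.1]
  exact h1.2.2.2.trans h2.2.2.2

theorem ZC.symm {A : Matrix ι ι ℤ} {B : Matrix κ κ ℤ} {P : Matrix ι κ ℤ} (h : ZC A B P) :
    ∃ (Q : Matrix κ ι ℤ) (k : ℕ), ZC B A Q ∧ P * Q = A ^ k ∧ Q * P = B ^ k := by
  obtain ⟨hA, hB, hP, hc⟩ := h
  obtain ⟨Q, k, h1, h2, h3⟩ := hc.symm
  set Q' : Matrix κ ι ℤ := Matrix.of fun i j =>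
    ((Q (Fintype.equivFin κ i) (Fintype.equivFin ι j) : ℕ) : ℤ) with hQ'
  have hQ0 : ∀ i j, 0 ≤ Q' i j := fun i j => Int.natCast_nonneg _
  have hQQ : rI Q' = Q := by
    ext i j
    simp [rI, hQ']
  refine ⟨Q', k, ⟨hB, hA, hQ0, by rw [hQQ]; exact h1⟩, ?_, ?_⟩
  · apply rI_inj (mul_nonneg'' hP hQ0) (pow_nonneg'' hA k)
    rw [rI_mul hP hQ0, hQQ, h2, rI_pow hA]
  · apply rI_inj (mul_nonneg'' hQ0 hP) (pow_nonneg'' hB k)
    rw [rI_mul hQ0 hP, hQQ, h3, rI_pow hB]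

theorem ZC.refl {A : Matrix ι ι ℤ} (h : ∀ i j, 0 ≤ A i j) : ZC A A 1 := by
  have h1 := ZC.elem (1 : Matrix ι ι ℤ) A (by
    intro i j
    rw [Matrix.one_apply]
    split_ifs <;> simp) h
  rwa [Matrix.one_mul, Matrix.mul_one] at h1

/-- Elimination; the chain has the product `D`. -/
theorem ZC.elim (D : Matrix ι ι ℤ) (x y : ι → ℤ) (hD : ∀ i j, 0 ≤ D i j) (hy : ∀ j, 0 ≤ y j)
    (hDx : D.mulVec x = 0) (hyx : y ⬝ᵥ x = 0) (hD' : ∀ i j, 0 ≤ D i j - x i * y j) :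
    ZC D (D - Matrix.vecMulVec x y) D := by
  set xp : ι → ℤ := fun i => max (x i) 0 with hxp
  set xm : ι → ℤ := fun i => max (-x i) 0 with hxm
  have hx : ∀ i, x i = xp i - xm i := by
    intro i
    simp only [hxp, hxm]
    rcases le_total (x i) 0 with h | h
    · rw [max_eq_right h, max_eq_left (by linarith)]; ring
    · rw [max_eq_left h, max_eq_right (by linarith)]; ring
  set R : Matrix ι (Unit ⊕ ι) ℤ := fromCols (Matrix.of fun i _ => xp i) 1 with hR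
  set R' : Matrix ι (Unit ⊕ ι) ℤ := fromCols (Matrix.of fun i _ => xm i) 1 with hR'
  set A1 : Matrix ι ι ℤ := D - Matrix.vecMulVec xp y with hA1
  set S : Matrix (Unit ⊕ ι) ι ℤ := fromRows (Matrix.of fun _ j => y j) A1 with hS
  have o1 : ∀ i j, 0 ≤ (1 : Matrix ι ι ℤ) i j := by
    intro i j
    rw [Matrix.one_apply]
    split_ifs <;> simp
  have hR0 : ∀ i j, 0 ≤ R i j := by
    intro i j
    cases j
    · exact le_max_right _ _
    · exact o1 _ _
  have hR'0 : ∀ i j, 0 ≤ R' i j := by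
    intro i j
    cases j
    · exact le_max_right _ _
    · exact o1 _ _
  have hS0 : ∀ i j, 0 ≤ S i j := by
    intro i j
    cases i with
    | inl u => exact hy j
    | inr i =>
      rw [hS, fromRows_apply_inr, hA1, Matrix.sub_apply, Matrix.vecMulVec_apply]
      simp only [hxp]
      rcases le_total (x i) 0 with h | h
      · rw [max_eq_right h, zero_mul, sub_zero]; exact hD i j
      · rw [max_eq_left h]; exact hD' i j
  have e1 : R * S = D := by
    rw [hR, hS, fromCols_mul_fromRows, Matrix.one_mul, hA1]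
    ext i j
    simp [Matrix.mul_apply, Matrix.vecMulVec_apply]
  have e2 : R' * S = D - Matrix.vecMulVec x y := by
    rw [hR', hS, fromCols_mul_fromRows, Matrix.one_mul, hA1]
    ext i j
    simp only [Matrix.add_apply, Matrix.mul_apply, Matrix.of_apply, Matrix.sub_apply,
      Matrix.vecMulVec_apply, Finset.univ_unique, Finset.sum_singleton]
    rw [hx i]
    ring
  have hA1x : A1.mulVec x = 0 := by
    rw [hA1, Matrix.sub_mulVec, hDx, Matrix.vecMulVec_mulVec, hyx]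
    ext i
    simp
  have hd : x = xp - xm := by
    ext i
    exact hx i
  have e3 : S * R = S * R' := by
    have k1 : A1.mulVec xp = A1.mulVec xm := by
      have := hA1x
      rw [hd, Matrix.mulVec_sub, sub_eq_zero] at this
      exact this
    have k2 : y ⬝ᵥ xp = y ⬝ᵥ xm := by
      have := hyx
      rw [hd, dotProduct_sub, sub_eq_zero] at this
      exact this
    rw [hR, hR', hS, fromRows_mul_fromCols, fromRows_mul_fromCols]
    congr 1
    · ext u v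
      exact k2
    · ext i v
      exact congrFun k1 i
  have s1 := ZC.elem R S hR0 hS0
  have s2 := ZC.elem S R' hS0 hR'0
  rw [← e3] at s2
  have s3 := s1.trans s2
  rw [e1, e2] at s3
  exact s3

/-- Chains which induce the identity with respect to `Z` and `Z'`. -/
def LZ (B : Matrix μ μ ℤ) (Z : Matrix μ ι ℤ) (Z' : Matrix μ κ ℤ) (D : Matrix ι ι ℤ)
    (D' : Matrix κ κ ℤ) : Prop :=
  ∃ P : Matrix ι κ ℤ, ZC D D' P ∧ ∃ a c : ℕ, B ^ c * (Z * P) = B ^ a * Z'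

end rI

section LZ

variable {ι κ ν μ : Type} [Fintype ι] [Fintype κ] [Fintype μ] [Fintype ν] [DecidableEq ι]
  [DecidableEq κ] [DecidableEq μ] [DecidableEq ν]
  {B : Matrix μ μ ℤ} {Z : Matrix μ ι ℤ} {Z' : Matrix μ κ ℤ} {Z'' : Matrix μ ν ℤ}

theorem LZ.trans {D : Matrix ι ι ℤ} {D' : Matrix κ κ ℤ} {D'' : Matrix ν ν ℤ}
    (h1 : LZ B Z Z' D D') (h2 : LZ B Z' Z'' D' D'') : LZ B Z Z'' D D'' := by
  obtain ⟨P, hP, a, c, e⟩ := h1
  obtain ⟨Q, hQ, a', c', e'⟩ := h2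
  refine ⟨P * Q, hP.trans hQ, a + a', c + c', ?_⟩
  calc B ^ (c + c') * (Z * (P * Q)) = B ^ c' * (B ^ c * (Z * P)) * Q := by
        rw [add_comm c c', pow_add]
        simp only [Matrix.mul_assoc]
    _ = B ^ a * (B ^ c' * (Z' * Q)) := by
        rw [e, ← Matrix.mul_assoc, ← pow_add, add_comm c' a, pow_add]
        simp only [Matrix.mul_assoc]
    _ = B ^ (a + a') * Z'' := by rw [e', ← Matrix.mul_assoc, ← pow_add]

theorem pow_inter {D : Matrix ι ι ℤ} (h : Z * D = B * Z) (k : ℕ) : Z * D ^ k = B ^ k * Z := by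
  induction k with
  | zero => simp
  | succ k ih => rw [pow_succ, ← Matrix.mul_assoc, ih, Matrix.mul_assoc, h, ← Matrix.mul_assoc,
      ← pow_succ]

theorem LZ.symm {D : Matrix ι ι ℤ} {D' : Matrix κ κ ℤ} (hD : Z * D = B * Z)
    (h : LZ B Z Z' D D') : LZ B Z' Z D' D := by
  obtain ⟨P, hP, a, c, e⟩ := h
  obtain ⟨Q, k, hQ, e1, e2⟩ := hP.symm
  refine ⟨Q, hQ, c + k, a, ?_⟩
  calc B ^ a * (Z' * Q) = (B ^ a * Z') * Q := by rw [Matrix.mul_assoc]
    _ = B ^ c * (Z * (P * Q)) := by rw [← e]; simp only [Matrix.mul_assoc]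
    _ = B ^ (c + k) * Z := by rw [e1, pow_inter hD, ← Matrix.mul_assoc, ← pow_add]

theorem LZ.refl {D : Matrix ι ι ℤ} (h : ∀ i j, 0 ≤ D i j) : LZ B Z Z D D :=
  ⟨1, ZC.refl h, 0, 0, by rw [Matrix.mul_one]⟩

theorem LZ.elim (D : Matrix ι ι ℤ) (x y : ι → ℤ) (hZD : Z * D = B * Z) (hD : ∀ i j, 0 ≤ D i j)
    (hy : ∀ j, 0 ≤ y j)
    (hDx : D.mulVec x = 0) (hyx : y ⬝ᵥ x = 0) (hD' : ∀ i j, 0 ≤ D i j - x i * y j) :
    LZ B Z Z D (D - Matrix.vecMulVec x y) :=
  ⟨D, ZC.elim D x y hD hy hDx hyx hD', 1, 0, by rw [pow_zero, Matrix.one_mul, pow_one, hZD]⟩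

end LZ

end Pool.Agent.H73LP
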