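import Pool.Agent.H73LP.Main2

/-!
# Shift equivalences over the integers
-/

set_option autoImplicit false
set_option linter.unusedSectionVars false

namespace Pool.Agent.H73LP

open Matrix Pool.Agent.H73AM

variable {ι κ : Type} [Fintype ι] [Fintype κ] [DecidableEq ι] [DecidableEq κ]

/-- The corrections of the powers. -/
def XX (A : Matrix ι ι ℤ) (B1 : Matrix κ κ ℤ) (W0 : Matrix ι κ ℤ) : ℕ → Matrix ι κ ℤ
  | 0 => 0
  | k + 1 => A ^ k * W0 + XX A B1 W0 k * B1

theorem S_mul_XX {A : Matrix ι ι ℤ} {B : Matrix κ κ ℤ} {S : Matrix κ ι ℤ} {W0 : Matrix ι κ ℤ}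
    (h3 : S * A = B * S) (k : ℕ) :
    S * XX A (B + S * W0) W0 k = (B + S * W0) ^ k - B ^ k := by
  induction k with
  | zero => simp [XX]
  | succ k ih =>
    have h4 : S * A ^ k = B ^ k * S := pow_inter h3 k
    rw [XX, Matrix.mul_add, ← Matrix.mul_assoc, h4, ← Matrix.mul_assoc, ih, Matrix.sub_mul,
      pow_succ, pow_succ B k, Matrix.mul_add, Matrix.mul_assoc]
    abel_nf
    rw [Matrix.mul_add]
    abel

theorem mainZ (A : Matrix ι ι ℤ) (B : Matrix κ κ ℤ) (R : Matrix ι κ ℤ) (S : Matrix κ ι ℤ)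
    {l : ℕ} (hl : 1 ≤ l) (hS : ∀ a j, 0 ≤ S a j) (hSc : ∀ j, 1 ≤ ∑ a, S a j)
    (hSr : ∀ a, 1 ≤ ∑ j, S a j) (h1 : A ^ l = R * S) (h2 : B ^ l = S * R)
    (h3 : S * A = B * S) :
    ∃ K : ℤ, 0 ≤ K ∧ ∀ W : Matrix ι κ ℤ, (∀ i a, K ≤ W i a) →
      LZ (B + S * W) S (1 : Matrix κ κ ℤ) (A + W * S) (B + S * W) := by
  obtain ⟨β, hβ0, hβ⟩ := exists_bound B
  obtain ⟨ρ, hρ0, hρ⟩ := exists_bound R
  obtain ⟨a, ha0, ha⟩ : ∃ a : ℤ, 0 ≤ a ∧ ∀ k, k < l → ∀ i, -a ≤ ∑ j, (A ^ k) i j := by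
    refine ⟨∑ k ∈ Finset.range l, ∑ i, ∑ j, |(A ^ k) i j|, ?_, ?_⟩
    · exact Finset.sum_nonneg fun _ _ => Finset.sum_nonneg fun _ _ =>
        Finset.sum_nonneg fun _ _ => abs_nonneg _
    · intro k hk i
      have q1 : |∑ j, (A ^ k) i j| ≤ ∑ j, |(A ^ k) i j| := Finset.abs_sum_le_sum_abs _ _
      have q2 : ∑ j, |(A ^ k) i j| ≤ ∑ i, ∑ j, |(A ^ k) i j| :=
        Finset.single_le_sum (f := fun i => ∑ j, |(A ^ k) i j|)
          (fun _ _ => Finset.sum_nonneg fun _ _ => abs_nonneg _) (Finset.mem_univ i)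
      have q3 : ∑ i, ∑ j, |(A ^ k) i j| ≤ ∑ k ∈ Finset.range l, ∑ i, ∑ j, |(A ^ k) i j| :=
        Finset.single_le_sum (f := fun k => ∑ i, ∑ j, |(A ^ k) i j|)
          (fun _ _ => Finset.sum_nonneg fun _ _ => Finset.sum_nonneg fun _ _ => abs_nonneg _)
          (Finset.mem_range.2 hk)
      have q4 := neg_abs_le (∑ j, (A ^ k) i j)
      linarith
  set c : ℤ := a + 1 + ρ with hc
  set K0 : ℤ := c * (1 + β) with hK0
  have hc1 : 1 ≤ c := by linarith
  have hK0c : c ≤ K0 := by nlinarith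
  have hK0β : 1 + β ≤ K0 := by nlinarith
  have hK00 : 0 ≤ K0 := by linarith
  set W0 : Matrix ι κ ℤ := Matrix.of fun _ _ => K0 with hW0
  set B1 : Matrix κ κ ℤ := B + S * W0 with hB1
  have hB1e : ∀ x y, K0 - β ≤ B1 x y := by
    intro x y
    have q1 : (S * W0) x y = K0 * ∑ j, S x j := by
      rw [Matrix.mul_apply, Finset.mul_sum]
      apply Finset.sum_congr rfl
      intro j _
      rw [hW0, Matrix.of_apply, mul_comm]
    rw [hB1, Matrix.add_apply, q1]
    have q2 := neg_abs_le (B x y)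
    have q3 := hβ x y
    have q4 : K0 ≤ K0 * ∑ j, S x j := by nlinarith [hSr x]
    linarith
  have hB1p : ∀ x y, 1 ≤ B1 x y := fun x y => by have := hB1e x y; linarith
  have hX : ∀ k, 1 ≤ k → k ≤ l → ∀ i b, c ≤ XX A B1 W0 k i b := by
    intro k hk1
    induction k with
    | zero => omega
    | succ k ih =>
      intro hkl i b
      rw [XX, Matrix.add_apply]
      have q1 : (A ^ k * W0) i b = K0 * ∑ j, (A ^ k) i j := by
        rw [Matrix.mul_apply, Finset.mul_sum]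
        apply Finset.sum_congr rfl
        intro j _
        rw [hW0, Matrix.of_apply, mul_comm]
      rcases Nat.eq_zero_or_pos k with hk0 | hk0
      · subst hk0
        rw [q1]
        have q2 : ∑ j, (A ^ 0) i j = 1 := by
          simp [Matrix.one_apply]
        rw [q2, XX, Matrix.zero_mul, Matrix.zero_apply]
        linarith
      · have q2 := ih hk0 (by omega)
        have q3 := ha k (by omega) i
        have q4 : XX A B1 W0 k i b * B1 b b ≤ (XX A B1 W0 k * B1) i b := by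
          rw [Matrix.mul_apply]
          exact Finset.single_le_sum (f := fun x => XX A B1 W0 k i x * B1 x b)
            (fun x _ => mul_nonneg (by have := q2 i x; linarith) (by
              have := hB1p x b; linarith)) (Finset.mem_univ b)
        have q5 : c * (K0 - β) ≤ XX A B1 W0 k i b * B1 b b :=
          mul_le_mul (q2 i b) (hB1e b b) (by linarith) (by have := q2 i b; linarith)
        have q6 : -(K0 * a) ≤ K0 * ∑ j, (A ^ k) i j := by nlinarith
        rw [q1]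
        have q7 : c ≤ c * (K0 - β) - K0 * a := by
          have : c * (K0 - β) - K0 * a = (1 + ρ) * K0 - c * β := by rw [hc]; ring
          rw [this]
          have q8 : K0 ≤ (1 + ρ) * K0 := by nlinarith
          have q9 : K0 - c * β = c := by rw [hK0]; ring
          linarith
        linarith
  set E : Matrix ι κ ℤ := R + XX A B1 W0 l with hE
  have hE0 : ∀ i b, 0 ≤ E i b := by
    intro i b
    rw [hE, Matrix.add_apply]
    have q1 := hX l hl le_rfl i b
    have q2 := neg_abs_le (R i b)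
    have q3 := hρ i b
    linarith
  have hSE : S * E = B1 ^ l := by
    rw [hE, Matrix.mul_add, ← h2, hB1, S_mul_XX h3]
    abel
  set A1 : Matrix ι ι ℤ := A + W0 * S with hA1
  have hSA1 : S * A1 = B1 * S := by
    rw [hA1, hB1, Matrix.mul_add, Matrix.add_mul, h3, Matrix.mul_assoc]
  have hnil : ∃ t : ℕ, ∀ x : ι → ℤ, S.mulVec x = 0 → (A1 ^ t).mulVec x = 0 := by
    refine ⟨l, fun x hx => ?_⟩
    have q1 : ∀ t : ℕ, (A1 ^ t).mulVec x = (A ^ t).mulVec x ∧ S.mulVec ((A ^ t).mulVec x) = 0 := by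
      intro t
      induction t with
      | zero => simpa using hx
      | succ t ih =>
        obtain ⟨i1, i2⟩ := ih
        constructor
        · rw [pow_succ', ← Matrix.mulVec_mulVec, i1, hA1, Matrix.add_mulVec,
            ← Matrix.mulVec_mulVec (M := W0), i2, Matrix.mulVec_zero, add_zero,
            Matrix.mulVec_mulVec, ← pow_succ']
        · rw [pow_succ', ← Matrix.mulVec_mulVec, Matrix.mulVec_mulVec (M := S), h3,
            ← Matrix.mulVec_mulVec, i2, Matrix.mulVec_zero]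
    rw [(q1 l).1, h1, ← Matrix.mulVec_mulVec, hx, Matrix.mulVec_zero]
  obtain ⟨l, rfl⟩ : ∃ l', l = l' + 1 := ⟨l - 1, by omega⟩
  obtain ⟨K1, hK10, hK1⟩ := chain2 B1 (fun x y => by have := hB1p x y; linarith)
    (fun y => (hB1p y y).trans (Finset.single_le_sum (f := fun x => B1 x y)
      (fun x _ => by have := hB1p x y; linarith) (Finset.mem_univ y)))
    (fun x => (hB1p x x).trans (Finset.single_le_sum (f := fun y => B1 x y)
      (fun y _ => by have := hB1p x y; linarith) (Finset.mem_univ x)))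
    l ι S A1 E hS hSc hE0 hSA1 hnil hSE
  refine ⟨K0 + K1, by positivity, fun W hW => ?_⟩
  have h := hK1 (W - W0) (fun i x => by
    rw [Matrix.sub_apply, hW0, Matrix.of_apply]
    have := hW i x
    linarith)
  have e1 : A1 + (W - W0) * S = A + W * S := by
    rw [hA1, Matrix.sub_mul]
    abel
  have e2 : B1 + S * (W - W0) = B + S * W := by
    rw [hB1, Matrix.mul_sub]
    abel
  rw [e1, e2] at h
  exact h

/-- The matrix over `ℕ` of a nonnegative integer matrix. -/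
def toN {ι κ : Type} (D : Matrix ι κ ℤ) : Matrix ι κ ℕ := Matrix.of fun i j => (D i j).toNat

theorem toZ_toN {ι κ : Type} {D : Matrix ι κ ℤ} (h : ∀ i j, 0 ≤ D i j) : toZ (toN D) = D := by
  ext i j
  exact Int.toNat_of_nonneg (h i j)

/-- **Shift equivalences over `ℤ` with a nonnegative intertwiner.** -/
theorem mainZ_fin {n m l : ℕ} (hl : 1 ≤ l) (A : Matrix (Fin n) (Fin n) ℤ)
    (B : Matrix (Fin m) (Fin m) ℤ) (R : Matrix (Fin n) (Fin m) ℤ) (S : Matrix (Fin m) (Fin n) ℕ)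
    (h1 : A ^ l = R * toZ S) (h2 : B ^ l = toZ S * R) (h3 : toZ S * A = B * toZ S)
    (hSc : ColOK S) (hSr : RowOK S) :
    ∃ K : ℕ, ∀ W : Matrix (Fin n) (Fin m) ℕ, (∀ i j, K ≤ W i j) →
      ∃ (A' : Matrix (Fin n) (Fin n) ℕ) (B' : Matrix (Fin m) (Fin m) ℕ),
        toZ A' = A + toZ (W * S) ∧ toZ B' = B + toZ (S * W) ∧ Realised A' B' S := by
  obtain ⟨K, hK0, hK⟩ := mainZ A B R (toZ S) hl (toZ_nonneg S) (fun j => sum_pos_of _ (hSc j))
    (fun a => sum_pos_of _ (hSr a)) h1 h2 h3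
  refine ⟨K.toNat, fun W hW => ?_⟩
  obtain ⟨P, hP, a, c, e⟩ := hK (toZ W) (by
    intro i a
    have h4 := hW i a
    have h5 : K ≤ ((K.toNat : ℕ) : ℤ) := Int.self_le_toNat K
    have h6 : ((K.toNat : ℕ) : ℤ) ≤ ((W i a : ℕ) : ℤ) := by exact_mod_cast h4
    exact h5.trans h6)
  rw [← toZ_mul, ← toZ_mul] at hP
  rw [← toZ_mul] at e
  have hA' := toZ_toN hP.1
  have hB' := toZ_toN hP.2.1
  refine ⟨toN (A + toZ (W * S)), toN (B + toZ (S * W)), hA', hB', ?_⟩
  rw [← hA', ← hB'] at hP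
  obtain ⟨P', rfl, hc⟩ := hP.chain
  refine ⟨P', hc, a, c, ?_⟩
  apply toZ_inj
  rw [← hB', Matrix.mul_one, ← toZ_mul, ← toZ_pow, ← toZ_mul, ← toZ_pow] at e
  exact e

end Pool.Agent.H73LP
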