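import Pool.Agent.H73LP.Elim
import Pool.Agent.H73LP.Nil

/-!
# Large rank one perturbations of nilpotent matrices
-/

set_option autoImplicit false

namespace Pool.Agent.H73LP

open Matrix Pool.Agent.H73AM

variable {n : ℕ}

theorem large (r : ℕ) : ∀ (N : Matrix (Fin n) (Fin n) ℤ), IsNilpotent N → rk N ≤ r →
    ∃ K : ℕ, ∀ (q p : Fin n → ℕ), (∀ j, 1 ≤ q j) → (∀ j, ∑ i, (q i : ℤ) * N i j = 0) →
      (∀ i, K ≤ p i) → ∀ A : Matrix (Fin n) (Fin n) ℕ,
      (∀ i j, (A i j : ℤ) = p i * q j + N i j) → SSE A (full (∑ i, q i * p i)) := by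
  classical
  induction r with
  | zero =>
    intro N hN hr
    by_cases h0 : N = 0
    · refine ⟨0, fun q p _ _ _ A hA => rank_one A p q fun i j => ?_⟩
      have := hA i j
      rw [h0] at this
      simp only [Matrix.zero_apply, add_zero] at this
      exact_mod_cast this
    · obtain ⟨_, _, N', _, _, h3, _⟩ := step N h0 hN
      omega
  | succ r ih =>
    intro N hN hr
    by_cases h0 : N = 0
    · refine ⟨0, fun q p _ _ _ A hA => rank_one A p q fun i j => ?_⟩
      have := hA i j
      rw [h0] at this
      simp only [Matrix.zero_apply, add_zero] at this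
      exact_mod_cast this
    · obtain ⟨x, y, N', hN', hnil, hrk, hNx, hyx, hq'⟩ := step N h0 hN
      obtain ⟨K', hK'⟩ := ih N' hnil (by omega)
      set c : ℤ := ∑ j, |y j| with hc
      set X : ℤ := ∑ i, |x i| with hX
      set S : ℤ := ∑ i, ∑ j, |N i j| with hS
      have hyc : ∀ j, |y j| ≤ c := fun j =>
        Finset.single_le_sum (f := fun j => |y j|) (fun _ _ => abs_nonneg _) (Finset.mem_univ j)
      have hxX : ∀ i, |x i| ≤ X := fun i =>
        Finset.single_le_sum (f := fun i => |x i|) (fun _ _ => abs_nonneg _) (Finset.mem_univ i)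
      have hNS : ∀ i j, |N i j| ≤ S := by
        intro i j
        have h1 : |N i j| ≤ ∑ j, |N i j| :=
          Finset.single_le_sum (f := fun j => |N i j|) (fun _ _ => abs_nonneg _)
            (Finset.mem_univ j)
        have h2 : ∑ j, |N i j| ≤ S :=
          Finset.single_le_sum (f := fun i => ∑ j, |N i j|)
            (fun _ _ => Finset.sum_nonneg fun _ _ => abs_nonneg _) (Finset.mem_univ i)
        exact h1.trans h2
      have hc0 : 0 ≤ c := Finset.sum_nonneg fun _ _ => abs_nonneg _
      have hX0 : 0 ≤ X := Finset.sum_nonneg fun _ _ => abs_nonneg _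
      have hS0 : 0 ≤ S := Finset.sum_nonneg fun _ _ => Finset.sum_nonneg fun _ _ => abs_nonneg _
      refine ⟨K' + (3 * c * X + S).toNat, ?_⟩
      intro q p hq1 hqN hp A hA
      obtain ⟨hqx, hqN'⟩ := hq' (fun i => (q i : ℤ)) hqN
      have hpK : ∀ i, (K' : ℤ) + 3 * c * X + S ≤ p i := by
        intro i
        have h1 := hp i
        have h2 : ((K' + (3 * c * X + S).toNat : ℕ) : ℤ) ≤ p i := by exact_mod_cast h1
        rw [Nat.cast_add, Int.toNat_of_nonneg (by positivity)] at h2
        linarith
      have hcx : ∀ i, c * |x i| ≤ c * X := fun i => mul_le_mul_of_nonneg_left (hxX i) hc0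
      have hy' : ∀ j, 0 ≤ y j + c * q j := by
        intro j
        have h1 : (1 : ℤ) ≤ q j := by exact_mod_cast hq1 j
        have h2 := hyc j
        have h3 := neg_abs_le (y j)
        nlinarith
      have hp' : ∀ i, (K' : ℤ) + 2 * c * X + S ≤ p i - c * x i := by
        intro i
        have h1 := hpK i
        have h2 := hcx i
        have h3 : c * x i ≤ c * |x i| := mul_le_mul_of_nonneg_left (le_abs_self _) hc0
        linarith
      have hp0 : ∀ i, 0 ≤ p i - c * x i := by
        intro i
        have h1 := hp' i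
        have : 0 ≤ (K' : ℤ) + 2 * c * X + S := by positivity
        linarith
      have hNb : ∀ i j, -(c * X + S) ≤ N' i j := by
        intro i j
        rw [hN' i j]
        have h1 := hNS i j
        have h2 := neg_abs_le (N i j)
        have h3 : |x i * y j| ≤ X * c := by
          rw [abs_mul]
          exact mul_le_mul (hxX i) (hyc j) (abs_nonneg _) hX0
        have h4 := le_abs_self (x i * y j)
        linarith
      have hB0 : ∀ i j, 0 ≤ (p i - c * x i) * q j + N' i j := by
        intro i j
        have h1 : (1 : ℤ) ≤ q j := by exact_mod_cast hq1 j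
        have h2 := hp' i
        have h3 := hNb i j
        have h4 : p i - c * x i ≤ (p i - c * x i) * q j := by nlinarith [hp0 i]
        have h5 : 0 ≤ c * X := mul_nonneg hc0 hX0
        have h6 : (0 : ℤ) ≤ K' := Int.natCast_nonneg _
        linarith
      set B : Matrix (Fin n) (Fin n) ℕ := Matrix.of fun i j =>
        ((p i - c * x i) * q j + N' i j).toNat with hBdef
      have hB : ∀ i j, (B i j : ℤ) = (p i - c * x i) * q j + N' i j := by
        intro i j
        rw [hBdef, Matrix.of_apply, Int.toNat_of_nonneg (hB0 i j)]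
      have s1 : SSE A B := by
        apply elim_vec A B x (fun j => (y j + c * q j).toNat)
        · intro i
          have : ∑ j, (A i j : ℤ) * x j = p i * ∑ j, (q j : ℤ) * x j + ∑ j, N i j * x j := by
            rw [Finset.mul_sum, ← Finset.sum_add_distrib]
            apply Finset.sum_congr rfl
            intro j _
            rw [hA i j]
            ring
          rw [this, hqx, hNx i]
          simp
        · have : ∑ j, (((y j + c * q j).toNat : ℕ) : ℤ) * x j
              = ∑ j, y j * x j + c * ∑ j, (q j : ℤ) * x j := by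
            rw [Finset.mul_sum, ← Finset.sum_add_distrib]
            apply Finset.sum_congr rfl
            intro j _
            rw [Int.toNat_of_nonneg (hy' j)]
            ring
          rw [this, hqx, hyx]
          simp
        · intro i j
          rw [hB i j, hA i j, hN' i j, Int.toNat_of_nonneg (hy' j)]
          ring
      have s2 := hK' q (fun i => (p i - c * x i).toNat) hq1 hqN' (by
        intro i
        have h1 := hp' i
        have h2 := hp0 i
        have h5 : 0 ≤ c * X := mul_nonneg hc0 hX0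
        zify
        rw [Int.toNat_of_nonneg h2]
        linarith) B (by
        intro i j
        rw [hB i j, Int.toNat_of_nonneg (hp0 i)])
      have e : ∑ i, q i * (p i - c * x i).toNat = ∑ i, q i * p i := by
        zify
        have : ∑ i, (q i : ℤ) * ((p i - c * x i).toNat : ℤ)
            = ∑ i, (q i : ℤ) * p i - c * ∑ i, (q i : ℤ) * x i := by
          rw [Finset.mul_sum, ← Finset.sum_sub_distrib]
          apply Finset.sum_congr rfl
          intro i _
          rw [Int.toNat_of_nonneg (hp0 i)]
          ring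
        rw [this, hqx]
        simp
      rw [e] at s2
      exact s1.trans s2

/-- The matrix `p q + N`. -/
def pert (p q : Fin n → ℕ) (N : Matrix (Fin n) (Fin n) ℤ) : Matrix (Fin n) (Fin n) ℕ :=
  Matrix.of fun i j => ((p i : ℤ) * q j + N i j).toNat

/-- The uniform version. -/
theorem uniform (n M : ℕ) : ∃ K : ℕ, ∀ (N : Matrix (Fin n) (Fin n) ℤ) (p q : Fin n → ℕ),
    (∀ i j, |N i j| ≤ M) → IsNilpotent N → (∀ j, 1 ≤ q j) →
    (∀ j, ∑ i, (q i : ℤ) * N i j = 0) → (∀ i, K ≤ p i) →
    ∃ A : Matrix (Fin n) (Fin n) ℕ, (∀ i j, (A i j : ℤ) = p i * q j + N i j) ∧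
      SSE A (full (∑ i, q i * p i)) := by
  classical
  have hfin : (Set.Icc (fun _ _ => -(M : ℤ) : Fin n → Fin n → ℤ) (fun _ _ => (M : ℤ))).Finite :=
    Set.finite_Icc _ _
  have hK : ∀ N : Matrix (Fin n) (Fin n) ℤ, ∃ K : ℕ, IsNilpotent N → ∀ (q p : Fin n → ℕ),
      (∀ j, 1 ≤ q j) → (∀ j, ∑ i, (q i : ℤ) * N i j = 0) →
      (∀ i, K ≤ p i) → ∀ A : Matrix (Fin n) (Fin n) ℕ,
      (∀ i j, (A i j : ℤ) = p i * q j + N i j) → SSE A (full (∑ i, q i * p i)) := by
    intro N
    by_cases h : IsNilpotent N
    · obtain ⟨K, hK⟩ := large (rk N) N h le_rfl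
      exact ⟨K, fun _ => hK⟩
    · exact ⟨0, fun h' => absurd h' h⟩
  choose K hK using hK
  obtain ⟨K1, hK1⟩ := (hfin.image (fun N => K (Matrix.of N))).bddAbove
  refine ⟨K1 + M, ?_⟩
  intro N p q hNM hnil hq hqN hp
  have hmem : (fun i j => N i j : Fin n → Fin n → ℤ) ∈
      Set.Icc (fun _ _ => -(M : ℤ) : Fin n → Fin n → ℤ) (fun _ _ => (M : ℤ)) := by
    constructor
    · intro i j; exact (abs_le.1 (hNM i j)).1
    · intro i j; exact (abs_le.1 (hNM i j)).2
  have h1 : K N ≤ K1 := hK1 ⟨_, hmem, rfl⟩
  have h2 : ∀ i j, (pert p q N i j : ℤ) = p i * q j + N i j := by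
    intro i j
    rw [pert, Matrix.of_apply, Int.toNat_of_nonneg]
    have h3 := (abs_le.1 (hNM i j)).1
    have h4 : (1 : ℤ) ≤ q j := by exact_mod_cast hq j
    have h5 : ((K1 + M : ℕ) : ℤ) ≤ p i := by exact_mod_cast hp i
    push_cast at h5
    have h6 : (0 : ℤ) ≤ K1 := Int.natCast_nonneg _
    have h7 : (0 : ℤ) ≤ p i := Int.natCast_nonneg _
    nlinarith
  exact ⟨pert p q N, h2, hK N hnil q p hq hqN (fun i => by have := hp i; omega) _ h2⟩

end Pool.Agent.H73LP
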