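import Pool.Agent.H73LP.Large
import Pool.Agent.H73AM.Four

/-!
# Matrices shift equivalent to `[k]`
-/

set_option autoImplicit false

namespace Pool.Agent.H73LP

open Matrix Pool.Agent.H73AM

variable {n : ℕ}

/-- A positive vector is a positive multiple of a positive vector with a Bezout functional. -/
theorem prim_pos [NeZero n] (v : Fin n → ℕ) (hv : ∀ j, 1 ≤ v j) :
    ∃ (g : ℕ) (v0 : Fin n → ℕ) (φ : Fin n → ℤ), 1 ≤ g ∧ (∀ j, 1 ≤ v0 j) ∧
      (∀ j, v j = g * v0 j) ∧ ∑ j, φ j * v0 j = 1 := by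
  have hz : (fun j => (v j : ℤ)) ≠ 0 := by
    intro h
    have := congrFun h 0
    have h1 := hv 0
    simp at this
    omega
  obtain ⟨g, x, φ, hg, h1, h2⟩ := prim_vec _ hz
  have main : ∀ (g : ℤ) (x φ : Fin n → ℤ), 0 < g → (∀ i, (v i : ℤ) = g * x i) →
      ∑ i, φ i * x i = 1 → ∃ (g : ℕ) (v0 : Fin n → ℕ) (φ : Fin n → ℤ), 1 ≤ g ∧
      (∀ j, 1 ≤ v0 j) ∧ (∀ j, v j = g * v0 j) ∧ ∑ j, φ j * v0 j = 1 := by
    intro g x φ hg h1 h2
    have hx : ∀ i, 0 < x i := by
      intro i
      have h3 : (0 : ℤ) < g * x i := by rw [← h1 i]; exact_mod_cast hv i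
      exact (mul_pos_iff_of_pos_left hg).1 h3
    refine ⟨g.toNat, fun i => (x i).toNat, φ, by omega, ?_, ?_, ?_⟩
    · intro j
      have := hx j
      show 1 ≤ (x j).toNat
      omega
    · intro j
      zify
      rw [Int.toNat_of_nonneg hg.le, Int.toNat_of_nonneg (hx j).le]
      exact h1 j
    · rw [← h2]
      apply Finset.sum_congr rfl
      intro i _
      rw [Int.toNat_of_nonneg (hx i).le]
  rcases lt_or_gt_of_ne hg with h | h
  · refine main (-g) (fun i => - x i) (fun i => - φ i) (by omega) (fun i => ?_) ?_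
    · have := h1 i
      rw [this]
      ring
    · rw [← h2]
      apply Finset.sum_congr rfl
      intro i _
      ring
  · exact main g x φ h h1 h2

/-- The nilpotent part. -/
theorem nilp_of_se {A : Matrix (Fin n) (Fin n) ℕ} {k : ℕ} (hk : 1 ≤ k) (h : SE A (full k))
    {g : ℕ} {v v0 : Fin n → ℕ} (hv : ∀ j, ∑ i, v i * A i j = k * v j) (hv1 : ∀ j, 1 ≤ v j)
    (hg : 1 ≤ g) (hv0 : ∀ j, v j = g * v0 j) (p : Fin n → ℤ) (hp : ∑ j, (v0 j : ℤ) * p j = k)
    (N : Matrix (Fin n) (Fin n) ℤ) (hN : ∀ i j, N i j = A i j - p i * v0 j) :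
    IsNilpotent N ∧ ∀ j, ∑ i, (v0 i : ℤ) * N i j = 0 := by
  have hgz : (g : ℤ) ≠ 0 := by
    have : g ≠ 0 := by omega
    exact_mod_cast this
  have hv0A : ∀ j, ∑ i, (v0 i : ℤ) * A i j = k * v0 j := by
    intro j
    have h1 := hv j
    have h2 : (g : ℤ) * ∑ i, (v0 i : ℤ) * A i j = g * (k * v0 j) := by
      have h3 : ((∑ i, v i * A i j : ℕ) : ℤ) = ((k * v j : ℕ) : ℤ) := by exact_mod_cast h1
      push_cast at h3
      rw [Finset.mul_sum]
      have h4 : ∀ j, (v j : ℤ) = g * v0 j := by intro j; exact_mod_cast hv0 j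
      rw [h4 j] at h3
      calc ∑ i, (g : ℤ) * ((v0 i : ℤ) * A i j) = ∑ i, (v i : ℤ) * A i j := by
            apply Finset.sum_congr rfl
            intro i _
            rw [h4 i]
            ring
        _ = g * (k * v0 j) := by rw [h3]; ring
    exact mul_left_cancel₀ hgz h2
  have hqN : ∀ j, ∑ i, (v0 i : ℤ) * N i j = 0 := by
    intro j
    have : ∑ i, (v0 i : ℤ) * N i j = ∑ i, (v0 i : ℤ) * A i j
        - (∑ i, (v0 i : ℤ) * p i) * v0 j := by
      rw [Finset.sum_mul, ← Finset.sum_sub_distrib]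
      apply Finset.sum_congr rfl
      intro i _
      rw [hN i j]
      ring
    rw [this, hv0A j, hp]
    ring
  refine ⟨?_, hqN⟩
  obtain ⟨u, v', hu, hv', h0, -⟩ := vec_of_se hk h
  have hD : ∑ i, v i * u i ≠ 0 := by
    intro h1
    apply h0
    apply Finset.sum_eq_zero
    intro i _
    have h2 := (Finset.sum_eq_zero_iff.1 h1) i (Finset.mem_univ i)
    have h3 := hv1 i
    rcases Nat.mul_eq_zero.1 h2 with h4 | h4
    · omega
    · rw [h4, mul_zero]
  have hc := crit_of_se hk hu hv hD h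
  set Az : Matrix (Fin n) (Fin n) ℤ := A.map (Nat.castRingHom ℤ) with hAz
  set q : Fin n → ℤ := fun j => (v0 j : ℤ) with hq
  have hNe : N = Az - Matrix.vecMulVec p q := by
    ext i j
    rw [hN i j, Matrix.sub_apply, Matrix.vecMulVec_apply]
    rfl
  have hqN' : Matrix.vecMul q N = 0 := by
    ext j
    exact hqN j
  have hpow : ∀ t, N ^ (t + 1) = Az ^ (t + 1) - Matrix.vecMulVec ((Az ^ t).mulVec p) q := by
    intro t
    induction t with
    | zero => simp [hNe]
    | succ t ih =>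
      rw [pow_succ, ih, Matrix.sub_mul, Matrix.vecMulVec_mul, hqN']
      have : Matrix.vecMulVec ((Az ^ t).mulVec p) (0 : Fin n → ℤ) = 0 := by
        ext i j
        simp [Matrix.vecMulVec_apply]
      rw [this, sub_zero, hNe, Matrix.mul_sub, Matrix.mul_vecMulVec, ← pow_succ]
  refine ⟨n + 1, ?_⟩
  ext i j
  rw [hpow n, Matrix.sub_apply, Matrix.vecMulVec_apply, Matrix.zero_apply]
  set D : ℤ := ((∑ i, v i * u i : ℕ) : ℤ) with hDd
  have hD0 : D ≠ 0 := by
    rw [hDd]
    exact_mod_cast hD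
  have hcz : ∀ i j, D * (Az ^ n) i j = (k : ℤ) ^ n * (u i * v j) := by
    intro i j
    have h1 := hc i j
    have h2 : (Az ^ n) i j = ((A ^ n) i j : ℤ) := by
      rw [hAz, ← Matrix.map_pow]
      rfl
    rw [h2, hDd]
    exact_mod_cast h1
  have e1 : D * (Az ^ (n + 1)) i j = (k : ℤ) ^ (n + 1) * (u i * v j) := by
    rw [pow_succ, Matrix.mul_apply, Finset.mul_sum]
    have h1 : ((∑ l, v l * A l j : ℕ) : ℤ) = ((k * v j : ℕ) : ℤ) := by exact_mod_cast hv j
    push_cast at h1
    calc ∑ l, D * ((Az ^ n) i l * Az l j) = ∑ l, ((k : ℤ) ^ n * u i) * ((v l : ℤ) * A l j) := by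
          apply Finset.sum_congr rfl
          intro l _
          have h2 := hcz i l
          have h3 : Az l j = (A l j : ℤ) := rfl
          rw [← mul_assoc, h2, h3]
          ring
      _ = (k : ℤ) ^ (n + 1) * (u i * v j) := by
          rw [← Finset.mul_sum, h1]
          ring
  have e2 : D * (((Az ^ n).mulVec p) i * q j) = (k : ℤ) ^ (n + 1) * (u i * v j) := by
    have h1 : D * ((Az ^ n).mulVec p) i = (k : ℤ) ^ n * u i * (g * k) := by
      simp only [Matrix.mulVec, dotProduct]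
      rw [Finset.mul_sum, ← hp, Finset.mul_sum, Finset.mul_sum]
      apply Finset.sum_congr rfl
      intro l _
      have h2 := hcz i l
      have h4 : (v l : ℤ) = g * v0 l := by exact_mod_cast hv0 l
      rw [← mul_assoc, h2, h4, hp]
      ring
    have h4 : (v j : ℤ) = g * v0 j := by exact_mod_cast hv0 j
    rw [← mul_assoc, h1, h4]
    ring
  have e3 : D * ((Az ^ (n + 1)) i j - ((Az ^ n).mulVec p) i * q j) = 0 := by
    rw [mul_sub, e1, e2, sub_self]
  exact (mul_eq_zero.1 e3).resolve_left hD0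

theorem neZero_of_se {A : Matrix (Fin n) (Fin n) ℕ} {k : ℕ} (hk : 1 ≤ k) (h : SE A (full k)) :
    NeZero n := by
  constructor
  rintro rfl
  obtain ⟨u, v', hu, hv', h0, -⟩ := vec_of_se hk h
  simp at h0

/-- Adding a large multiple of the left eigenvector. -/
theorem add_large {A : Matrix (Fin n) (Fin n) ℕ} {k : ℕ} (hk : 1 ≤ k) (h : SE A (full k))
    (v : Fin n → ℕ) (hv : ∀ j, ∑ i, v i * A i j = k * v j) (hv1 : ∀ j, 1 ≤ v j) :
    ∃ K : ℕ, ∀ w : Fin n → ℕ, (∀ i, K ≤ w i) →
      SSE (Matrix.of fun i j => A i j + w i * v j) (full (k + ∑ i, v i * w i)) := by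
  have := neZero_of_se hk h
  obtain ⟨g, v0, φ, hg, hv01, hv0, hφ⟩ := prim_pos v hv1
  set p : Fin n → ℤ := fun i => k * φ i with hp
  have hpk : ∑ j, (v0 j : ℤ) * p j = k := by
    have : ∑ j, (v0 j : ℤ) * p j = k * ∑ j, φ j * v0 j := by
      rw [Finset.mul_sum]
      apply Finset.sum_congr rfl
      intro i _
      rw [hp]
      ring
    rw [this, hφ, mul_one]
  set N : Matrix (Fin n) (Fin n) ℤ := Matrix.of fun i j => (A i j : ℤ) - p i * v0 j with hN
  obtain ⟨hnil, hqN⟩ := nilp_of_se hk h hv hv1 hg hv0 p hpk N (fun i j => rfl)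
  obtain ⟨K, hK⟩ := large (rk N) N hnil le_rfl
  set F : ℤ := ∑ i, |p i| with hF
  have hpF : ∀ i, |p i| ≤ F := fun i =>
    Finset.single_le_sum (f := fun i => |p i|) (fun _ _ => abs_nonneg _) (Finset.mem_univ i)
  have hF0 : 0 ≤ F := Finset.sum_nonneg fun _ _ => abs_nonneg _
  refine ⟨K + F.toNat, fun w hw => ?_⟩
  have hgz : (1 : ℤ) ≤ g := by exact_mod_cast hg
  have h1 : ∀ i, (K : ℤ) ≤ g * w i + p i := by
    intro i
    have h2 : ((K + F.toNat : ℕ) : ℤ) ≤ w i := by exact_mod_cast hw i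
    rw [Nat.cast_add, Int.toNat_of_nonneg hF0] at h2
    have h3 := neg_abs_le (p i)
    have h4 := hpF i
    have h5 : (0 : ℤ) ≤ w i := Int.natCast_nonneg _
    nlinarith
  have h2 : ∀ i, 0 ≤ (g : ℤ) * w i + p i := fun i => le_trans (Int.natCast_nonneg _) (h1 i)
  have h3 := hK v0 (fun i => ((g : ℤ) * w i + p i).toNat) hv01 hqN (by
    intro i
    zify
    rw [Int.toNat_of_nonneg (h2 i)]
    exact h1 i) (Matrix.of fun i j => A i j + w i * v j) (by
    intro i j
    rw [Matrix.of_apply, Int.toNat_of_nonneg (h2 i), hN, Matrix.of_apply]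
    have h4 : (v j : ℤ) = g * v0 j := by exact_mod_cast hv0 j
    push_cast
    rw [h4]
    ring)
  have e : ∑ i, v0 i * ((g : ℤ) * w i + p i).toNat = k + ∑ i, v i * w i := by
    zify
    have : ∀ i, (v0 i : ℤ) * (((g : ℤ) * w i + p i).toNat : ℤ)
        = (v0 i : ℤ) * p i + (v i : ℤ) * w i := by
      intro i
      rw [Int.toNat_of_nonneg (h2 i)]
      have h4 : (v i : ℤ) = g * v0 i := by exact_mod_cast hv0 i
      rw [h4]
      ring
    rw [Finset.sum_congr rfl (fun i _ => this i), Finset.sum_add_distrib, hpk]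
  rw [e] at h3
  exact h3

/-- Matrices close to a large rank one matrix. -/
theorem near (n M : ℕ) : ∃ K : ℕ, ∀ (k : ℕ) (A : Matrix (Fin n) (Fin n) ℕ) (v m : Fin n → ℕ),
    1 ≤ k → SE A (full k) → (∀ j, ∑ i, v i * A i j = k * v j) → (∀ j, 1 ≤ v j ∧ v j ≤ M) →
    (∀ i, K ≤ m i) → (∀ i j, m i * v j ≤ A i j ∧ A i j ≤ m i * v j + M) → SSE A (full k) := by
  classical
  rcases Nat.eq_zero_or_pos n with hn | hn
  · subst hn
    refine ⟨0, fun k A v m hk h => ?_⟩
    have := neZero_of_se hk h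
    exact absurd rfl this.ne
  have hne : NeZero n := ⟨by omega⟩
  have hfin : (Set.Icc (fun _ => 0 : Fin n → ℕ) (fun _ => M)).Finite := Set.finite_Icc _ _
  have hch : ∀ v : Fin n → ℕ, ∃ (g : ℕ) (v0 : Fin n → ℕ) (φ : Fin n → ℤ), (∀ j, 1 ≤ v j) →
      1 ≤ g ∧ (∀ j, 1 ≤ v0 j) ∧ (∀ j, v j = g * v0 j) ∧ ∑ j, φ j * v0 j = 1 := by
    intro v
    by_cases h : ∀ j, 1 ≤ v j
    · obtain ⟨g, v0, φ, h1⟩ := prim_pos v h
      exact ⟨g, v0, φ, fun _ => h1⟩
    · exact ⟨0, 0, 0, fun h' => absurd h' h⟩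
  choose g v0 φ hgv using hch
  obtain ⟨F, hF⟩ := (hfin.image (fun v => ∑ j, (φ v j).natAbs)).bddAbove
  obtain ⟨K, hK⟩ := uniform n (M + M * F * M)
  refine ⟨K + M * F, ?_⟩
  intro k A v m hk h hv hv1 hm hA
  obtain ⟨hg, hv01, hv0, hφ⟩ := hgv v (fun j => (hv1 j).1)
  have hFv : ∑ j, (φ v j).natAbs ≤ F := hF ⟨v, ⟨fun _ => Nat.zero_le _, fun j => (hv1 j).2⟩, rfl⟩
  have hFv' : ∑ j, |φ v j| ≤ (F : ℤ) := by
    have : ((∑ j, (φ v j).natAbs : ℕ) : ℤ) ≤ F := by exact_mod_cast hFv
    push_cast at this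
    exact this
  have hgz : (1 : ℤ) ≤ g v := by exact_mod_cast hg
  have hvz : ∀ j, (v j : ℤ) = g v * v0 v j := by intro j; exact_mod_cast hv0 j
  have hv0M : ∀ j, (v0 v j : ℤ) ≤ M := by
    intro j
    have h1 : (v j : ℤ) ≤ M := by exact_mod_cast (hv1 j).2
    have h2 := hvz j
    have h3 : (0 : ℤ) ≤ v0 v j := Int.natCast_nonneg _
    nlinarith
  set e : Fin n → Fin n → ℤ := fun i j => (A i j : ℤ) - m i * v j with he
  have he0 : ∀ i j, 0 ≤ e i j ∧ e i j ≤ M := by
    intro i j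
    have h1 : ((m i * v j : ℕ) : ℤ) ≤ A i j := by exact_mod_cast (hA i j).1
    have h2 : (A i j : ℤ) ≤ ((m i * v j + M : ℕ) : ℤ) := by exact_mod_cast (hA i j).2
    push_cast at h1 h2
    constructor
    · simp only [he]; linarith
    · simp only [he]; linarith
  set s : Fin n → ℤ := fun i => ∑ j, e i j * φ v j with hs
  have hsb : ∀ i, |s i| ≤ M * F := by
    intro i
    calc |s i| ≤ ∑ j, |e i j * φ v j| := Finset.abs_sum_le_sum_abs _ _
      _ ≤ ∑ j, (M : ℤ) * |φ v j| := by
          apply Finset.sum_le_sum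
          intro j _
          rw [abs_mul, abs_of_nonneg (he0 i j).1]
          exact mul_le_mul_of_nonneg_right (he0 i j).2 (abs_nonneg _)
      _ ≤ M * F := by
          rw [← Finset.mul_sum]
          exact mul_le_mul_of_nonneg_left hFv' (Int.natCast_nonneg _)
  set p : Fin n → ℤ := fun i => g v * m i + s i with hp
  have hpA : ∀ i, p i = ∑ j, (A i j : ℤ) * φ v j := by
    intro i
    have h1 : ∑ j, (A i j : ℤ) * φ v j = m i * ∑ j, (v j : ℤ) * φ v j + s i := by
      rw [hs, Finset.mul_sum, ← Finset.sum_add_distrib]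
      apply Finset.sum_congr rfl
      intro j _
      rw [he]
      ring
    have h2 : ∑ j, (v j : ℤ) * φ v j = g v := by
      have : ∑ j, (v j : ℤ) * φ v j = g v * ∑ j, φ v j * v0 v j := by
        rw [Finset.mul_sum]
        apply Finset.sum_congr rfl
        intro j _
        rw [hvz j]
        ring
      rw [this, hφ, mul_one]
    rw [h1, h2, hp]
    ring
  have hpk : ∑ j, (v0 v j : ℤ) * p j = k := by
    have h1 : (g v : ℤ) * ∑ j, (v0 v j : ℤ) * p j = g v * k := by
      calc (g v : ℤ) * ∑ j, (v0 v j : ℤ) * p j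
          = ∑ i, (v i : ℤ) * ∑ j, (A i j : ℤ) * φ v j := by
            rw [Finset.mul_sum]
            apply Finset.sum_congr rfl
            intro i _
            rw [hvz i, hpA i]
            ring
        _ = ∑ j, (∑ i, (v i : ℤ) * A i j) * φ v j := by
            simp only [Finset.mul_sum, Finset.sum_mul]
            rw [Finset.sum_comm]
            apply Finset.sum_congr rfl
            intro i _
            apply Finset.sum_congr rfl
            intro j _
            ring
        _ = ∑ j, (k : ℤ) * g v * (φ v j * v0 v j) := by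
            apply Finset.sum_congr rfl
            intro j _
            have h2 : ((∑ i, v i * A i j : ℕ) : ℤ) = ((k * v j : ℕ) : ℤ) := by
              exact_mod_cast hv j
            push_cast at h2
            rw [h2, hvz j]
            ring
        _ = g v * k := by
            rw [← Finset.mul_sum, hφ]
            ring
    have h3 : (g v : ℤ) ≠ 0 := by omega
    exact mul_left_cancel₀ h3 h1
  set N : Matrix (Fin n) (Fin n) ℤ := Matrix.of fun i j => (A i j : ℤ) - p i * v0 v j with hN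
  obtain ⟨hnil, hqN⟩ := nilp_of_se hk h hv (fun j => (hv1 j).1) hg hv0 p hpk N (fun i j => rfl)
  have hNb : ∀ i j, |N i j| ≤ ((M + M * F * M : ℕ) : ℤ) := by
    intro i j
    have h1 : N i j = e i j - s i * v0 v j := by
      rw [hN, Matrix.of_apply, hp, he]
      simp only
      rw [hvz j]
      ring
    rw [h1]
    have h2 : |s i * v0 v j| ≤ (M * F) * M := by
      rw [abs_mul]
      apply mul_le_mul (hsb i) _ (abs_nonneg _) (by positivity)
      rw [abs_of_nonneg (Int.natCast_nonneg _)]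
      exact hv0M j
    have h3 : |e i j| ≤ M := by
      rw [abs_of_nonneg (he0 i j).1]
      exact (he0 i j).2
    push_cast
    calc |e i j - s i * v0 v j| ≤ |e i j| + |s i * v0 v j| := abs_sub _ _
      _ ≤ M + M * F * M := add_le_add h3 h2
  have hpK : ∀ i, (K : ℤ) ≤ p i := by
    intro i
    have h1 : ((K + M * F : ℕ) : ℤ) ≤ m i := by exact_mod_cast hm i
    push_cast at h1
    have h2 := hsb i
    have h3 := neg_abs_le (s i)
    have h4 : (0 : ℤ) ≤ m i := Int.natCast_nonneg _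
    simp only [hp]
    nlinarith
  have hp0 : ∀ i, 0 ≤ p i := fun i => le_trans (Int.natCast_nonneg _) (hpK i)
  obtain ⟨A', hA', hS⟩ := hK N (fun i => (p i).toNat) (v0 v) hNb hnil hv01 hqN (by
    intro i
    zify
    rw [Int.toNat_of_nonneg (hp0 i)]
    exact hpK i)
  have hAA : A' = A := by
    ext i j
    have h1 := hA' i j
    rw [Int.toNat_of_nonneg (hp0 i), hN, Matrix.of_apply] at h1
    have : (A' i j : ℤ) = A i j := by rw [h1]; ring
    exact_mod_cast this
  have hk' : ∑ i, v0 v i * (p i).toNat = k := by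
    zify
    rw [← hpk]
    apply Finset.sum_congr rfl
    intro i _
    rw [Int.toNat_of_nonneg (hp0 i)]
  rw [hAA, hk'] at hS
  exact hS

end Pool.Agent.H73LP
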