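import Pool.Agent.H73LP.Main
import Pool.Agent.H73LP.Perturb

/-!
# Removal of a nilpotent part, uniformly
-/

set_option autoImplicit false
set_option linter.unusedSectionVars false

namespace Pool.Agent.H73LP

open Matrix Pool.Agent.H73AM

variable {ι : Type} [Fintype ι] [DecidableEq ι]

theorem removeN (ρ : ℕ) : ∀ (N : Matrix ι ι ℤ), IsNilpotent N →
    Module.finrank ℚ (LinearMap.range (N.map (Int.castRingHom ℚ)).mulVecLin) ≤ ρ →
    ∃ K : ℤ, 0 ≤ K ∧ ∀ (κ : Type) [Fintype κ] [DecidableEq κ] (P : Matrix κ ι ℤ)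
      (Q : Matrix ι κ ℤ), (∀ a j, 0 ≤ P a j) → (∀ j, 1 ≤ ∑ a, P a j) → P * N = 0 →
      (∀ i a, K ≤ Q i a) → ZS (N + Q * P) (P * Q) := by
  have hzero : ∃ K : ℤ, 0 ≤ K ∧ ∀ (κ : Type) [Fintype κ] [DecidableEq κ] (P : Matrix κ ι ℤ)
      (Q : Matrix ι κ ℤ), (∀ a j, 0 ≤ P a j) → (∀ j, 1 ≤ ∑ a, P a j) →
      P * (0 : Matrix ι ι ℤ) = 0 → (∀ i a, K ≤ Q i a) →
      ZS ((0 : Matrix ι ι ℤ) + Q * P) (P * Q) := by
    refine ⟨0, le_rfl, fun κ _ _ P Q hP _ _ hQ => ?_⟩
    rw [zero_add]
    exact ZS.elem Q P hQ hP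
  induction ρ with
  | zero =>
    intro N _ hr
    have hN0 : N = 0 := by
      have h1 : LinearMap.range (N.map (Int.castRingHom ℚ)).mulVecLin = ⊥ := by
        rw [← Submodule.finrank_eq_zero (R := ℚ)]
        omega
      ext i j
      have h2 : (N.map (Int.castRingHom ℚ)).mulVec (Pi.single j 1) = 0 := by
        have : (N.map (Int.castRingHom ℚ)).mulVecLin (Pi.single j 1) ∈
            LinearMap.range (N.map (Int.castRingHom ℚ)).mulVecLin := ⟨_, rfl⟩
        rw [h1, Submodule.mem_bot] at this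
        exact this
      have h3 := congrFun h2 i
      simpa using h3
    rw [hN0]
    exact hzero
  | succ ρ ih =>
    intro N hN hr
    by_cases h0 : N = 0
    · rw [h0]
      exact hzero
    · obtain ⟨m, hm1, hm2⟩ : ∃ m, N ^ (m + 1) ≠ 0 ∧ N ^ (m + 2) = 0 := by
        have hex : ∃ l, N ^ l = 0 := hN
        have hl := Nat.find_spec hex
        have hmin : ∀ l, l < Nat.find hex → N ^ l ≠ 0 := fun l h => Nat.find_min hex h
        have h2 : 2 ≤ Nat.find hex := by
          by_contra hcon
          push Not at hcon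
          rcases Nat.lt_succ_iff.1 hcon |>.lt_or_eq with h | h
          · have h3 : Nat.find hex = 0 := by omega
            rw [h3, pow_zero] at hl
            apply h0
            rw [← mul_one N, hl, mul_zero]
          · rw [h, pow_one] at hl
            exact h0 hl
        obtain ⟨m, hm⟩ := Nat.exists_eq_add_of_le h2
        refine ⟨m, hmin _ (by omega), ?_⟩
        rw [show m + 2 = Nat.find hex by omega]
        exact hl
      obtain ⟨i0, j0, hij⟩ : ∃ i j, (N ^ (m + 1)) i j ≠ 0 := by
        by_contra hcon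
        push Not at hcon
        exact hm1 (Matrix.ext hcon)
      set w : ι → ℤ := (N ^ m).mulVec (Pi.single j0 1) with hw
      set z : ι → ℤ := N.mulVec w with hz
      have hz1 : z = (N ^ (m + 1)).mulVec (Pi.single j0 1) := by
        rw [hz, hw, Matrix.mulVec_mulVec, ← pow_succ']
      have hz0 : z ≠ 0 := by
        intro h
        apply hij
        rw [hz1] at h
        have := congrFun h i0
        simpa using this
      have hNz : N.mulVec z = 0 := by
        rw [hz1, Matrix.mulVec_mulVec, ← pow_succ', hm2, Matrix.zero_mulVec]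
      obtain ⟨g, x, φ, hg, hzx, hφ⟩ := prim_vec' z hz0
      have hNx : N.mulVec x = 0 := by
        have h1 : g • N.mulVec x = 0 := by
          rw [← Matrix.mulVec_smul, ← hzx, hNz]
        exact (smul_eq_zero.1 h1).resolve_left hg
      set T : Matrix ι ι ℤ := 1 - Matrix.vecMulVec x φ with hT
      have hTx : T.mulVec x = 0 := by
        rw [hT, Matrix.sub_mulVec, Matrix.one_mulVec, Matrix.vecMulVec_mulVec]
        ext i
        simp [hφ]
      have hNT : N * T = N := by
        rw [hT, Matrix.mul_sub, Matrix.mul_one, Matrix.mul_vecMulVec, hNx]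
        ext i j
        simp
      set y0 : ι → ℤ := Matrix.vecMul φ N with hy0
      have hTN : T * N = N - Matrix.vecMulVec x y0 := by
        rw [hT, Matrix.sub_mul, Matrix.one_mul, Matrix.vecMulVec_mul]
      have hnil' : IsNilpotent (T * N) := by
        refine ⟨m + 2, ?_⟩
        have : ∀ t, (T * N) ^ (t + 1) = T * N ^ (t + 1) := by
          intro t
          induction t with
          | zero => simp
          | succ t ih =>
            rw [pow_succ, ih, pow_succ N (t + 1)]
            calc T * N ^ (t + 1) * (T * N) = T * (N ^ t * (N * T) * N) := by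
                  rw [pow_succ]; noncomm_ring
              _ = T * (N ^ (t + 1) * N) := by rw [hNT, pow_succ]
        rw [this (m + 1), hm2, mul_zero]
      have hr' : Module.finrank ℚ (LinearMap.range ((T * N).map
          (Int.castRingHom ℚ)).mulVecLin) ≤ ρ := by
        have e1 : LinearMap.range ((T * N).map (Int.castRingHom ℚ)).mulVecLin
            = (LinearMap.range (N.map (Int.castRingHom ℚ)).mulVecLin).map
              (T.map (Int.castRingHom ℚ)).mulVecLin := by
          rw [Matrix.map_mul, Matrix.mulVecLin_mul, LinearMap.range_comp]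
        rw [e1]
        have h1 := finrank_map_lt (LinearMap.range (N.map (Int.castRingHom ℚ)).mulVecLin)
          (T.map (Int.castRingHom ℚ)).mulVecLin (cv z) ⟨cv w, cv_mulVec N w⟩ (cv_ne hz0) (by
            show (T.map (Int.castRingHom ℚ)).mulVec (cv z) = 0
            rw [cv_mulVec, hzx, Matrix.mulVec_smul, hTx, smul_zero, cv_zero])
        omega
      obtain ⟨K', hK'0, hK'⟩ := ih (T * N) hnil' hr'
      obtain ⟨c, hc0, hc⟩ := exists_bound_vec y0
      obtain ⟨X, hX0, hX⟩ := exists_bound_vec x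
      obtain ⟨c1, hc10, hc1⟩ := exists_bound N
      obtain ⟨c2, hc20, hc2⟩ := exists_bound (T * N)
      refine ⟨K' + c * X + c1 + c2, by positivity, fun κ _ _ P Q hP hs hPN hQ => ?_⟩
      have hcX : 0 ≤ c * X := mul_nonneg hc0 hX0
      have hPx : P.mulVec x = 0 := by
        have h1 : g • P.mulVec x = 0 := by
          rw [← Matrix.mulVec_smul, ← hzx, hz, Matrix.mulVec_mulVec, hPN, Matrix.zero_mulVec]
        exact (smul_eq_zero.1 h1).resolve_left hg
      set Q' : Matrix ι κ ℤ := Q - Matrix.vecMulVec (c • x) (fun _ => 1) with hQ'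
      have hQ'c : ∀ i a, K' + c2 ≤ Q' i a := by
        intro i a
        rw [hQ', Matrix.sub_apply, Matrix.vecMulVec_apply]
        have h1 := hQ i a
        have h2 : c * x i ≤ c * X :=
          mul_le_mul_of_nonneg_left ((le_abs_self _).trans (hX i)) hc0
        simp only [Pi.smul_apply, smul_eq_mul, mul_one]
        linarith
      set s : ι → ℤ := Matrix.vecMul (fun _ => 1) P with hs'
      have hss : ∀ j, s j = ∑ a, P a j := by
        intro j
        simp [hs', Matrix.vecMul, dotProduct]
      have hDe : (N + Q * P) - Matrix.vecMulVec x (y0 + c • s) = T * N + Q' * P := by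
        rw [hQ', hTN, Matrix.sub_mul, Matrix.vecMulVec_mul]
        ext i j
        simp only [Matrix.add_apply, Matrix.sub_apply, Matrix.vecMulVec_apply, Pi.add_apply,
          Pi.smul_apply, smul_eq_mul, ← hs']
        ring
      have s1 : ZS (N + Q * P) (T * N + Q' * P) := by
        rw [← hDe]
        apply ZS.elim
        · exact add_nonneg' hP hs hc10 hc1 (fun i a => by have := hQ i a; linarith)
        · intro j
          simp only [Pi.add_apply, Pi.smul_apply, smul_eq_mul]
          rw [hss]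
          have h1 := hs j
          have h2 := neg_abs_le (y0 j)
          have h3 := hc j
          nlinarith
        · rw [Matrix.add_mulVec, hNx, ← Matrix.mulVec_mulVec, hPx, Matrix.mulVec_zero,
            add_zero]
        · rw [add_dotProduct, hy0, ← Matrix.dotProduct_mulVec, hNx, smul_dotProduct, hs',
            ← Matrix.dotProduct_mulVec, hPx]
          simp
        · intro i j
          have h1 := add_nonneg' hP hs hc20 hc2
            (fun i a => by have := hQ'c i a; linarith : ∀ i a, c2 ≤ Q' i a) i j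
          rw [← hDe, Matrix.sub_apply, Matrix.vecMulVec_apply] at h1
          exact h1
      have hPN' : P * (T * N) = 0 := by
        rw [hTN, Matrix.mul_sub, hPN, Matrix.mul_vecMulVec, hPx]
        ext i j
        simp
      have s2 := hK' κ P Q' hP hs hPN' (fun i a => by have := hQ'c i a; linarith)
      have e3 : P * Q' = P * Q := by
        rw [hQ', Matrix.mul_sub, Matrix.mul_vecMulVec, Matrix.mulVec_smul, hPx, smul_zero]
        ext i a
        simp
      rw [e3] at s2
      exact s1.trans s2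

/-- Removal of nilpotent parts, with a uniform bound. -/
theorem uniformM (n M : ℕ) : ∃ K : ℕ, ∀ (N : Matrix (Fin n) (Fin n) ℤ) (r : ℕ)
    (P : Matrix (Fin r) (Fin n) ℕ) (Q : Matrix (Fin n) (Fin r) ℕ),
    (∀ i j, |N i j| ≤ M) → IsNilpotent N → (∀ j, ∃ a, P a j ≠ 0) →
    (∀ a j, ∑ i, (P a i : ℤ) * N i j = 0) → (∀ i a, K ≤ Q i a) →
    ∃ A : Matrix (Fin n) (Fin n) ℕ, (∀ i j, (A i j : ℤ) = N i j + ((Q * P) i j : ℕ)) ∧
      SSE A (P * Q) := by
  classical
  have hfin : (Set.Icc (fun _ _ => -(M : ℤ) : Fin n → Fin n → ℤ) (fun _ _ => (M : ℤ))).Finite :=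
    Set.finite_Icc _ _
  have hK : ∀ N : Matrix (Fin n) (Fin n) ℤ, ∃ K : ℤ, 0 ≤ K ∧ (IsNilpotent N →
      ∀ (r : ℕ) (P : Matrix (Fin r) (Fin n) ℤ)
      (Q : Matrix (Fin n) (Fin r) ℤ), (∀ a j, 0 ≤ P a j) → (∀ j, 1 ≤ ∑ a, P a j) → P * N = 0 →
      (∀ i a, K ≤ Q i a) → ZS (N + Q * P) (P * Q)) := by
    intro N
    by_cases h : IsNilpotent N
    · obtain ⟨K, hK0, hK⟩ := removeN _ N h le_rfl
      exact ⟨K, hK0, fun _ r P Q => hK (Fin r) P Q⟩
    · exact ⟨0, le_rfl, fun h' => absurd h' h⟩
  choose K hK0 hK using hK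
  obtain ⟨K1, hK1⟩ := (hfin.image (fun N => K (Matrix.of N))).bddAbove
  refine ⟨K1.toNat + M, ?_⟩
  intro N r P Q hNM hnil hP hPN hQ
  have hmem : (fun i j => N i j : Fin n → Fin n → ℤ) ∈
      Set.Icc (fun _ _ => -(M : ℤ) : Fin n → Fin n → ℤ) (fun _ _ => (M : ℤ)) := by
    constructor
    · intro i j; exact (abs_le.1 (hNM i j)).1
    · intro i j; exact (abs_le.1 (hNM i j)).2
  have h1 : K N ≤ K1 := hK1 ⟨_, hmem, rfl⟩
  have hs : ∀ j, 1 ≤ ∑ a, toZ P a j := fun j => sum_pos_of _ (hP j)
  have hQz : ∀ i a, (K1.toNat : ℤ) + M ≤ toZ Q i a := by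
    intro i a
    have := hQ i a
    have h2 : ((K1.toNat + M : ℕ) : ℤ) ≤ ((Q i a : ℕ) : ℤ) := by exact_mod_cast this
    push_cast at h2
    have h3 : toZ Q i a = ((Q i a : ℕ) : ℤ) := rfl
    rw [h3]
    push_cast
    linarith
  have hK1' : K1 ≤ (K1.toNat : ℤ) := Int.self_le_toNat K1
  have hM0 : (0 : ℤ) ≤ M := Int.natCast_nonneg M
  have hpos : ∀ i j, 0 ≤ (N + toZ Q * toZ P) i j :=
    add_nonneg' (toZ_nonneg P) hs hM0 hNM (fun i a => by
      have := hQz i a
      have h0 : (0 : ℤ) ≤ (K1.toNat : ℤ) := Int.natCast_nonneg _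
      linarith)
  have hz := hK N hnil r (toZ P) (toZ Q) (toZ_nonneg P) hs (by
    ext a j
    rw [Matrix.mul_apply, Matrix.zero_apply]
    exact hPN a j) (fun i a => by have := hQz i a; linarith)
  refine ⟨Matrix.of fun i j => ((N + toZ Q * toZ P) i j).toNat, ?_, ?_⟩
  · intro i j
    rw [Matrix.of_apply, Int.toNat_of_nonneg (hpos i j), Matrix.add_apply, ← toZ_mul]
    rfl
  · apply ZS.sse
    have e : toZ (Matrix.of fun i j => ((N + toZ Q * toZ P) i j).toNat)
        = N + toZ Q * toZ P := by
      ext i j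
      show ((((N + toZ Q * toZ P) i j).toNat : ℕ) : ℤ) = _
      rw [Int.toNat_of_nonneg (hpos i j)]
    rw [e, toZ_mul]
    exact hz

end Pool.Agent.H73LP
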