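import Pool.Agent.H73LP.Gen2

/-!
# Lifts, with the induced isomorphism
-/

set_option autoImplicit false
set_option linter.unusedSectionVars false

namespace Pool.Agent.H73LP

open Matrix Pool.Agent.H73AM

variable {ι κ : Type} [Fintype ι] [Fintype κ] [DecidableEq ι] [DecidableEq κ]

/-- Change of `U`. -/
theorem changeU2 {Z : Matrix κ ι ℤ} {B : Matrix κ κ ℤ} (hZ : ∀ a j, 0 ≤ Z a j) (hs : ∀ j, 1 ≤ ∑ a, Z a j)
    {G : Matrix ι ι ℤ} (hG : Kills Z G) (hGB : Z * G = B * Z) {c : ℤ} (hc0 : 0 ≤ c) (hc : ∀ i j, |G i j| ≤ c)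
    {U U' : Matrix ι κ ℤ} (hU : ∀ i a, c ≤ U i a) (hU' : ∀ i a, c ≤ U' i a)
    (hUU : Z * U = Z * U') : LZ (B + Z * U) Z Z (G + U * Z) (G + U' * Z) := by
  have main : ∀ T : Finset κ, LZ (B + Z * U) Z Z (G + U * Z)
      (G + (Matrix.of fun i a => if a ∈ T then U' i a else U i a) * Z) := by
    intro T
    induction T using Finset.induction with
    | empty =>
      have : (Matrix.of fun i a => if a ∈ (∅ : Finset κ) then U' i a else U i a) = U := by
        ext i a
        simp
      rw [this]
      exact LZ.refl (add_nonneg' hZ hs hc0 hc hU)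
    | insert a T ha ih =>
      refine ih.trans ?_
      set UT : Matrix ι κ ℤ := Matrix.of fun i a => if a ∈ T then U' i a else U i a with hUT
      set UT' : Matrix ι κ ℤ := Matrix.of fun i b => if b ∈ insert a T then U' i b else U i b
        with hUT'
      have hUTc : ∀ i b, c ≤ UT i b := by
        intro i b
        rw [hUT, Matrix.of_apply]
        split_ifs
        · exact hU' i b
        · exact hU i b
      have hUTc' : ∀ i b, c ≤ UT' i b := by
        intro i b
        rw [hUT', Matrix.of_apply]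
        split_ifs
        · exact hU' i b
        · exact hU i b
      set x : ι → ℤ := fun i => U i a - U' i a with hx
      have hZx : Z.mulVec x = 0 := by
        ext b
        have h1 := congrFun (congrFun hUU b) a
        rw [Matrix.mul_apply, Matrix.mul_apply] at h1
        simp only [Matrix.mulVec, dotProduct, hx, mul_sub, Finset.sum_sub_distrib, h1, sub_self,
          Pi.zero_apply]
      have hdiff : UT - UT' = Matrix.vecMulVec x (fun b => if b = a then 1 else 0) := by
        ext i b
        rw [Matrix.sub_apply, Matrix.vecMulVec_apply, hUT, hUT', Matrix.of_apply,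
          Matrix.of_apply, hx]
        by_cases hb : b = a
        · subst hb
          simp [ha]
        · simp [hb]
      have hDe : G + UT' * Z = (G + UT * Z) - Matrix.vecMulVec x (fun j => Z a j) := by
        have h1 : UT * Z - UT' * Z = Matrix.vecMulVec x (fun j => Z a j) := by
          rw [← Matrix.sub_mul, hdiff, Matrix.vecMulVec_mul]
          congr 1
          ext j
          simp [Matrix.vecMul, dotProduct]
        rw [← h1]
        abel
      rw [hDe]
      have hZT : Z * UT = Z * U := by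
        ext b a'
        have h1 := congrFun (congrFun hUU b) a'
        rw [Matrix.mul_apply, Matrix.mul_apply] at h1
        rw [Matrix.mul_apply, Matrix.mul_apply]
        by_cases hb : a' ∈ T
        · rw [h1]
          exact Finset.sum_congr rfl fun i _ => by rw [hUT, Matrix.of_apply, if_pos hb]
        · exact Finset.sum_congr rfl fun i _ => by rw [hUT, Matrix.of_apply, if_neg hb]
      apply LZ.elim
      · rw [Matrix.mul_add, hGB, ← Matrix.mul_assoc, hZT, Matrix.add_mul]
      · exact add_nonneg' hZ hs hc0 hc hUTc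
      · exact fun j => hZ a j
      · rw [Matrix.add_mulVec, hG x hZx, ← Matrix.mulVec_mulVec, hZx, Matrix.mulVec_zero, add_zero]
      · exact congrFun hZx a
      · intro i j
        have h1 := add_nonneg' hZ hs hc0 hc hUTc' i j
        rw [hDe, Matrix.sub_apply, Matrix.vecMulVec_apply] at h1
        exact h1
  have h1 := main Finset.univ
  have : (Matrix.of fun i a => if a ∈ (Finset.univ : Finset κ) then U' i a else U i a) = U' := by
    ext i a
    simp
  rw [this] at h1
  exact h1

/-- Change of the lift. -/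
theorem changeG2 {Z : Matrix κ ι ℤ} {B : Matrix κ κ ℤ} (hZ : ∀ a j, 0 ≤ Z a j) (hs : ∀ j, 1 ≤ ∑ a, Z a j) (ρ : ℕ) :
    ∀ (G Δ : Matrix ι ι ℤ), Z * G = B * Z → Kills Z G → Kills Z Δ → Z * Δ = 0 →
    Module.finrank ℚ (LinearMap.range (Δ.map (Int.castRingHom ℚ)).mulVecLin) ≤ ρ →
    ∃ K : ℤ, 0 ≤ K ∧ ∀ U : Matrix ι κ ℤ, (∀ i a, K ≤ U i a) →
      LZ (B + Z * U) Z Z (G + U * Z) (G - Δ + U * Z) := by
  induction ρ with
  | zero =>
    intro G Δ hGB hG _ _ hr
    have hΔ : Δ = 0 := by
      have h1 : LinearMap.range (Δ.map (Int.castRingHom ℚ)).mulVecLin = ⊥ := by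
        rw [← Submodule.finrank_eq_zero (R := ℚ)]
        omega
      ext i j
      have h2 : (Δ.map (Int.castRingHom ℚ)).mulVec (Pi.single j 1) = 0 := by
        have : (Δ.map (Int.castRingHom ℚ)).mulVecLin (Pi.single j 1) ∈
            LinearMap.range (Δ.map (Int.castRingHom ℚ)).mulVecLin := ⟨_, rfl⟩
        rw [h1, Submodule.mem_bot] at this
        exact this
      have h3 := congrFun h2 i
      simpa using h3
    obtain ⟨c, hc0, hc⟩ := exists_bound G
    refine ⟨c, hc0, fun U hU => ?_⟩
    rw [hΔ, sub_zero]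
    exact LZ.refl (add_nonneg' hZ hs hc0 hc hU)
  | succ ρ ih =>
    intro G Δ hGB hG hΔ hZΔ hr
    by_cases h0 : Δ = 0
    · obtain ⟨c, hc0, hc⟩ := exists_bound G
      refine ⟨c, hc0, fun U hU => ?_⟩
      rw [h0, sub_zero]
      exact LZ.refl (add_nonneg' hZ hs hc0 hc hU)
    · obtain ⟨i0, j0, hij⟩ : ∃ i j, Δ i j ≠ 0 := by
        by_contra hcon
        push Not at hcon
        exact h0 (Matrix.ext hcon)
      set w : ι → ℤ := Pi.single j0 1 with hw
      set z : ι → ℤ := Δ.mulVec w with hz
      have hz0 : z ≠ 0 := by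
        intro h
        apply hij
        have := congrFun h i0
        simpa [hz, hw] using this
      obtain ⟨g, x, φ, hg, hzx, hφ⟩ := prim_vec' z hz0
      have hZx : Z.mulVec x = 0 := by
        have h1 : g • Z.mulVec x = 0 := by
          rw [← Matrix.mulVec_smul, ← hzx, hz, Matrix.mulVec_mulVec, hZΔ, Matrix.zero_mulVec]
        exact (smul_eq_zero.1 h1).resolve_left hg
      set P : Matrix ι ι ℤ := 1 - Matrix.vecMulVec x φ with hP
      have hPx : P.mulVec x = 0 := by
        rw [hP, Matrix.sub_mulVec, Matrix.one_mulVec, Matrix.vecMulVec_mulVec]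
        ext i
        simp [hφ]
      set y0 : ι → ℤ := Matrix.vecMul φ Δ with hy0
      have hPΔ : P * Δ = Δ - Matrix.vecMulVec x y0 := by
        rw [hP, Matrix.sub_mul, Matrix.one_mul, Matrix.vecMulVec_mul]
      have hy0k : ∀ v : ι → ℤ, Z.mulVec v = 0 → y0 ⬝ᵥ v = 0 := by
        intro v hv
        rw [hy0, ← Matrix.dotProduct_mulVec, hΔ v hv, dotProduct_zero]
      have hvk : ∀ v : ι → ℤ, Z.mulVec v = 0 → (Matrix.vecMulVec x y0).mulVec v = 0 := by
        intro v hv
        rw [Matrix.vecMulVec_mulVec, hy0k v hv]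
        ext i
        simp
      have hG' : Kills Z (G - Matrix.vecMulVec x y0) := by
        intro v hv
        rw [Matrix.sub_mulVec, hG v hv, hvk v hv, sub_zero]
      have hGB' : Z * (G - Matrix.vecMulVec x y0) = B * Z := by
        rw [Matrix.mul_sub, hGB, Matrix.mul_vecMulVec, hZx]
        ext i j
        simp
      have hΔ' : Kills Z (P * Δ) := by
        intro v hv
        rw [hPΔ, Matrix.sub_mulVec, hΔ v hv, hvk v hv, sub_zero]
      have hZΔ' : Z * (P * Δ) = 0 := by
        rw [hPΔ, Matrix.mul_sub, hZΔ, Matrix.mul_vecMulVec, hZx]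
        ext i j
        simp [Matrix.vecMulVec_apply]
      have hr' : Module.finrank ℚ (LinearMap.range ((P * Δ).map
          (Int.castRingHom ℚ)).mulVecLin) ≤ ρ := by
        have e1 : LinearMap.range ((P * Δ).map (Int.castRingHom ℚ)).mulVecLin
            = (LinearMap.range (Δ.map (Int.castRingHom ℚ)).mulVecLin).map
              (P.map (Int.castRingHom ℚ)).mulVecLin := by
          rw [Matrix.map_mul, Matrix.mulVecLin_mul, LinearMap.range_comp]
        rw [e1]
        have h1 := finrank_map_lt (LinearMap.range (Δ.map (Int.castRingHom ℚ)).mulVecLin)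
          (P.map (Int.castRingHom ℚ)).mulVecLin (cv z) ⟨cv w, cv_mulVec Δ w⟩ (cv_ne hz0) (by
            show (P.map (Int.castRingHom ℚ)).mulVec (cv z) = 0
            rw [cv_mulVec, hzx, Matrix.mulVec_smul, hPx, smul_zero, cv_zero])
        omega
      obtain ⟨K', hK'0, hK'⟩ := ih (G - Matrix.vecMulVec x y0) (P * Δ) hGB' hG' hΔ' hZΔ' hr'
      obtain ⟨c, hc0, hc⟩ := exists_bound_vec y0
      obtain ⟨X, hX0, hX⟩ := exists_bound_vec x
      obtain ⟨c1, hc10, hc1⟩ := exists_bound G
      obtain ⟨c2, hc20, hc2⟩ := exists_bound (G - Matrix.vecMulVec x y0)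
      refine ⟨K' + c * X + c1 + c2, by positivity, fun U hU => ?_⟩
      have hcX : 0 ≤ c * X := mul_nonneg hc0 hX0
      set U' : Matrix ι κ ℤ := U - Matrix.vecMulVec (c • x) (fun _ => 1) with hU'
      have hU'c : ∀ i a, c2 ≤ U' i a := by
        intro i a
        rw [hU', Matrix.sub_apply, Matrix.vecMulVec_apply]
        have h1 := hU i a
        have h2 : c * x i ≤ c * X :=
          mul_le_mul_of_nonneg_left ((le_abs_self _).trans (hX i)) hc0
        simp only [Pi.smul_apply, smul_eq_mul, mul_one]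
        linarith
      set s : ι → ℤ := Matrix.vecMul (fun _ => 1) Z with hs'
      have hss : ∀ j, s j = ∑ a, Z a j := by
        intro j
        simp [hs', Matrix.vecMul, dotProduct]
      have hDe : (G + U * Z) - Matrix.vecMulVec x (y0 + c • s)
          = (G - Matrix.vecMulVec x y0) + U' * Z := by
        rw [hU', Matrix.sub_mul, Matrix.vecMulVec_mul]
        ext i j
        simp only [Matrix.add_apply, Matrix.sub_apply, Matrix.vecMulVec_apply, Pi.add_apply,
          Pi.smul_apply, smul_eq_mul, ← hs']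
        ring
      have hZU' : Z * U' = Z * U := by
        rw [hU', Matrix.mul_sub, Matrix.mul_vecMulVec, Matrix.mulVec_smul, hZx, smul_zero]
        ext i j
        simp
      have s1 : LZ (B + Z * U) Z Z (G + U * Z) ((G - Matrix.vecMulVec x y0) + U' * Z) := by
        rw [← hDe]
        apply LZ.elim
        · rw [Matrix.mul_add, hGB, ← Matrix.mul_assoc, Matrix.add_mul]
        · exact add_nonneg' hZ hs hc10 hc1 (fun i a => by have := hU i a; linarith)
        · intro j
          simp only [Pi.add_apply, Pi.smul_apply, smul_eq_mul]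
          rw [hss]
          have h1 := hs j
          have h2 := neg_abs_le (y0 j)
          have h3 := hc j
          nlinarith
        · rw [Matrix.add_mulVec, hG x hZx, ← Matrix.mulVec_mulVec, hZx, Matrix.mulVec_zero,
            add_zero]
        · rw [add_dotProduct, hy0k x hZx, smul_dotProduct, hs', ← Matrix.dotProduct_mulVec, hZx]
          simp
        · intro i j
          have h1 := add_nonneg' hZ hs hc20 hc2 hU'c i j
          rw [← hDe, Matrix.sub_apply, Matrix.vecMulVec_apply] at h1
          exact h1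
      have s2 : LZ (B + Z * U) Z Z ((G - Matrix.vecMulVec x y0) + U' * Z)
          ((G - Matrix.vecMulVec x y0) + U * Z) := by
        rw [← hZU']
        exact changeU2 hZ hs hG' hGB' hc20 hc2 hU'c (fun i a => by have := hU i a; linarith) hZU'
      have s3 := hK' U (fun i a => by have := hU i a; linarith)
      have e3 : G - Matrix.vecMulVec x y0 - P * Δ = G - Δ := by
        rw [hPΔ]
        abel
      rw [e3] at s3
      exact (s1.trans s2).trans s3

/-- Reduction of a lift which is nilpotent on the kernel of `Z` to one vanishing on it. -/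
theorem kill2 {Z : Matrix κ ι ℤ} (hZ : ∀ a j, 0 ≤ Z a j) (hs : ∀ j, 1 ≤ ∑ a, Z a j)
    (B : Matrix κ κ ℤ) (ρ : ℕ) :
    ∀ (C : Matrix ι ι ℤ), Z * C = B * Z →
    (∃ t : ℕ, ∀ x : ι → ℤ, Z.mulVec x = 0 → (C ^ t).mulVec x = 0) →
    Module.finrank ℚ ((LinearMap.ker (Z.map (Int.castRingHom ℚ)).mulVecLin).map
      (C.map (Int.castRingHom ℚ)).mulVecLin) ≤ ρ →
    ∃ (G : Matrix ι ι ℤ) (x0 : ι → ℤ) (K : ℤ), Kills Z G ∧ Z * G = B * Z ∧
      Z.mulVec x0 = 0 ∧ 0 ≤ K ∧ ∀ U : Matrix ι κ ℤ, (∀ i a, K ≤ U i a) →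
        LZ (B + Z * U) Z Z (C + U * Z) (G + (U - Matrix.vecMulVec x0 (fun _ => 1)) * Z) := by
  have hkilled : ∀ C : Matrix ι ι ℤ, Z * C = B * Z → Kills Z C →
      ∃ (G : Matrix ι ι ℤ) (x0 : ι → ℤ) (K : ℤ), Kills Z G ∧ Z * G = B * Z ∧
      Z.mulVec x0 = 0 ∧ 0 ≤ K ∧ ∀ U : Matrix ι κ ℤ, (∀ i a, K ≤ U i a) →
        LZ (B + Z * U) Z Z (C + U * Z) (G + (U - Matrix.vecMulVec x0 (fun _ => 1)) * Z) := by
    intro C hC hk
    obtain ⟨c, hc0, hc⟩ := exists_bound C
    refine ⟨C, 0, c, hk, hC, Matrix.mulVec_zero _, hc0, fun U hU => ?_⟩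
    have : U - Matrix.vecMulVec (0 : ι → ℤ) (fun _ : κ => (1 : ℤ)) = U := by
      ext i a
      simp [Matrix.vecMulVec_apply]
    rw [this]
    exact LZ.refl (add_nonneg' hZ hs hc0 hc hU)
  induction ρ with
  | zero =>
    intro C hC _ hr
    apply hkilled C hC
    intro x hx
    by_contra hne
    have h1 : (LinearMap.ker (Z.map (Int.castRingHom ℚ)).mulVecLin).map
        (C.map (Int.castRingHom ℚ)).mulVecLin = ⊥ := by
      rw [← Submodule.finrank_eq_zero (R := ℚ)]
      omega
    have h2 : cv (C.mulVec x) ∈ (LinearMap.ker (Z.map (Int.castRingHom ℚ)).mulVecLin).map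
        (C.map (Int.castRingHom ℚ)).mulVecLin := by
      refine ⟨cv x, ?_, cv_mulVec C x⟩
      show (Z.map (Int.castRingHom ℚ)).mulVec (cv x) = 0
      rw [cv_mulVec, hx, cv_zero]
    rw [h1, Submodule.mem_bot] at h2
    exact cv_ne hne h2
  | succ ρ ih =>
    intro C hC hnil hr
    by_cases hk : Kills Z C
    · exact hkilled C hC hk
    · obtain ⟨w0, hw0, hCw0⟩ : ∃ w : ι → ℤ, Z.mulVec w = 0 ∧ C.mulVec w ≠ 0 := by
        by_contra hcon
        push Not at hcon
        exact hk hcon
      obtain ⟨t, ht⟩ := hnil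
      have hinv : ∀ (j : ℕ) (v : ι → ℤ), Z.mulVec v = 0 → Z.mulVec ((C ^ j).mulVec v) = 0 := by
        intro j
        induction j with
        | zero => intro v hv; simpa using hv
        | succ j ihj =>
          intro v hv
          rw [pow_succ', ← Matrix.mulVec_mulVec, Matrix.mulVec_mulVec, hC, ← Matrix.mulVec_mulVec,
            ihj v hv, Matrix.mulVec_zero]
      obtain ⟨m, hm1, hm2⟩ : ∃ m, (C ^ (m + 1)).mulVec w0 ≠ 0 ∧ (C ^ (m + 2)).mulVec w0 = 0 := by
        have hex : ∃ l, (C ^ l).mulVec w0 = 0 := ⟨t, ht w0 hw0⟩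
        have hl := Nat.find_spec hex
        have hmin : ∀ l, l < Nat.find hex → (C ^ l).mulVec w0 ≠ 0 := fun l h => Nat.find_min hex h
        have h2 : 2 ≤ Nat.find hex := by
          by_contra hcon
          push Not at hcon
          rcases Nat.lt_succ_iff.1 hcon |>.lt_or_eq with h | h
          · have h3 : Nat.find hex = 0 := by omega
            rw [h3, pow_zero, Matrix.one_mulVec] at hl
            apply hCw0
            rw [hl, Matrix.mulVec_zero]
          · rw [h, pow_one] at hl
            exact hCw0 hl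
        obtain ⟨m, hm⟩ := Nat.exists_eq_add_of_le h2
        refine ⟨m, hmin _ (by omega), ?_⟩
        rw [show m + 2 = Nat.find hex by omega]
        exact hl
      set w : ι → ℤ := (C ^ m).mulVec w0 with hw
      have hZw : Z.mulVec w = 0 := hinv m w0 hw0
      set z : ι → ℤ := C.mulVec w with hz
      have hz1 : z = (C ^ (m + 1)).mulVec w0 := by
        rw [hz, hw, Matrix.mulVec_mulVec, ← pow_succ']
      have hz0 : z ≠ 0 := by rw [hz1]; exact hm1
      have hCz : C.mulVec z = 0 := by
        rw [hz1, Matrix.mulVec_mulVec, ← pow_succ']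
        exact hm2
      have hZz : Z.mulVec z = 0 := by rw [hz1]; exact hinv _ _ hw0
      obtain ⟨g, x, φ, hg, hzx, hφ⟩ := prim_vec' z hz0
      have hZx : Z.mulVec x = 0 := by
        have h1 : g • Z.mulVec x = 0 := by
          rw [← Matrix.mulVec_smul, ← hzx, hZz]
        exact (smul_eq_zero.1 h1).resolve_left hg
      have hCx : C.mulVec x = 0 := by
        have h1 : g • C.mulVec x = 0 := by
          rw [← Matrix.mulVec_smul, ← hzx, hCz]
        exact (smul_eq_zero.1 h1).resolve_left hg
      set P : Matrix ι ι ℤ := 1 - Matrix.vecMulVec x φ with hP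
      have hPx : P.mulVec x = 0 := by
        rw [hP, Matrix.sub_mulVec, Matrix.one_mulVec, Matrix.vecMulVec_mulVec]
        ext i
        simp [hφ]
      have hCP : C * P = C := by
        rw [hP, Matrix.mul_sub, Matrix.mul_one, Matrix.mul_vecMulVec, hCx]
        ext i j
        simp
      set y0 : ι → ℤ := Matrix.vecMul φ C with hy0
      have hPC : P * C = C - Matrix.vecMulVec x y0 := by
        rw [hP, Matrix.sub_mul, Matrix.one_mul, Matrix.vecMulVec_mul]
      have hC' : Z * (P * C) = B * Z := by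
        rw [hPC, Matrix.mul_sub, hC, Matrix.mul_vecMulVec, hZx]
        ext i j
        simp
      have hnil' : ∃ t : ℕ, ∀ v : ι → ℤ, Z.mulVec v = 0 → ((P * C) ^ t).mulVec v = 0 := by
        refine ⟨t + 1, fun v hv => ?_⟩
        have hpow : ∀ t, (P * C) ^ (t + 1) = P * C ^ (t + 1) := by
          intro t
          induction t with
          | zero => simp
          | succ t ih =>
            rw [pow_succ, ih, pow_succ C (t + 1)]
            calc P * C ^ (t + 1) * (P * C) = P * (C ^ t * (C * P) * C) := by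
                  rw [pow_succ]; noncomm_ring
              _ = P * (C ^ (t + 1) * C) := by rw [hCP, pow_succ]
        rw [hpow, pow_succ', ← Matrix.mulVec_mulVec, ← Matrix.mulVec_mulVec, ht v hv,
          Matrix.mulVec_zero, Matrix.mulVec_zero]
      have hr' : Module.finrank ℚ ((LinearMap.ker (Z.map (Int.castRingHom ℚ)).mulVecLin).map
          ((P * C).map (Int.castRingHom ℚ)).mulVecLin) ≤ ρ := by
        have e1 : (LinearMap.ker (Z.map (Int.castRingHom ℚ)).mulVecLin).map
            ((P * C).map (Int.castRingHom ℚ)).mulVecLin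
            = ((LinearMap.ker (Z.map (Int.castRingHom ℚ)).mulVecLin).map
              (C.map (Int.castRingHom ℚ)).mulVecLin).map
              (P.map (Int.castRingHom ℚ)).mulVecLin := by
          rw [Matrix.map_mul, Matrix.mulVecLin_mul, Submodule.map_comp]
        rw [e1]
        have h1 := finrank_map_lt ((LinearMap.ker (Z.map (Int.castRingHom ℚ)).mulVecLin).map
              (C.map (Int.castRingHom ℚ)).mulVecLin)
          (P.map (Int.castRingHom ℚ)).mulVecLin (cv z) ⟨cv w, (by
            show (Z.map (Int.castRingHom ℚ)).mulVec (cv w) = 0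
            rw [cv_mulVec, hZw, cv_zero]), cv_mulVec C w⟩ (cv_ne hz0) (by
            show (P.map (Int.castRingHom ℚ)).mulVec (cv z) = 0
            rw [cv_mulVec, hzx, Matrix.mulVec_smul, hPx, smul_zero, cv_zero])
        omega
      obtain ⟨G, x0, K', hGk, hGZ, hZx0, hK'0, hK'⟩ := ih (P * C) hC' hnil' hr'
      obtain ⟨c, hc0, hc⟩ := exists_bound_vec y0
      obtain ⟨X, hX0, hX⟩ := exists_bound_vec x
      obtain ⟨c1, hc10, hc1⟩ := exists_bound C
      obtain ⟨c2, hc20, hc2⟩ := exists_bound (P * C)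
      refine ⟨G, c • x + x0, K' + c * X + c1 + c2, hGk, hGZ, ?_, by positivity, fun U hU => ?_⟩
      · rw [Matrix.mulVec_add, Matrix.mulVec_smul, hZx, hZx0, smul_zero, add_zero]
      have hcX : 0 ≤ c * X := mul_nonneg hc0 hX0
      set U' : Matrix ι κ ℤ := U - Matrix.vecMulVec (c • x) (fun _ => 1) with hU'
      have hU'c : ∀ i a, K' + c2 ≤ U' i a := by
        intro i a
        rw [hU', Matrix.sub_apply, Matrix.vecMulVec_apply]
        have h1 := hU i a
        have h2 : c * x i ≤ c * X :=
          mul_le_mul_of_nonneg_left ((le_abs_self _).trans (hX i)) hc0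
        simp only [Pi.smul_apply, smul_eq_mul, mul_one]
        linarith
      set s : ι → ℤ := Matrix.vecMul (fun _ => 1) Z with hs'
      have hss : ∀ j, s j = ∑ a, Z a j := by
        intro j
        simp [hs', Matrix.vecMul, dotProduct]
      have hDe : (C + U * Z) - Matrix.vecMulVec x (y0 + c • s) = P * C + U' * Z := by
        rw [hU', hPC, Matrix.sub_mul, Matrix.vecMulVec_mul]
        ext i j
        simp only [Matrix.add_apply, Matrix.sub_apply, Matrix.vecMulVec_apply, Pi.add_apply,
          Pi.smul_apply, smul_eq_mul, ← hs']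
        ring
      have hZU' : Z * U' = Z * U := by
        rw [hU', Matrix.mul_sub, Matrix.mul_vecMulVec, Matrix.mulVec_smul, hZx, smul_zero]
        ext i j
        simp
      have s1 : LZ (B + Z * U) Z Z (C + U * Z) (P * C + U' * Z) := by
        rw [← hDe]
        apply LZ.elim
        · rw [Matrix.mul_add, hC, ← Matrix.mul_assoc, Matrix.add_mul]
        · exact add_nonneg' hZ hs hc10 hc1 (fun i a => by have := hU i a; linarith)
        · intro j
          simp only [Pi.add_apply, Pi.smul_apply, smul_eq_mul]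
          rw [hss]
          have h1 := hs j
          have h2 := neg_abs_le (y0 j)
          have h3 := hc j
          nlinarith
        · rw [Matrix.add_mulVec, hCx, ← Matrix.mulVec_mulVec, hZx, Matrix.mulVec_zero,
            add_zero]
        · rw [add_dotProduct, hy0, ← Matrix.dotProduct_mulVec, hCx, smul_dotProduct, hs',
            ← Matrix.dotProduct_mulVec, hZx]
          simp
        · intro i j
          have h1 := add_nonneg' hZ hs hc20 hc2
            (fun i a => by have := hU'c i a; linarith : ∀ i a, c2 ≤ U' i a) i j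
          rw [← hDe, Matrix.sub_apply, Matrix.vecMulVec_apply] at h1
          exact h1
      have s2 := hK' U' (fun i a => by have := hU'c i a; linarith)
      have e3 : U' - Matrix.vecMulVec x0 (fun _ : κ => (1 : ℤ))
          = U - Matrix.vecMulVec (c • x + x0) (fun _ => 1) := by
        rw [hU']
        ext i a
        simp only [Matrix.sub_apply, Matrix.vecMulVec_apply, Pi.add_apply]
        ring
      rw [e3, hZU'] at s2
      exact s1.trans s2

/-- **Independence of the lift.** -/
theorem lifts2 {Z : Matrix κ ι ℤ} (hZ : ∀ a j, 0 ≤ Z a j) (hs : ∀ j, 1 ≤ ∑ a, Z a j)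
    (B : Matrix κ κ ℤ) (C C' : Matrix ι ι ℤ) (hC : Z * C = B * Z) (hC' : Z * C' = B * Z)
    (hn : ∃ t : ℕ, ∀ x : ι → ℤ, Z.mulVec x = 0 → (C ^ t).mulVec x = 0)
    (hn' : ∃ t : ℕ, ∀ x : ι → ℤ, Z.mulVec x = 0 → (C' ^ t).mulVec x = 0) :
    ∃ K : ℤ, 0 ≤ K ∧ ∀ U U' : Matrix ι κ ℤ, (∀ i a, K ≤ U i a) → (∀ i a, K ≤ U' i a) →
      Z * U = Z * U' → LZ (B + Z * U) Z Z (C + U * Z) (C' + U' * Z) := by
  obtain ⟨G, x0, K1, hGk, hGZ, hZx, hK10, hK1⟩ := kill2 hZ hs B _ C hC hn le_rfl
  obtain ⟨G', x0', K2, hGk', hGZ', hZx', hK20, hK2⟩ := kill2 hZ hs B _ C' hC' hn' le_rfl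
  have hΔk : Kills Z (G - G') := by
    intro v hv
    rw [Matrix.sub_mulVec, hGk v hv, hGk' v hv, sub_zero]
  have hΔZ : Z * (G - G') = 0 := by rw [Matrix.mul_sub, hGZ, hGZ', sub_self]
  obtain ⟨K3, hK30, hK3⟩ := changeG2 (B := B) hZ hs _ G (G - G') hGZ hGk hΔk hΔZ le_rfl
  obtain ⟨c, hc0, hc⟩ := exists_bound G
  obtain ⟨X, hX0, hX⟩ := exists_bound_vec x0
  obtain ⟨X', hX'0, hX'⟩ := exists_bound_vec x0'
  refine ⟨K1 + K2 + K3 + c + X + X', by positivity, fun U U' hU hU' hUU => ?_⟩
  have s1 := hK1 U (fun i a => by have := hU i a; linarith)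
  have s2 := hK2 U' (fun i a => by have := hU' i a; linarith)
  have b1 : ∀ i a, c ≤ (U - Matrix.vecMulVec x0 (fun _ => 1) : Matrix ι κ ℤ) i a := by
    intro i a
    rw [Matrix.sub_apply, Matrix.vecMulVec_apply]
    have h1 := hU i a
    have h2 := (le_abs_self _).trans (hX i)
    linarith
  have b2 : ∀ i a, c + K3 ≤ (U' - Matrix.vecMulVec x0' (fun _ => 1) : Matrix ι κ ℤ) i a := by
    intro i a
    rw [Matrix.sub_apply, Matrix.vecMulVec_apply]
    have h1 := hU' i a
    have h2 := (le_abs_self _).trans (hX' i)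
    linarith
  have z1 : Z * (U - Matrix.vecMulVec x0 (fun _ => 1) : Matrix ι κ ℤ) = Z * U := by
    rw [Matrix.mul_sub, Matrix.mul_vecMulVec, hZx]
    ext i a
    simp
  have z2 : Z * (U' - Matrix.vecMulVec x0' (fun _ => 1) : Matrix ι κ ℤ) = Z * U := by
    rw [Matrix.mul_sub, Matrix.mul_vecMulVec, hZx', hUU]
    ext i a
    simp
  have s3 : LZ (B + Z * U) Z Z (G + (U - Matrix.vecMulVec x0 (fun _ => 1)) * Z)
      (G + (U' - Matrix.vecMulVec x0' (fun _ => 1)) * Z) := by
    have h := changeU2 hZ hs hGk hGZ hc0 hc b1 (fun i a => by have := b2 i a; linarith)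
      (z1.trans z2.symm)
    rw [z1] at h
    exact h
  have s4 := hK3 (U' - Matrix.vecMulVec x0' (fun _ => 1)) (fun i a => by
    have := b2 i a; linarith)
  have e : G - (G - G') = G' := by abel
  rw [e, z2] at s4
  rw [← hUU] at s2
  have s5 : LZ (B + Z * U) Z Z (G' + (U' - Matrix.vecMulVec x0' (fun _ => 1)) * Z)
      (C' + U' * Z) := by
    apply LZ.symm _ s2
    rw [Matrix.mul_add, hC', ← Matrix.mul_assoc, Matrix.add_mul, hUU]
  exact ((s1.trans s3).trans s4).trans s5

end Pool.Agent.H73LP
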