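import Pool.Agent.H73LP.Chain
import Pool.Agent.H73LP.ChainDef

/-!
# Shift equivalence and large perturbations
-/

set_option autoImplicit false
set_option linter.unusedSectionVars false

namespace Pool.Agent.H73LP

open Matrix Pool.Agent.H73AM

theorem toZ_mul {ι κ μ : Type} [Fintype κ] (A : Matrix ι κ ℕ) (B : Matrix κ μ ℕ) :
    toZ (A * B) = toZ A * toZ B := Matrix.map_mul

theorem toZ_add {ι κ : Type} (A B : Matrix ι κ ℕ) : toZ (A + B) = toZ A + toZ B := by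
  ext i j
  simp [toZ]

theorem toZ_pow {ι : Type} [Fintype ι] [DecidableEq ι] (A : Matrix ι ι ℕ) (t : ℕ) :
    toZ (A ^ t) = toZ A ^ t := Matrix.map_pow A (Nat.castRingHom ℤ) t

theorem toZ_nonneg {ι κ : Type} (A : Matrix ι κ ℕ) (i : ι) (j : κ) : 0 ≤ toZ A i j :=
  Int.natCast_nonneg _

theorem ZS.sse {n m : ℕ} {A : Matrix (Fin n) (Fin n) ℕ} {B : Matrix (Fin m) (Fin m) ℕ}
    (h : ZS (toZ A) (toZ B)) : SSE A B := by
  obtain ⟨n', m', e, f, A1, B1, hA, hB, hS⟩ := h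
  have hn : n = n' := by simpa using Fintype.card_congr e
  have hm : m = m' := by simpa using Fintype.card_congr f
  subst hn hm
  have h1 : SSE A A1 := SSE.of_perm e.symm fun i j => by
    have := hA (e.symm i) (e.symm j)
    simp only [Equiv.apply_symm_apply] at this
    exact Int.natCast_inj.1 this
  have h2 : SSE B1 B := SSE.of_perm f fun i j => (Int.natCast_inj.1 (hB i j)).symm
  exact (h1.trans hS).trans h2

theorem sum_pos_of {ι : Type} [Fintype ι] (f : ι → ℕ) (h : ∃ i, f i ≠ 0) :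
    1 ≤ ∑ i, ((f i : ℕ) : ℤ) := by
  obtain ⟨i, hi⟩ := h
  have h1 : f i ≤ ∑ i, f i := Finset.single_le_sum (fun _ _ => Nat.zero_le _) (Finset.mem_univ i)
  have h2 : 1 ≤ ∑ i, f i := by omega
  exact_mod_cast h2

/-- No zero row. -/
def RowOK {n m : ℕ} (A : Matrix (Fin n) (Fin m) ℕ) : Prop := ∀ i, ∃ j, A i j ≠ 0

/-- No zero column. -/
def ColOK {n m : ℕ} (A : Matrix (Fin n) (Fin m) ℕ) : Prop := ∀ j, ∃ i, A i j ≠ 0

theorem RowOK.mul {n m p : ℕ} {A : Matrix (Fin n) (Fin m) ℕ} {B : Matrix (Fin m) (Fin p) ℕ}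
    (hA : RowOK A) (hB : RowOK B) : RowOK (A * B) := by
  intro i
  obtain ⟨j, hj⟩ := hA i
  obtain ⟨k, hk⟩ := hB j
  refine ⟨k, ?_⟩
  rw [Matrix.mul_apply]
  intro h
  have h1 := (Finset.sum_eq_zero_iff.1 h) j (Finset.mem_univ j)
  rcases Nat.mul_eq_zero.1 h1 with h2 | h2
  · exact hj h2
  · exact hk h2

theorem ColOK.mul {n m p : ℕ} {A : Matrix (Fin n) (Fin m) ℕ} {B : Matrix (Fin m) (Fin p) ℕ}
    (hA : ColOK A) (hB : ColOK B) : ColOK (A * B) := by
  intro k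
  obtain ⟨j, hj⟩ := hB k
  obtain ⟨i, hi⟩ := hA j
  refine ⟨i, ?_⟩
  rw [Matrix.mul_apply]
  intro h
  have h1 := (Finset.sum_eq_zero_iff.1 h) j (Finset.mem_univ j)
  rcases Nat.mul_eq_zero.1 h1 with h2 | h2
  · exact hi h2
  · exact hj h2

theorem RowOK.pow {n : ℕ} {A : Matrix (Fin n) (Fin n) ℕ} (hA : RowOK A) (t : ℕ) :
    RowOK (A ^ t) := by
  induction t with
  | zero => intro i; exact ⟨i, by simp⟩
  | succ t ih => rw [pow_succ]; exact ih.mul hA

theorem ColOK.pow {n : ℕ} {A : Matrix (Fin n) (Fin n) ℕ} (hA : ColOK A) (t : ℕ) :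
    ColOK (A ^ t) := by
  induction t with
  | zero => intro i; exact ⟨i, by simp⟩
  | succ t ih => rw [pow_succ]; exact ih.mul hA

theorem colOK_right {n m p : ℕ} {A : Matrix (Fin n) (Fin m) ℕ} {B : Matrix (Fin m) (Fin p) ℕ}
    (h : ColOK (A * B)) : ColOK B := by
  intro k
  by_contra hcon
  push Not at hcon
  obtain ⟨i, hi⟩ := h k
  apply hi
  rw [Matrix.mul_apply]
  exact Finset.sum_eq_zero fun j _ => by rw [hcon j, mul_zero]

theorem rowOK_left {n m p : ℕ} {A : Matrix (Fin n) (Fin m) ℕ} {B : Matrix (Fin m) (Fin p) ℕ}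
    (h : RowOK (A * B)) : RowOK A := by
  intro i
  by_contra hcon
  push Not at hcon
  obtain ⟨k, hk⟩ := h i
  apply hk
  rw [Matrix.mul_apply]
  exact Finset.sum_eq_zero fun j _ => by rw [hcon j, zero_mul]

/-- **Large perturbations along a shift equivalence are strong shift equivalent.** -/
theorem main {n m l : ℕ} (hl : 1 ≤ l) (A : Matrix (Fin n) (Fin n) ℕ)
    (B : Matrix (Fin m) (Fin m) ℕ) (R : Matrix (Fin n) (Fin m) ℕ) (S : Matrix (Fin m) (Fin n) ℕ)
    (h1 : A ^ l = R * S) (h2 : B ^ l = S * R) (h3 : S * A = B * S) (hA : ColOK A)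
    (hBc : ColOK B) (hBr : RowOK B) :
    ∃ K : ℕ, ∀ W : Matrix (Fin n) (Fin m) ℕ, (∀ i j, K ≤ W i j) →
      SSE (A + W * S) (B + S * W) := by
  have hSc : ColOK S := colOK_right (h1 ▸ hA.pow l : ColOK (R * S))
  obtain ⟨l, rfl⟩ : ∃ l', l = l' + 1 := ⟨l - 1, by omega⟩
  obtain ⟨K, hK0, hK⟩ := chain (toZ B) (toZ_nonneg B) (fun j => sum_pos_of _ (hBc j))
    (fun i => sum_pos_of _ (hBr i)) l (Fin n) (toZ S) (toZ A) (toZ R) (toZ_nonneg S)
    (fun j => sum_pos_of _ (hSc j)) (toZ_nonneg R)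
    (by rw [← toZ_mul, h3, toZ_mul])
    ⟨l + 1, fun x hx => by
      rw [← toZ_pow, h1, toZ_mul, ← Matrix.mulVec_mulVec, hx, Matrix.mulVec_zero]⟩
    (by rw [← toZ_mul, ← h2, toZ_pow])
  refine ⟨K.toNat, fun W hW => ?_⟩
  apply ZS.sse
  rw [toZ_add, toZ_add, toZ_mul, toZ_mul]
  apply hK
  intro i a
  have h4 := hW i a
  have h5 : K ≤ ((K.toNat : ℕ) : ℤ) := Int.self_le_toNat K
  have h6 : ((K.toNat : ℕ) : ℤ) ≤ ((W i a : ℕ) : ℤ) := by exact_mod_cast h4
  exact h5.trans h6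

section poly

open Polynomial

variable {n m : ℕ}

theorem inter_pow {A : Matrix (Fin n) (Fin n) ℕ} {B : Matrix (Fin m) (Fin m) ℕ}
    {S : Matrix (Fin m) (Fin n) ℕ} (h : S * A = B * S) (t : ℕ) : S * A ^ t = B ^ t * S := by
  induction t with
  | zero => simp
  | succ t ih => rw [pow_succ, ← Matrix.mul_assoc, ih, Matrix.mul_assoc, h, ← Matrix.mul_assoc,
      ← pow_succ]

theorem inter_poly {A : Matrix (Fin n) (Fin n) ℕ} {B : Matrix (Fin m) (Fin m) ℕ}
    {S : Matrix (Fin m) (Fin n) ℕ} (h : S * A = B * S) (f : ℕ[X]) :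
    S * aeval A f = aeval B f * S := by
  induction f using Polynomial.induction_on' with
  | add p q hp hq => rw [map_add, map_add, Matrix.mul_add, Matrix.add_mul, hp, hq]
  | monomial t a =>
    rw [aeval_monomial, aeval_monomial, ← Algebra.smul_def, ← Algebra.smul_def,
      Matrix.mul_smul, Matrix.smul_mul, inter_pow h]

theorem poly_ge (B : Matrix (Fin m) (Fin m) ℕ) (q : ℕ[X]) (d : ℕ) (hd : q.coeff d ≠ 0)
    (i j : Fin m) : (B ^ d) i j ≤ (aeval B q) i j := by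
  rw [aeval_eq_sum_range, Matrix.sum_apply]
  have h1 : d ∈ Finset.range (q.natDegree + 1) := by
    rw [Finset.mem_range]
    have := le_natDegree_of_ne_zero hd
    omega
  calc (B ^ d) i j ≤ (q.coeff d • B ^ d) i j := by
        rw [Matrix.smul_apply, smul_eq_mul]
        exact Nat.le_mul_of_pos_left _ (Nat.pos_of_ne_zero hd)
    _ ≤ _ := Finset.single_le_sum (f := fun k => (q.coeff k • B ^ k) i j)
        (fun _ _ => Nat.zero_le _) h1

/-- Growth of the powers. -/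
theorem growth {B : Matrix (Fin m) (Fin m) ℕ} (h : ∃ s, ∀ i j, 2 ≤ (B ^ s) i j) (K : ℕ) :
    ∃ t0, ∀ t, t0 ≤ t → ∀ i j, K ≤ (B ^ t) i j := by
  obtain ⟨s, hs⟩ := h
  rcases Nat.eq_zero_or_pos m with hm | hm
  · subst hm
    exact ⟨0, fun _ _ i => i.elim0⟩
  have hne : NeZero m := ⟨by omega⟩
  have h1 : ∀ c i j, 2 ^ (c + 1) ≤ (B ^ (s * (c + 1))) i j := by
    intro c
    induction c with
    | zero => intro i j; simpa using hs i j
    | succ c ih =>
      intro i j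
      rw [show s * (c + 1 + 1) = s * (c + 1) + s by ring, pow_add B, Matrix.mul_apply]
      calc 2 ^ (c + 1 + 1) = 2 ^ (c + 1) * 2 := pow_succ _ _
        _ ≤ (B ^ (s * (c + 1))) i 0 * (B ^ s) 0 j := Nat.mul_le_mul (ih i 0) (hs 0 j)
        _ ≤ _ := Finset.single_le_sum (f := fun k => (B ^ (s * (c + 1))) i k * (B ^ s) k j)
            (fun _ _ => Nat.zero_le _) (Finset.mem_univ 0)
  have hs0 : RowOK (B ^ s) := fun i => ⟨0, by have := hs i 0; omega⟩
  rcases Nat.eq_zero_or_pos s with h0 | h0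
  · subst h0
    have := hs 0 0
    rw [pow_zero, Matrix.one_apply_eq] at this
    omega
  have hrow : RowOK B := by
    obtain ⟨s', rfl⟩ : ∃ s', s = s' + 1 := ⟨s - 1, by omega⟩
    rw [pow_succ'] at hs0
    exact rowOK_left hs0
  refine ⟨s * (K + 1), fun t ht i j => ?_⟩
  obtain ⟨d, rfl⟩ := Nat.exists_eq_add_of_le ht
  obtain ⟨k, hk⟩ := (hrow.pow d) i
  rw [add_comm, pow_add, Matrix.mul_apply]
  calc K ≤ 2 ^ (K + 1) := by
        have := Nat.lt_two_pow_self (n := K)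
        have h2 : 2 ^ K ≤ 2 ^ (K + 1) := Nat.pow_le_pow_right (by norm_num) (by omega)
        omega
    _ ≤ (B ^ d) i k * (B ^ (s * (K + 1))) k j :=
        (h1 K k j).trans (Nat.le_mul_of_pos_left _ (Nat.pos_of_ne_zero hk))
    _ ≤ _ := Finset.single_le_sum (f := fun k => (B ^ d) i k * (B ^ (s * (K + 1))) k j)
        (fun _ _ => Nat.zero_le _) (Finset.mem_univ k)

theorem colOK_of_two {B : Matrix (Fin m) (Fin m) ℕ} (h : ∃ s, ∀ i j, 2 ≤ (B ^ s) i j) :
    RowOK B ∧ ColOK B := by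
  obtain ⟨t0, ht0⟩ := growth h 1
  have h1 := ht0 (t0 + 1) (by omega)
  rcases Nat.eq_zero_or_pos m with hm | hm
  · subst hm
    exact ⟨fun i => i.elim0, fun i => i.elim0⟩
  have hne : NeZero m := ⟨by omega⟩
  constructor
  · apply rowOK_left (A := B) (B := B ^ t0)
    rw [← pow_succ']
    exact fun i => ⟨0, by have := h1 i 0; omega⟩
  · apply colOK_right (A := B ^ t0) (B := B)
    rw [← pow_succ]
    exact fun i => ⟨0, by have := h1 0 i; omega⟩

theorem ge_of_poly_row {B : Matrix (Fin m) (Fin m) ℕ} (hB : RowOK B) {f : ℕ[X]} (hf : f ≠ 0) :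
    RowOK (aeval B f) := by
  obtain ⟨d, hd⟩ : ∃ d, f.coeff d ≠ 0 := by
    by_contra hcon
    push Not at hcon
    exact hf (Polynomial.ext fun d => by rw [hcon d, coeff_zero])
  intro i
  obtain ⟨j, hj⟩ := (hB.pow d) i
  exact ⟨j, by have := poly_ge B f d hd i j; omega⟩

theorem ge_of_poly_col {B : Matrix (Fin m) (Fin m) ℕ} (hB : ColOK B) {f : ℕ[X]} (hf : f ≠ 0) :
    ColOK (aeval B f) := by
  obtain ⟨d, hd⟩ : ∃ d, f.coeff d ≠ 0 := by
    by_contra hcon
    push Not at hcon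
    exact hf (Polynomial.ext fun d => by rw [hcon d, coeff_zero])
  intro j
  obtain ⟨i, hi⟩ := (hB.pow d) j
  exact ⟨i, by have := poly_ge B f d hd i j; omega⟩

/-- **Polynomials in shift equivalent matrices.** -/
theorem poly {A : Matrix (Fin n) (Fin n) ℕ} {B : Matrix (Fin m) (Fin m) ℕ} (h : SE A B)
    (hA : ∃ s, ∀ i j, 2 ≤ (A ^ s) i j) (hB : ∃ s, ∀ i j, 2 ≤ (B ^ s) i j)
    (f : ℕ[X]) (hf : X ∣ f) :
    ∃ l0 : ℕ, ∀ g : ℕ[X], g ≠ 0 → X ^ l0 ∣ g → SSE (aeval A (f + g)) (aeval B (f + g)) := by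
  obtain ⟨l, R, S, hl, h1, h2, h3, h4⟩ := h
  obtain ⟨hAr, hAc⟩ := colOK_of_two hA
  obtain ⟨hBr, hBc⟩ := colOK_of_two hB
  by_cases hf0 : f = 0
  · refine ⟨l, fun g hg hlg => ?_⟩
    obtain ⟨q, rfl⟩ := hlg
    rw [hf0, zero_add]
    refine SSE.of_elem (R * aeval B q) S ?_ ?_
    · rw [map_mul, map_pow, aeval_X, h1, Matrix.mul_assoc, inter_poly h4 q, Matrix.mul_assoc]
    · rw [map_mul, map_pow, aeval_X, h2, Matrix.mul_assoc]
  · obtain ⟨f1, rfl⟩ := hf
    have e1 : (aeval A (X * f1)) ^ l = (R * (aeval B f1) ^ l) * S := by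
      rw [← map_pow, mul_pow, map_mul, map_pow, aeval_X, h1, Matrix.mul_assoc,
        inter_poly h4, map_pow, Matrix.mul_assoc]
    have e2 : (aeval B (X * f1)) ^ l = S * (R * (aeval B f1) ^ l) := by
      rw [← map_pow, mul_pow, map_mul, map_pow, aeval_X, h2, Matrix.mul_assoc, map_pow]
    have e3 : S * aeval A (X * f1) = aeval B (X * f1) * S := inter_poly h4 _
    obtain ⟨K, hK⟩ := main hl (aeval A (X * f1)) (aeval B (X * f1)) (R * (aeval B f1) ^ l) S
      e1 e2 e3 (ge_of_poly_col hAc hf0) (ge_of_poly_col hBc hf0) (ge_of_poly_row hBr hf0)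
    obtain ⟨t0, ht0⟩ := growth hB K
    refine ⟨l + t0, fun g hg hlg => ?_⟩
    obtain ⟨q, rfl⟩ := hlg
    have hq : q ≠ 0 := by
      rintro rfl
      exact hg (mul_zero _)
    obtain ⟨d, hd⟩ : ∃ d, q.coeff d ≠ 0 := by
      by_contra hcon
      push Not at hcon
      exact hq (Polynomial.ext fun d => by rw [hcon d, coeff_zero])
    have h5 := hK (R * (B ^ t0 * aeval B q)) (by
      intro i j
      have hR : RowOK R := rowOK_left (h1 ▸ hAr.pow l : RowOK (R * S))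
      obtain ⟨k, hk⟩ := hR i
      have h6 : K ≤ (B ^ t0 * aeval B q) k j := by
        have h7 := ht0 (t0 + d) (by omega) k j
        refine h7.trans ?_
        rw [pow_add, Matrix.mul_apply, Matrix.mul_apply]
        exact Finset.sum_le_sum fun x _ => Nat.mul_le_mul_left _ (poly_ge B q d hd x j)
      rw [Matrix.mul_apply]
      calc K ≤ R i k * (B ^ t0 * aeval B q) k j :=
            h6.trans (Nat.le_mul_of_pos_left _ (Nat.pos_of_ne_zero hk))
        _ ≤ _ := Finset.single_le_sum (f := fun k => R i k * (B ^ t0 * aeval B q) k j)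
            (fun _ _ => Nat.zero_le _) (Finset.mem_univ k))
    have e4 : R * (B ^ t0 * aeval B q) * S = aeval A (X ^ (l + t0) * q) := by
      have h6 : aeval B (X ^ t0 * q) = B ^ t0 * aeval B q := by
        rw [map_mul, map_pow, aeval_X]
      rw [← h6, Matrix.mul_assoc, ← inter_poly h4, ← Matrix.mul_assoc, ← h1, map_mul, map_mul,
        map_pow, map_pow, aeval_X, pow_add, Matrix.mul_assoc]
    have e5 : S * (R * (B ^ t0 * aeval B q)) = aeval B (X ^ (l + t0) * q) := by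
      rw [← Matrix.mul_assoc, ← h2, map_mul, map_pow, aeval_X, pow_add, Matrix.mul_assoc]
    rw [e4, e5, ← map_add, ← map_add] at h5
    exact h5

/-- `A + A ^ l` and `B + B ^ l` are strong shift equivalent for all large `l`. -/
theorem add_pow {A : Matrix (Fin n) (Fin n) ℕ} {B : Matrix (Fin m) (Fin m) ℕ} (h : SE A B)
    (hA : ∃ s, ∀ i j, 2 ≤ (A ^ s) i j) (hB : ∃ s, ∀ i j, 2 ≤ (B ^ s) i j) :
    ∃ l0 : ℕ, ∀ l, l0 ≤ l → SSE (A + A ^ l) (B + B ^ l) := by
  obtain ⟨l0, h0⟩ := poly h hA hB X (dvd_refl _)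
  refine ⟨l0, fun l hl => ?_⟩
  have h1 := h0 (X ^ l) (pow_ne_zero _ X_ne_zero) (pow_dvd_pow X hl)
  rw [map_add, map_add, map_pow, map_pow, aeval_X, aeval_X] at h1
  exact h1

end poly

end Pool.Agent.H73LP
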