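import Pool.Agent.H73LP.Chain2
import Pool.Agent.H73LP.Main

/-!
# Realisation of shift equivalences by strong shift equivalences of large perturbations
-/

set_option autoImplicit false
set_option linter.unusedSectionVars false

namespace Pool.Agent.H73LP

open Matrix Pool.Agent.H73AM

theorem Chain.submatrix {n m : ℕ} {A : Matrix (Fin n) (Fin n) ℕ} {B : Matrix (Fin m) (Fin m) ℕ}
    {P : Matrix (Fin n) (Fin m) ℕ} (h : Chain A B P) :
    ∀ {n' m' : ℕ} (e : Fin n' ≃ Fin n) (f : Fin m' ≃ Fin m),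
      Chain (A.submatrix e e) (B.submatrix f f) (P.submatrix e f) := by
  induction h with
  | one R S =>
    intro n' m' e f
    rw [← Matrix.submatrix_mul_equiv R S e f e, ← Matrix.submatrix_mul_equiv S R f e f]
    exact Chain.one _ _
  | @cons n m p R S C P _ ih =>
    intro n' m' e f
    have h1 := ih (Equiv.refl (Fin m)) f
    rw [← Matrix.submatrix_mul_equiv R S e (Equiv.refl (Fin m)) e,
      ← Matrix.submatrix_mul_equiv R P e (Equiv.refl (Fin m)) f]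
    apply Chain.cons
    rw [Matrix.submatrix_mul_equiv S R (Equiv.refl (Fin m)) e (Equiv.refl (Fin m))]
    exact h1

theorem ZC.chain {n m : ℕ} {A : Matrix (Fin n) (Fin n) ℕ} {B : Matrix (Fin m) (Fin m) ℕ}
    {P : Matrix (Fin n) (Fin m) ℤ} (h : ZC (toZ A) (toZ B) P) :
    ∃ P' : Matrix (Fin n) (Fin m) ℕ, toZ P' = P ∧ Chain A B P' := by
  obtain ⟨-, -, hP, hc⟩ := h
  refine ⟨Matrix.of fun i j => (P i j).toNat, ?_, ?_⟩
  · ext i j
    show ((((P i j).toNat : ℕ)) : ℤ) = _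
    exact Int.toNat_of_nonneg (hP i j)
  · have h1 := hc.submatrix (Fintype.equivFin (Fin n)) (Fintype.equivFin (Fin m))
    have e1 : (rI (toZ A)).submatrix (Fintype.equivFin (Fin n)) (Fintype.equivFin (Fin n))
        = A := by
      ext i j
      simp [rI, toZ]
    have e2 : (rI (toZ B)).submatrix (Fintype.equivFin (Fin m)) (Fintype.equivFin (Fin m))
        = B := by
      ext i j
      simp [rI, toZ]
    have e3 : (rI P).submatrix (Fintype.equivFin (Fin n)) (Fintype.equivFin (Fin m))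
        = Matrix.of fun i j => (P i j).toNat := by
      ext i j
      simp [rI]
    rw [e1, e2, e3] at h1
    exact h1

theorem toZ_inj {ι κ : Type} {A B : Matrix ι κ ℕ} (h : toZ A = toZ B) : A = B := by
  ext i j
  have := congrFun (congrFun h i) j
  exact Int.natCast_inj.1 this

theorem toZ_one {ι : Type} [DecidableEq ι] : toZ (1 : Matrix ι ι ℕ) = 1 := by
  ext i j
  show ((((1 : Matrix ι ι ℕ) i j : ℕ)) : ℤ) = _
  rw [Matrix.one_apply, Matrix.one_apply]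
  split_ifs <;> simp

/-- **Large perturbations along a shift equivalence realise it.** -/
theorem main2 {n m l : ℕ} (hl : 1 ≤ l) (A : Matrix (Fin n) (Fin n) ℕ)
    (B : Matrix (Fin m) (Fin m) ℕ) (R : Matrix (Fin n) (Fin m) ℕ) (S : Matrix (Fin m) (Fin n) ℕ)
    (h1 : A ^ l = R * S) (h2 : B ^ l = S * R) (h3 : S * A = B * S) (hA : ColOK A)
    (hBc : ColOK B) (hBr : RowOK B) :
    ∃ K : ℕ, ∀ W : Matrix (Fin n) (Fin m) ℕ, (∀ i j, K ≤ W i j) →
      Realised (A + W * S) (B + S * W) S := by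
  have hSc : ColOK S := colOK_right (h1 ▸ hA.pow l : ColOK (R * S))
  obtain ⟨l, rfl⟩ : ∃ l', l = l' + 1 := ⟨l - 1, by omega⟩
  obtain ⟨K, hK0, hK⟩ := chain2 (toZ B) (toZ_nonneg B) (fun j => sum_pos_of _ (hBc j))
    (fun i => sum_pos_of _ (hBr i)) l (Fin n) (toZ S) (toZ A) (toZ R) (toZ_nonneg S)
    (fun j => sum_pos_of _ (hSc j)) (toZ_nonneg R)
    (by rw [← toZ_mul, h3, toZ_mul])
    ⟨l + 1, fun x hx => by
      rw [← toZ_pow, h1, toZ_mul, ← Matrix.mulVec_mulVec, hx, Matrix.mulVec_zero]⟩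
    (by rw [← toZ_mul, ← h2, toZ_pow])
  refine ⟨K.toNat, fun W hW => ?_⟩
  obtain ⟨P, hP, a, c, e⟩ := hK (toZ W) (by
    intro i a
    have h4 := hW i a
    have h5 : K ≤ ((K.toNat : ℕ) : ℤ) := Int.self_le_toNat K
    have h6 : ((K.toNat : ℕ) : ℤ) ≤ ((W i a : ℕ) : ℤ) := by exact_mod_cast h4
    exact h5.trans h6)
  rw [← toZ_mul, ← toZ_mul, ← toZ_add, ← toZ_add] at hP
  obtain ⟨P', rfl, hc⟩ := hP.chain
  refine ⟨P', hc, a, c, ?_⟩
  apply toZ_inj
  rw [Matrix.mul_one, ← toZ_mul, ← toZ_mul, ← toZ_add, ← toZ_pow, ← toZ_mul, ← toZ_pow] at e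
  exact e

theorem main2_uniform (n m l M : ℕ) (hl : 1 ≤ l) : ∃ K : ℕ,
    ∀ (A : Matrix (Fin n) (Fin n) ℕ) (B : Matrix (Fin m) (Fin m) ℕ)
      (R : Matrix (Fin n) (Fin m) ℕ) (S : Matrix (Fin m) (Fin n) ℕ)
      (W : Matrix (Fin n) (Fin m) ℕ),
      (∀ i j, A i j ≤ M) → (∀ i j, B i j ≤ M) → (∀ i j, R i j ≤ M) → (∀ i j, S i j ≤ M) →
      A ^ l = R * S → B ^ l = S * R → S * A = B * S → (∀ j, ∃ i, A i j ≠ 0) →
      (∀ j, ∃ i, B i j ≠ 0) → (∀ i, ∃ j, B i j ≠ 0) → (∀ i j, K ≤ W i j) →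
      Realised (A + W * S) (B + S * W) S := by
  classical
  have hK : ∀ q : (Fin n → Fin n → ℕ) × (Fin m → Fin m → ℕ) × (Fin n → Fin m → ℕ) ×
      (Fin m → Fin n → ℕ), ∃ K : ℕ,
      (Matrix.of q.1 : Matrix (Fin n) (Fin n) ℕ) ^ l
        = (Matrix.of q.2.2.1 : Matrix (Fin n) (Fin m) ℕ) * Matrix.of q.2.2.2 →
      (Matrix.of q.2.1 : Matrix (Fin m) (Fin m) ℕ) ^ l
        = (Matrix.of q.2.2.2 : Matrix (Fin m) (Fin n) ℕ) * Matrix.of q.2.2.1 →
      (Matrix.of q.2.2.2 : Matrix (Fin m) (Fin n) ℕ) * Matrix.of q.1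
        = (Matrix.of q.2.1 : Matrix (Fin m) (Fin m) ℕ) * Matrix.of q.2.2.2 →
      ColOK (Matrix.of q.1) → ColOK (Matrix.of q.2.1) → RowOK (Matrix.of q.2.1) →
      ∀ W : Matrix (Fin n) (Fin m) ℕ, (∀ i j, K ≤ W i j) →
      Realised ((Matrix.of q.1 : Matrix (Fin n) (Fin n) ℕ) + W * Matrix.of q.2.2.2)
        ((Matrix.of q.2.1 : Matrix (Fin m) (Fin m) ℕ) + Matrix.of q.2.2.2 * W)
        (Matrix.of q.2.2.2) := by
    rintro ⟨a, b, r, s⟩
    by_cases h : ((Matrix.of a : Matrix (Fin n) (Fin n) ℕ) ^ l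
        = (Matrix.of r : Matrix (Fin n) (Fin m) ℕ) * Matrix.of s) ∧
      ((Matrix.of b : Matrix (Fin m) (Fin m) ℕ) ^ l
        = (Matrix.of s : Matrix (Fin m) (Fin n) ℕ) * Matrix.of r) ∧
      ((Matrix.of s : Matrix (Fin m) (Fin n) ℕ) * Matrix.of a
        = (Matrix.of b : Matrix (Fin m) (Fin m) ℕ) * Matrix.of s) ∧
      ColOK (Matrix.of a) ∧ ColOK (Matrix.of b) ∧ RowOK (Matrix.of b)
    · obtain ⟨h1, h2, h3, h4, h5, h6⟩ := h
      obtain ⟨K, hK⟩ := main2 hl (Matrix.of a) (Matrix.of b) (Matrix.of r) (Matrix.of s)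
        h1 h2 h3 h4 h5 h6
      exact ⟨K, fun _ _ _ _ _ _ => hK⟩
    · exact ⟨0, fun h1 h2 h3 h4 h5 h6 => absurd ⟨h1, h2, h3, h4, h5, h6⟩ h⟩
  choose K hK using hK
  have hfin : ((Set.Icc (fun _ _ => 0 : Fin n → Fin n → ℕ) (fun _ _ => M)) ×ˢ
      ((Set.Icc (fun _ _ => 0 : Fin m → Fin m → ℕ) (fun _ _ => M)) ×ˢ
      ((Set.Icc (fun _ _ => 0 : Fin n → Fin m → ℕ) (fun _ _ => M)) ×ˢ
      (Set.Icc (fun _ _ => 0 : Fin m → Fin n → ℕ) (fun _ _ => M))))).Finite :=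
    (Set.finite_Icc _ _).prod ((Set.finite_Icc _ _).prod ((Set.finite_Icc _ _).prod
      (Set.finite_Icc _ _)))
  obtain ⟨K1, hK1⟩ := (hfin.image K).bddAbove
  refine ⟨K1, fun A B R S W hA hB hR hS h1 h2 h3 h4 h5 h6 hW => ?_⟩
  have hq : K (A, B, R, S) ≤ K1 := by
    apply hK1
    refine ⟨(A, B, R, S), ⟨⟨fun i j => Nat.zero_le _, fun i j => hA i j⟩,
      ⟨fun i j => Nat.zero_le _, fun i j => hB i j⟩,
      ⟨fun i j => Nat.zero_le _, fun i j => hR i j⟩,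
      ⟨fun i j => Nat.zero_le _, fun i j => hS i j⟩⟩, rfl⟩
  exact hK (A, B, R, S) h1 h2 h3 h4 h5 h6 W (fun i j => hq.trans (hW i j))

section poly

open Polynomial

variable {n m : ℕ}

/-- **Polynomials in shift equivalent matrices, with realisation.** -/
theorem poly2 {A : Matrix (Fin n) (Fin n) ℕ} {B : Matrix (Fin m) (Fin m) ℕ} {l : ℕ}
    (hl : 1 ≤ l) (R : Matrix (Fin n) (Fin m) ℕ) (S : Matrix (Fin m) (Fin n) ℕ)
    (h1 : A ^ l = R * S) (h2 : B ^ l = S * R) (h4 : S * A = B * S)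
    (hA : ∃ s, ∀ i j, 2 ≤ (A ^ s) i j) (hB : ∃ s, ∀ i j, 2 ≤ (B ^ s) i j)
    (f : ℕ[X]) (hf : X ∣ f) :
    ∃ l0 : ℕ, ∀ g : ℕ[X], g ≠ 0 → X ^ l0 ∣ g →
      Realised (aeval A (f + g)) (aeval B (f + g)) S := by
  obtain ⟨hAr, hAc⟩ := colOK_of_two hA
  obtain ⟨hBr, hBc⟩ := colOK_of_two hB
  by_cases hf0 : f = 0
  · refine ⟨l, fun g hg hlg => ?_⟩
    obtain ⟨q, rfl⟩ := hlg
    rw [hf0, zero_add]
    have e1 : aeval A (X ^ l * q) = R * aeval B q * S := by
      rw [map_mul, map_pow, aeval_X, h1, Matrix.mul_assoc, inter_poly h4 q, Matrix.mul_assoc]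
    have e2 : aeval B (X ^ l * q) = S * (R * aeval B q) := by
      rw [map_mul, map_pow, aeval_X, h2, Matrix.mul_assoc]
    refine ⟨R * aeval B q, ?_, 1, 0, ?_⟩
    · rw [e1, e2]
      exact Chain.one _ _
    · rw [pow_zero, pow_one, Matrix.one_mul, e2]
  · obtain ⟨f1, rfl⟩ := hf
    have e1 : (aeval A (X * f1)) ^ l = (R * (aeval B f1) ^ l) * S := by
      rw [← map_pow, mul_pow, map_mul, map_pow, aeval_X, h1, Matrix.mul_assoc,
        inter_poly h4, map_pow, Matrix.mul_assoc]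
    have e2 : (aeval B (X * f1)) ^ l = S * (R * (aeval B f1) ^ l) := by
      rw [← map_pow, mul_pow, map_mul, map_pow, aeval_X, h2, Matrix.mul_assoc, map_pow]
    have e3 : S * aeval A (X * f1) = aeval B (X * f1) * S := inter_poly h4 _
    obtain ⟨K, hK⟩ := main2 hl (aeval A (X * f1)) (aeval B (X * f1)) (R * (aeval B f1) ^ l) S
      e1 e2 e3 (ge_of_poly_col hAc hf0) (ge_of_poly_col hBc hf0) (ge_of_poly_row hBr hf0)
    obtain ⟨t0, ht0⟩ := growth hB K
    refine ⟨l + t0, fun g hg hlg => ?_⟩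
    obtain ⟨q, rfl⟩ := hlg
    have hq : q ≠ 0 := by
      rintro rfl
      exact hg (mul_zero _)
    obtain ⟨d, hd⟩ : ∃ d, q.coeff d ≠ 0 := by
      by_contra hcon
      push Not at hcon
      exact hq (Polynomial.ext fun d => by rw [hcon d, coeff_zero])
    have h5 := hK (R * (B ^ t0 * aeval B q)) (by
      intro i j
      have hR : RowOK R := rowOK_left (h1 ▸ hAr.pow l : RowOK (R * S))
      obtain ⟨k, hk⟩ := hR i
      have h6 : K ≤ (B ^ t0 * aeval B q) k j := by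
        have h7 := ht0 (t0 + d) (by omega) k j
        refine h7.trans ?_
        rw [pow_add, Matrix.mul_apply, Matrix.mul_apply]
        exact Finset.sum_le_sum fun x _ => Nat.mul_le_mul_left _ (poly_ge B q d hd x j)
      rw [Matrix.mul_apply]
      calc K ≤ R i k * (B ^ t0 * aeval B q) k j :=
            h6.trans (Nat.le_mul_of_pos_left _ (Nat.pos_of_ne_zero hk))
        _ ≤ _ := Finset.single_le_sum (f := fun k => R i k * (B ^ t0 * aeval B q) k j)
            (fun _ _ => Nat.zero_le _) (Finset.mem_univ k))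
    have e4 : R * (B ^ t0 * aeval B q) * S = aeval A (X ^ (l + t0) * q) := by
      have h6 : aeval B (X ^ t0 * q) = B ^ t0 * aeval B q := by
        rw [map_mul, map_pow, aeval_X]
      rw [← h6, Matrix.mul_assoc, ← inter_poly h4, ← Matrix.mul_assoc, ← h1, map_mul, map_mul,
        map_pow, map_pow, aeval_X, pow_add, Matrix.mul_assoc]
    have e5 : S * (R * (B ^ t0 * aeval B q)) = aeval B (X ^ (l + t0) * q) := by
      rw [← Matrix.mul_assoc, ← h2, map_mul, map_pow, aeval_X, pow_add, Matrix.mul_assoc]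
    rw [e4, e5, ← map_add, ← map_add] at h5
    exact h5

/-- `A + A ^ j` and `B + B ^ j` are strong shift equivalent for all large `j`, and the strong
shift equivalence can be chosen to realise `S`. -/
theorem add_pow2 {A : Matrix (Fin n) (Fin n) ℕ} {B : Matrix (Fin m) (Fin m) ℕ} {l : ℕ}
    (hl : 1 ≤ l) (R : Matrix (Fin n) (Fin m) ℕ) (S : Matrix (Fin m) (Fin n) ℕ)
    (h1 : A ^ l = R * S) (h2 : B ^ l = S * R) (h4 : S * A = B * S)
    (hA : ∃ s, ∀ i j, 2 ≤ (A ^ s) i j) (hB : ∃ s, ∀ i j, 2 ≤ (B ^ s) i j) :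
    ∃ l0 : ℕ, ∀ j, l0 ≤ j → Realised (A + A ^ j) (B + B ^ j) S := by
  obtain ⟨l0, h0⟩ := poly2 hl R S h1 h2 h4 hA hB X (dvd_refl _)
  refine ⟨l0, fun j hj => ?_⟩
  have h1 := h0 (X ^ j) (pow_ne_zero _ X_ne_zero) (pow_dvd_pow X hj)
  rw [map_add, map_add, map_pow, map_pow, aeval_X, aeval_X] at h1
  exact h1

end poly

end Pool.Agent.H73LP
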