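import Pool.Agent.H73LP.Final

/-!
# Integer polynomials in shift equivalent matrices
-/

set_option autoImplicit false
set_option linter.unusedSectionVars false

namespace Pool.Agent.H73LP

open Matrix Pool.Agent.H73AM Polynomial

variable {n m : ℕ}

theorem toZ_one' {ι : Type} [DecidableEq ι] : toZ (1 : Matrix ι ι ℕ) = 1 := by
  ext i j
  simp only [toZ, Matrix.map_apply, Matrix.one_apply]
  split_ifs <;> simp

theorem toZ_nsmul {ι κ : Type} (a : ℕ) (A : Matrix ι κ ℕ) : toZ (a • A) = (a : ℤ) • toZ A := by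
  ext i j
  simp [toZ]

theorem toZ_aeval (A : Matrix (Fin n) (Fin n) ℕ) (g : ℕ[X]) :
    toZ (aeval A g) = aeval (toZ A) (g.map (Nat.castRingHom ℤ)) := by
  induction g using Polynomial.induction_on' with
  | add p q hp hq => rw [map_add, toZ_add, hp, hq, Polynomial.map_add, map_add]
  | monomial t a =>
    rw [aeval_monomial, Polynomial.map_monomial, aeval_monomial, ← Algebra.smul_def,
      ← Algebra.smul_def, toZ_nsmul, toZ_pow]
    rfl

theorem inter_powZ {A : Matrix (Fin n) (Fin n) ℤ} {B : Matrix (Fin m) (Fin m) ℤ}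
    {S : Matrix (Fin m) (Fin n) ℤ} (h : S * A = B * S) (t : ℕ) : S * A ^ t = B ^ t * S := by
  induction t with
  | zero => simp
  | succ t ih => rw [pow_succ, ← Matrix.mul_assoc, ih, Matrix.mul_assoc, h, ← Matrix.mul_assoc,
      ← pow_succ]

theorem inter_polyZ {A : Matrix (Fin n) (Fin n) ℤ} {B : Matrix (Fin m) (Fin m) ℤ}
    {S : Matrix (Fin m) (Fin n) ℤ} (h : S * A = B * S) (f : ℤ[X]) :
    S * aeval A f = aeval B f * S := by
  induction f using Polynomial.induction_on' with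
  | add p q hp hq => rw [map_add, map_add, Matrix.mul_add, Matrix.add_mul, hp, hq]
  | monomial t a =>
    rw [aeval_monomial, aeval_monomial, ← Algebra.smul_def, ← Algebra.smul_def,
      Matrix.mul_smul, Matrix.smul_mul, inter_powZ h]

/-- The nonnegative integer matrices `A'` and `B'` are `h(A)` and `h(B)`, and `S` is realised. -/
def GoodPoly (A : Matrix (Fin n) (Fin n) ℕ) (B : Matrix (Fin m) (Fin m) ℕ)
    (S : Matrix (Fin m) (Fin n) ℕ) (h : ℤ[X]) : Prop :=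
  ∃ (A' : Matrix (Fin n) (Fin n) ℕ) (B' : Matrix (Fin m) (Fin m) ℕ),
    toZ A' = aeval (toZ A) h ∧ toZ B' = aeval (toZ B) h ∧ Realised A' B' S

/-- **Integer polynomials in shift equivalent matrices.** -/
theorem polyZ {A : Matrix (Fin n) (Fin n) ℕ} {B : Matrix (Fin m) (Fin m) ℕ} {l : ℕ}
    (hl : 1 ≤ l) (R : Matrix (Fin n) (Fin m) ℕ) (S : Matrix (Fin m) (Fin n) ℕ)
    (h1 : A ^ l = R * S) (h2 : B ^ l = S * R) (h4 : S * A = B * S)
    (hA : ColOK A) (hBr : RowOK B) (f : ℤ[X]) (hf : X ∣ f) :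
    ∃ K : ℕ, ∀ q : ℕ[X], (∀ i j, K ≤ (R * aeval B q) i j) →
      GoodPoly A B S (f + (X ^ l * q).map (Nat.castRingHom ℤ)) := by
  obtain ⟨f1, rfl⟩ := hf
  have z1 : toZ A ^ l = toZ R * toZ S := by rw [← toZ_pow, h1, toZ_mul]
  have z2 : toZ B ^ l = toZ S * toZ R := by rw [← toZ_pow, h2, toZ_mul]
  have z4 : toZ S * toZ A = toZ B * toZ S := by rw [← toZ_mul, h4, toZ_mul]
  have e4 : ∀ q : ℕ[X], R * aeval B q * S = aeval A (X ^ l * q) := by
    intro q
    rw [Matrix.mul_assoc, ← inter_poly h4, ← Matrix.mul_assoc, ← h1, map_mul, map_pow, aeval_X]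
  have e5 : ∀ q : ℕ[X], S * (R * aeval B q) = aeval B (X ^ l * q) := by
    intro q
    rw [← Matrix.mul_assoc, ← h2, map_mul, map_pow, aeval_X]
  have e1 : (aeval (toZ A) (X * f1)) ^ l = (toZ R * (aeval (toZ B) f1) ^ l) * toZ S := by
    rw [← map_pow, mul_pow, map_mul, map_pow, aeval_X, z1, Matrix.mul_assoc,
      inter_polyZ z4, map_pow, Matrix.mul_assoc]
  have e2 : (aeval (toZ B) (X * f1)) ^ l = toZ S * (toZ R * (aeval (toZ B) f1) ^ l) := by
    rw [← map_pow, mul_pow, map_mul, map_pow, aeval_X, z2, Matrix.mul_assoc, map_pow]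
  have e3 : toZ S * aeval (toZ A) (X * f1) = aeval (toZ B) (X * f1) * toZ S := inter_polyZ z4 _
  have hSc : ColOK S := colOK_right (h1 ▸ hA.pow l : ColOK (R * S))
  have hSr : RowOK S := rowOK_left (h2 ▸ hBr.pow l : RowOK (S * R))
  obtain ⟨K, hK⟩ := mainZ_fin hl _ _ _ S e1 e2 e3 hSc hSr
  refine ⟨K, fun q hq => ?_⟩
  obtain ⟨A', B', hA', hB', hr⟩ := hK (R * aeval B q) hq
  refine ⟨A', B', ?_, ?_, hr⟩
  · rw [hA', e4, toZ_aeval, map_add]
  · rw [hB', e5, toZ_aeval, map_add]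

/-- Primitive matrices. -/
theorem polyZ_prim {A : Matrix (Fin n) (Fin n) ℕ} {B : Matrix (Fin m) (Fin m) ℕ} {l : ℕ}
    (hl : 1 ≤ l) (R : Matrix (Fin n) (Fin m) ℕ) (S : Matrix (Fin m) (Fin n) ℕ)
    (h1 : A ^ l = R * S) (h2 : B ^ l = S * R) (h4 : S * A = B * S)
    (hA : ∃ s, ∀ i j, 2 ≤ (A ^ s) i j) (hB : ∃ s, ∀ i j, 2 ≤ (B ^ s) i j)
    (f : ℤ[X]) (hf : X ∣ f) :
    ∃ l0 : ℕ, ∀ g : ℕ[X], g ≠ 0 → X ^ l0 ∣ g →
      GoodPoly A B S (f + g.map (Nat.castRingHom ℤ)) := by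
  obtain ⟨hAr, hAc⟩ := colOK_of_two hA
  obtain ⟨hBr, hBc⟩ := colOK_of_two hB
  obtain ⟨K, hK⟩ := polyZ hl R S h1 h2 h4 hAc hBr f hf
  obtain ⟨t0, ht0⟩ := growth hB K
  refine ⟨l + t0, fun g hg hlg => ?_⟩
  obtain ⟨q, rfl⟩ := hlg
  have hq : q ≠ 0 := by
    rintro rfl
    exact hg (mul_zero _)
  obtain ⟨d, hd⟩ : ∃ d, q.coeff d ≠ 0 := by
    by_contra hcon
    push Not at hcon
    exact hq (Polynomial.ext fun d => by rw [hcon d, coeff_zero])
  have h5 := hK (X ^ t0 * q) (by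
    intro i j
    have hR : RowOK R := rowOK_left (h1 ▸ hAr.pow l : RowOK (R * S))
    obtain ⟨k, hk⟩ := hR i
    have h6 : K ≤ (aeval B (X ^ t0 * q)) k j := by
      have h7 := ht0 (t0 + d) (by omega) k j
      refine h7.trans ?_
      rw [map_mul, map_pow, aeval_X, pow_add, Matrix.mul_apply, Matrix.mul_apply]
      exact Finset.sum_le_sum fun x _ => Nat.mul_le_mul_left _ (poly_ge B q d hd x j)
    rw [Matrix.mul_apply]
    calc K ≤ R i k * (aeval B (X ^ t0 * q)) k j :=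
          h6.trans (Nat.le_mul_of_pos_left _ (Nat.pos_of_ne_zero hk))
      _ ≤ _ := Finset.single_le_sum (f := fun k => R i k * (aeval B (X ^ t0 * q)) k j)
          (fun _ _ => Nat.zero_le _) (Finset.mem_univ k))
  rw [← mul_assoc, ← pow_add] at h5
  exact h5

end Pool.Agent.H73LP
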