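import Pool.Agent.H73LP.LargeM

/-!
# The uniform version of the main theorem
-/

set_option autoImplicit false

namespace Pool.Agent.H73LP

open Matrix Pool.Agent.H73AM

theorem main_uniform (n m l M : ℕ) (hl : 1 ≤ l) : ∃ K : ℕ,
    ∀ (A : Matrix (Fin n) (Fin n) ℕ) (B : Matrix (Fin m) (Fin m) ℕ)
      (R : Matrix (Fin n) (Fin m) ℕ) (S : Matrix (Fin m) (Fin n) ℕ)
      (W : Matrix (Fin n) (Fin m) ℕ),
      (∀ i j, A i j ≤ M) → (∀ i j, B i j ≤ M) → (∀ i j, R i j ≤ M) → (∀ i j, S i j ≤ M) →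
      A ^ l = R * S → B ^ l = S * R → S * A = B * S → (∀ j, ∃ i, A i j ≠ 0) →
      (∀ j, ∃ i, B i j ≠ 0) → (∀ i, ∃ j, B i j ≠ 0) → (∀ i j, K ≤ W i j) →
      SSE (A + W * S) (B + S * W) := by
  classical
  have hK : ∀ q : (Fin n → Fin n → ℕ) × (Fin m → Fin m → ℕ) × (Fin n → Fin m → ℕ) ×
      (Fin m → Fin n → ℕ), ∃ K : ℕ,
      (Matrix.of q.1 : Matrix (Fin n) (Fin n) ℕ) ^ l
        = (Matrix.of q.2.2.1 : Matrix (Fin n) (Fin m) ℕ) * Matrix.of q.2.2.2 →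
      (Matrix.of q.2.1 : Matrix (Fin m) (Fin m) ℕ) ^ l
        = (Matrix.of q.2.2.2 : Matrix (Fin m) (Fin n) ℕ) * Matrix.of q.2.2.1 →
      (Matrix.of q.2.2.2 : Matrix (Fin m) (Fin n) ℕ) * Matrix.of q.1
        = (Matrix.of q.2.1 : Matrix (Fin m) (Fin m) ℕ) * Matrix.of q.2.2.2 →
      ColOK (Matrix.of q.1) → ColOK (Matrix.of q.2.1) → RowOK (Matrix.of q.2.1) →
      ∀ W : Matrix (Fin n) (Fin m) ℕ, (∀ i j, K ≤ W i j) →
      SSE ((Matrix.of q.1 : Matrix (Fin n) (Fin n) ℕ) + W * Matrix.of q.2.2.2)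
        ((Matrix.of q.2.1 : Matrix (Fin m) (Fin m) ℕ) + Matrix.of q.2.2.2 * W) := by
    rintro ⟨a, b, r, s⟩
    by_cases h : ((Matrix.of a : Matrix (Fin n) (Fin n) ℕ) ^ l
        = (Matrix.of r : Matrix (Fin n) (Fin m) ℕ) * Matrix.of s) ∧
      ((Matrix.of b : Matrix (Fin m) (Fin m) ℕ) ^ l
        = (Matrix.of s : Matrix (Fin m) (Fin n) ℕ) * Matrix.of r) ∧
      ((Matrix.of s : Matrix (Fin m) (Fin n) ℕ) * Matrix.of a
        = (Matrix.of b : Matrix (Fin m) (Fin m) ℕ) * Matrix.of s) ∧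
      ColOK (Matrix.of a) ∧ ColOK (Matrix.of b) ∧ RowOK (Matrix.of b)
    · obtain ⟨h1, h2, h3, h4, h5, h6⟩ := h
      obtain ⟨K, hK⟩ := main hl (Matrix.of a) (Matrix.of b) (Matrix.of r) (Matrix.of s)
        h1 h2 h3 h4 h5 h6
      exact ⟨K, fun _ _ _ _ _ _ => hK⟩
    · exact ⟨0, fun h1 h2 h3 h4 h5 h6 => absurd ⟨h1, h2, h3, h4, h5, h6⟩ h⟩
  choose K hK using hK
  have hfin : ((Set.Icc (fun _ _ => 0 : Fin n → Fin n → ℕ) (fun _ _ => M)) ×ˢ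
      ((Set.Icc (fun _ _ => 0 : Fin m → Fin m → ℕ) (fun _ _ => M)) ×ˢ
      ((Set.Icc (fun _ _ => 0 : Fin n → Fin m → ℕ) (fun _ _ => M)) ×ˢ
      (Set.Icc (fun _ _ => 0 : Fin m → Fin n → ℕ) (fun _ _ => M))))).Finite :=
    (Set.finite_Icc _ _).prod ((Set.finite_Icc _ _).prod ((Set.finite_Icc _ _).prod
      (Set.finite_Icc _ _)))
  obtain ⟨K1, hK1⟩ := (hfin.image K).bddAbove
  refine ⟨K1, fun A B R S W hA hB hR hS h1 h2 h3 h4 h5 h6 hW => ?_⟩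
  have hq : K (A, B, R, S) ≤ K1 := by
    apply hK1
    refine ⟨(A, B, R, S), ⟨⟨fun i j => Nat.zero_le _, fun i j => hA i j⟩,
      ⟨fun i j => Nat.zero_le _, fun i j => hB i j⟩,
      ⟨fun i j => Nat.zero_le _, fun i j => hR i j⟩,
      ⟨fun i j => Nat.zero_le _, fun i j => hS i j⟩⟩, rfl⟩
  exact hK (A, B, R, S) h1 h2 h3 h4 h5 h6 W (fun i j => hq.trans (hW i j))

end Pool.Agent.H73LP
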